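import Pool.Agent.G4.C.ChebU
import Pool.Agent.G3.C.EDefs
import Pool.Agent.H62.EF.PrA

/-!
# G4 C SpreadU: the extension to complex parameters spreads over connected sets of `z`, uniformly for the members of a set of families
-/

set_option autoImplicit false

open Topology Filter Metric Set

namespace Pool.Agent.G4.C

open Pool.Agent.H36.BP (EN fs wd)
open Pool.Agent.H62.EF (MN pr pr_smul pr_eq_iff continuousAt_pr)
open Pool.Agent.AD (Vd)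
open Pool.Agent.G3.C (EAt nv nd nv_pr nd_pr_ne nd_cont nv_continuousAt pr_nv)

variable {N : ℕ} {ι : Type*}

/-- the family extends to the ball of radius `ε` in `ℂ × ℂ` with centre `(s₀, z₀)`, with a normalised lift bounded by `M` -/
def EAtB (v : EN N) (Φ : ℝ → ℂ → MN N) (s₀ : ℝ) (z₀ : ℂ) (ε M : ℝ) : Prop :=
  ∃ F : ℂ × ℂ → EN N, DifferentiableOn ℂ F (ball ((s₀ : ℂ), z₀) ε) ∧ (∀ p ∈ ball ((s₀ : ℂ), z₀) ε, inner ℂ v (F p) = (1 : ℂ) ∧ ‖F p‖ ≤ M) ∧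
    ∀ (s : ℝ) (z : ℂ), ((s : ℂ), z) ∈ ball ((s₀ : ℂ), z₀) ε → Φ s z = pr (F (s, z))

theorem EAtB.eat {v : EN N} {Φ : ℝ → ℂ → MN N} {s₀ : ℝ} {z₀ : ℂ} {ε M : ℝ} (h : EAtB v Φ s₀ z₀ ε M) : EAt Φ s₀ z₀ ε := by
  obtain ⟨F, h1, h2, h3⟩ := h
  exact ⟨F, h1, fun p hp h0 => by
    have h4 := (h2 p hp).1
    rw [h0, inner_zero_right] at h4
    exact zero_ne_one h4, h3⟩

theorem EAtB.shrink {v : EN N} {Φ : ℝ → ℂ → MN N} {s₀ s₁ : ℝ} {z₀ z₁ : ℂ} {ε ε' M : ℝ} (h : EAtB v Φ s₀ z₀ ε M)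
    (hb : ball ((s₁ : ℂ), z₁) ε' ⊆ ball ((s₀ : ℂ), z₀) ε) : EAtB v Φ s₁ z₁ ε' M := by
  obtain ⟨F, h1, h2, h3⟩ := h
  exact ⟨F, h1.mono hb, fun p hp => h2 p (hb hp), fun s z hz => h3 s z (hb hz)⟩

/-- uniform extension at `(s₀, z)` -/
def UE (l : Filter ι) (Φ : ι → ℝ → ℂ → MN N) (s₀ : ℝ) (z : ℂ) : Prop := ∃ (v : EN N) (ε M : ℝ), 0 < ε ∧ ∀ᶠ i in l, EAtB v (Φ i) s₀ z ε M

/-- families of curves, uniformly continuous at the points `(s₀, z)`, `z ∈ Ω` -/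
structure UFam (l : Filter ι) (Φ : ι → ℝ → ℂ → MN N) (s₀ : ℝ) (Ω : Set ℂ) : Prop where
  lift : ∀ i, ∀ s : ℝ, ∃ F : ℂ → EN N, Differentiable ℂ F ∧ (∀ z, F z ≠ 0) ∧ ∀ z, Φ i s z = pr (F z)
  cont : ∀ z ∈ Ω, ∃ (v : EN N) (r c : ℝ), 0 < r ∧ 0 < c ∧ ∀ᶠ i in l, ∀ s ∈ Icc (s₀ - r) (s₀ + r), ∀ w ∈ ball z r,
    ContinuousAt (fun q : ℝ × ℂ => Φ i q.1 q.2) (s, w) ∧ c ≤ ‖nd v (Φ i s w)‖

private theorem nd_norm (v x : EN N) : ‖nd v (pr x)‖ * ‖x‖ ^ 2 = ‖(inner ℂ v x : ℂ)‖ ^ 2 := by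
  have e : nd v (pr x) * ((‖x‖ ^ 2 : ℝ) : ℂ) = inner ℂ x v * inner ℂ v x := by
    rcases eq_or_ne x 0 with rfl | hx
    · simp
    have h1 : ((‖x‖ ^ 2 : ℝ) : ℂ) ≠ 0 := by
      have : ‖x‖ ≠ 0 := norm_ne_zero_iff.mpr hx
      exact_mod_cast pow_ne_zero 2 this
    have hin : ∀ x y : EN N, (inner ℂ x y : ℂ) = ∑ j, (starRingEnd ℂ) (x j) * y j := by
      intro x y
      rw [PiLp.inner_apply]
      refine Finset.sum_congr rfl fun j _ => ?_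
      rw [RCLike.inner_apply]
      ring
    have h2 : nd v (pr x) = inner ℂ x v * inner ℂ v x / ((‖x‖ ^ 2 : ℝ) : ℂ) := by
      unfold nd
      rw [hin x v, hin v x, Finset.sum_mul_sum, Finset.sum_comm, Finset.sum_div]
      refine Finset.sum_congr rfl fun i _ => ?_
      rw [Finset.sum_div]
      refine Finset.sum_congr rfl fun j _ => ?_
      simp only [pr]
      ring
    rw [h2, div_mul_cancel₀ _ h1]
  have h3 := congrArg norm e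
  rw [norm_mul, norm_mul, Complex.norm_real, Real.norm_of_nonneg (by positivity)] at h3
  rw [h3, ← norm_inner_symm, sq]

/-- the normalised vector is bounded -/
private theorem nv_bd {v x : EN N} {c : ℝ} (hc : 0 < c) (h : c ≤ ‖nd v (pr x)‖) (hx : x ≠ 0) : inner ℂ v x ≠ (0 : ℂ) ∧ ‖nv v (pr x)‖ ≤ (Real.sqrt c)⁻¹ ∧
    Real.sqrt c * ‖x‖ ≤ ‖(inner ℂ v x : ℂ)‖ := by
  have h0 : inner ℂ v x ≠ (0 : ℂ) := (nd_pr_ne hx).1 fun h1 => by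
    rw [h1, norm_zero] at h
    linarith
  have h1 := nd_norm v x
  have hsc : 0 < Real.sqrt c := Real.sqrt_pos.2 hc
  have h2 : Real.sqrt c * ‖x‖ ≤ ‖(inner ℂ v x : ℂ)‖ := by
    refine le_of_sq_le_sq ?_ (norm_nonneg _)
    rw [mul_pow, Real.sq_sqrt hc.le, ← h1]
    exact mul_le_mul_of_nonneg_right h (by positivity)
  refine ⟨h0, ?_, h2⟩
  rw [nv_pr h0, norm_smul, norm_inv, ← div_eq_inv_mul, div_le_iff₀ (norm_pos_iff.2 h0), ← div_eq_inv_mul, le_div_iff₀ hsc, mul_comm]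
  exact h2

private theorem norm_le_sum (x : EN N) : ‖x‖ ≤ ∑ j, ‖x j‖ := by
  rw [EuclideanSpace.norm_eq, Real.sqrt_le_iff]
  exact ⟨Finset.sum_nonneg fun _ _ => norm_nonneg _, Finset.sum_sq_le_sq_sum_of_nonneg fun _ _ => norm_nonneg _⟩

/-- bounded holomorphic maps are Lipschitz at the centre of a ball -/
private theorem schwarz {F : ℂ × ℂ → EN N} {p₀ : ℂ × ℂ} {ε M : ℝ} (hε : 0 < ε) (hF : DifferentiableOn ℂ F (ball p₀ ε)) (hM : ∀ p ∈ ball p₀ ε, ‖F p‖ ≤ M) {p : ℂ × ℂ}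
    (hp : p ∈ ball p₀ (ε / 2)) : ‖F p - F p₀‖ ≤ 4 * (M + 1) / ε * dist p p₀ := by
  have hM0 : 0 ≤ M := (norm_nonneg _).trans (hM p₀ (mem_ball_self hε))
  rcases eq_or_ne p p₀ with rfl | hne
  · simp
  have hd : 0 < ‖p - p₀‖ := norm_pos_iff.2 (sub_ne_zero.2 hne)
  have hpe : ‖p - p₀‖ < ε / 2 := by rwa [mem_ball, dist_eq_norm] at hp
  obtain ⟨g, hg⟩ : ∃ g : ℂ → EN N, g = fun t => F (p₀ + t • (p - p₀)) := ⟨_, rfl⟩
  have hm : ∀ t ∈ ball (0 : ℂ) (ε / ‖p - p₀‖), p₀ + t • (p - p₀) ∈ ball p₀ ε := by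
    intro t ht
    rw [mem_ball, dist_zero_right, lt_div_iff₀ hd] at ht
    rw [mem_ball, dist_eq_norm, add_sub_cancel_left, norm_smul]
    exact ht
  have hgd : DifferentiableOn ℂ g (ball 0 (ε / ‖p - p₀‖)) := by
    rw [hg]
    refine hF.comp ?_ hm
    have : Differentiable ℂ fun t : ℂ => p₀ + t • (p - p₀) := by fun_prop
    exact this.differentiableOn
  have hmap : MapsTo g (ball 0 (ε / ‖p - p₀‖)) (closedBall (g 0) (2 * (M + 1))) := by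
    intro t ht
    rw [mem_closedBall, dist_eq_norm, hg]
    have h1 := hM _ (hm t ht)
    have h2 := hM _ (hm 0 (mem_ball_self (by positivity)))
    exact (norm_sub_le _ _).trans (by linarith)
  have h1 : (1 : ℂ) ∈ ball (0 : ℂ) (ε / ‖p - p₀‖) := by
    rw [mem_ball, dist_zero_right, norm_one, lt_div_iff₀ hd]
    linarith
  have h2 := Complex.dist_le_div_mul_dist_of_mapsTo_ball hgd hmap h1
  rw [hg] at h2
  simp only [one_smul, add_sub_cancel, zero_smul, add_zero, dist_zero_right, norm_one, mul_one] at h2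
  rw [dist_eq_norm] at h2
  refine h2.trans ?_
  rw [dist_eq_norm, div_div_eq_mul_div, div_mul_eq_mul_div]
  gcongr
  linarith

/-- the step: from a point to a ball -/
private theorem step {l : Filter ι} {Φ : ι → ℝ → ℂ → MN N} (hl : ∀ i, ∀ s : ℝ, ∃ F : ℂ → EN N, Differentiable ℂ F ∧ (∀ z, F z ≠ 0) ∧ ∀ z, Φ i s z = pr (F z))
    {s₀ δ : ℝ} (hδ : 0 < δ) {z₁ : ℂ} {R : ℝ} (v : EN N) {c : ℝ} (hc0 : 0 < c)
    (hc : ∀ᶠ i in l, ∀ s ∈ Icc (s₀ - δ) (s₀ + δ), ∀ z ∈ ball z₁ R, ContinuousAt (fun q : ℝ × ℂ => Φ i q.1 q.2) (s, z) ∧ c ≤ ‖nd v (Φ i s z)‖)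
    (hE : UE l Φ s₀ z₁) {z : ℂ} (hz : z ∈ ball z₁ R) : UE l Φ s₀ z := by
  have hR : 0 < R := dist_nonneg.trans_lt (mem_ball.1 hz)
  obtain ⟨R', hR'z, hR'⟩ : ∃ R', dist z z₁ < R' ∧ R' < R := exists_between (mem_ball.1 hz)
  obtain ⟨v', ε, M, hε, hE⟩ := hE
  have hsc : 0 < Real.sqrt c := Real.sqrt_pos.2 hc0
  -- the radius on which the linear form `v` is not small
  obtain ⟨κ, hκd⟩ : ∃ κ, κ = Real.sqrt c * (‖v'‖ + 1)⁻¹ / 2 := ⟨_, rfl⟩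
  have hκ : 0 < κ := by rw [hκd]; positivity
  obtain ⟨L, hL⟩ : ∃ L, L = ‖v‖ * (4 * (|M| + 1) / ε) := ⟨_, rfl⟩
  have hL0 : 0 ≤ L := by rw [hL]; positivity
  obtain ⟨ε₂, hε₂⟩ : ∃ ε₂, ε₂ = min (ε / 2) (κ / (L + 1)) := ⟨_, rfl⟩
  have hε₂0 : 0 < ε₂ := by rw [hε₂]; exact lt_min (by linarith) (by positivity)
  have hε₂a : ε₂ ≤ ε / 2 := by rw [hε₂]; exact min_le_left _ _
  have hε₂b : ε₂ ≤ κ / (L + 1) := by rw [hε₂]; exact min_le_right _ _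
  obtain ⟨ε', hε', hch⟩ := cheb_u (δ := δ) (ε := ε₂) (R := R) (R' := R') hδ hε₂0 hR hR'
  obtain ⟨K, hK⟩ := hch (κ⁻¹ * |M|) (Real.sqrt c)⁻¹
  obtain ⟨e₁, he₁⟩ : ∃ e₁, e₁ = min ε' (min δ (R' - dist z z₁)) := ⟨_, rfl⟩
  have he₁0 : 0 < e₁ := by rw [he₁]; exact lt_min hε' (lt_min hδ (by linarith))
  have he₁a : e₁ ≤ ε' := by rw [he₁]; exact min_le_left _ _
  have he₁b : e₁ ≤ δ := by rw [he₁]; exact (min_le_right _ _).trans (min_le_left _ _)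
  have he₁c : e₁ ≤ R' - dist z z₁ := by rw [he₁]; exact (min_le_right _ _).trans (min_le_right _ _)
  refine ⟨v, e₁, ∑ _j : Fin (N + 1), K, he₁0, ?_⟩
  filter_upwards [hc, hE] with i hc hE
  -- the coordinates
  have hcont : ∀ j, ContinuousOn (fun p : ℝ × ℂ => nv v (Φ i p.1 p.2) j) (Icc (s₀ - δ) (s₀ + δ) ×ˢ ball z₁ R) := by
    rintro j ⟨s, w⟩ ⟨hs, hw⟩
    obtain ⟨h1, h2⟩ := hc s hs w hw
    have h2' : nd v (Φ i s w) ≠ 0 := fun h => by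
      rw [h, norm_zero] at h2
      linarith
    have h3 : ContinuousAt (fun q : ℝ × ℂ => nv v (Φ i q.1 q.2)) (s, w) := ContinuousAt.comp (g := nv v) (f := fun q : ℝ × ℂ => Φ i q.1 q.2) (nv_continuousAt h2') h1
    exact ((PiLp.continuous_apply 2 _ j).continuousAt.comp h3).continuousWithinAt
  have hval : ∀ s ∈ Icc (s₀ - δ) (s₀ + δ), ∃ F : ℂ → EN N, Differentiable ℂ F ∧ (∀ z, F z ≠ 0) ∧ (∀ z, Φ i s z = pr (F z)) ∧ ∀ w ∈ ball z₁ R,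
      inner ℂ v (F w) ≠ (0 : ℂ) ∧ nv v (Φ i s w) = (inner ℂ v (F w) : ℂ)⁻¹ • F w ∧ ‖nv v (Φ i s w)‖ ≤ (Real.sqrt c)⁻¹ := by
    intro s hs
    obtain ⟨F, hF, hF0, hFΦ⟩ := hl i s
    refine ⟨F, hF, hF0, hFΦ, fun w hw => ?_⟩
    have h1 := (hc s hs w hw).2
    rw [hFΦ] at h1 ⊢
    obtain ⟨h2, h3, -⟩ := nv_bd hc0 h1 (hF0 w)
    exact ⟨h2, nv_pr h2, h3⟩
  have hhol : ∀ j, ∀ s ∈ Icc (s₀ - δ) (s₀ + δ), DifferentiableOn ℂ (fun w => nv v (Φ i s w) j) (ball z₁ R) := by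
    intro j s hs
    obtain ⟨F, hF, hF0, hFΦ, hv⟩ := hval s hs
    have e : EqOn (fun w => nv v (Φ i s w) j) (fun w => (inner ℂ v (F w) : ℂ)⁻¹ * F w j) (ball z₁ R) := by
      intro w hw
      simp only
      rw [(hv w hw).2.1]
      simp [PiLp.smul_apply, smul_eq_mul]
    refine DifferentiableOn.congr ?_ e
    have hd1 : Differentiable ℂ fun w => (inner ℂ v (F w) : ℂ) := (innerSL ℂ v).differentiable.comp hF
    have hd2 : Differentiable ℂ fun w => F w j := (EuclideanSpace.proj (𝕜 := ℂ) j : EN N →L[ℂ] ℂ).differentiable.comp hF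
    exact (hd1.differentiableOn.inv fun w hw => (hv w hw).1).mul hd2.differentiableOn
  have hbd : ∀ j, ∀ s ∈ Icc (s₀ - δ) (s₀ + δ), ∀ w ∈ ball z₁ R, ‖nv v (Φ i s w) j‖ ≤ (Real.sqrt c)⁻¹ := by
    intro j s hs w hw
    obtain ⟨F, hF, hF0, hFΦ, hv⟩ := hval s hs
    exact (PiLp.norm_apply_le _ j).trans (hv w hw).2.2
  -- the extension near `z₁`
  obtain ⟨F, hF, hFv, hFΦ⟩ := hE
  have hmem : ((s₀ : ℂ), z₁) ∈ ball ((s₀ : ℂ), z₁) ε := mem_ball_self hε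
  have hF0 : ∀ p ∈ ball ((s₀ : ℂ), z₁) ε, F p ≠ 0 := fun p hp h0 => by
    have h4 := (hFv p hp).1
    rw [h0, inner_zero_right] at h4
    exact zero_ne_one h4
  have hs₀I : s₀ ∈ Icc (s₀ - δ) (s₀ + δ) := ⟨by linarith, by linarith⟩
  have hlow : 2 * κ ≤ ‖(inner ℂ v (F ((s₀ : ℂ), z₁)) : ℂ)‖ := by
    have h1 := (hc s₀ hs₀I z₁ (mem_ball_self hR)).2
    rw [hFΦ s₀ z₁ hmem] at h1
    have h2 := (nv_bd hc0 h1 (hF0 _ hmem)).2.2
    have h3 : 1 ≤ ‖v'‖ * ‖F ((s₀ : ℂ), z₁)‖ := by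
      have h4 := norm_inner_le_norm (𝕜 := ℂ) v' (F ((s₀ : ℂ), z₁))
      rwa [(hFv _ hmem).1, norm_one] at h4
    have h5 : (‖v'‖ + 1)⁻¹ ≤ ‖F ((s₀ : ℂ), z₁)‖ := by
      rw [inv_le_iff_one_le_mul₀ (by positivity)]
      nlinarith [norm_nonneg (F ((s₀ : ℂ), z₁))]
    calc 2 * κ = Real.sqrt c * (‖v'‖ + 1)⁻¹ := by rw [hκd]; ring
      _ ≤ Real.sqrt c * ‖F ((s₀ : ℂ), z₁)‖ := by gcongr
      _ ≤ _ := h2
  have hlow2 : ∀ p ∈ ball ((s₀ : ℂ), z₁) ε₂, κ ≤ ‖(inner ℂ v (F p) : ℂ)‖ := by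
    intro p hp
    have hp2 : p ∈ ball ((s₀ : ℂ), z₁) (ε / 2) := ball_subset_ball hε₂a hp
    have h1 := schwarz hε hF (M := |M|) (fun p hp => (hFv p hp).2.trans (le_abs_self M)) hp2
    have h2 : ‖(inner ℂ v (F p) : ℂ) - inner ℂ v (F ((s₀ : ℂ), z₁))‖ ≤ L * dist p ((s₀ : ℂ), z₁) := by
      rw [← inner_sub_right, hL, mul_assoc]
      exact (norm_inner_le_norm _ _).trans (mul_le_mul_of_nonneg_left h1 (norm_nonneg _))
    have h3 : L * dist p ((s₀ : ℂ), z₁) ≤ κ := by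
      have h4 : dist p ((s₀ : ℂ), z₁) ≤ κ / (L + 1) := (mem_ball.1 hp).le.trans hε₂b
      calc L * dist p ((s₀ : ℂ), z₁) ≤ (L + 1) * (κ / (L + 1)) := by gcongr; linarith
        _ = κ := by field_simp
    have h5 := norm_sub_norm_le (inner ℂ v (F ((s₀ : ℂ), z₁)) : ℂ) (inner ℂ v (F p))
    rw [norm_sub_rev] at h5
    linarith
  have hne2 : ∀ p ∈ ball ((s₀ : ℂ), z₁) ε₂, (inner ℂ v (F p) : ℂ) ≠ 0 := fun p hp h0 => by
    have := hlow2 p hp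
    rw [h0, norm_zero] at this
    linarith
  have hb1 : ball ((s₀ : ℂ), z₁) ε₂ ⊆ ball ((s₀ : ℂ), z₁) ε := ball_subset_ball (by linarith)
  have hg : ∀ j, DifferentiableOn ℂ (fun p => (inner ℂ v (F p) : ℂ)⁻¹ * F p j) (ball ((s₀ : ℂ), z₁) ε₂) := by
    intro j
    have hF' := hF.mono hb1
    have hd1 : DifferentiableOn ℂ (fun w => (inner ℂ v (F w) : ℂ)) (ball ((s₀ : ℂ), z₁) ε₂) := (innerSL ℂ v).differentiable.comp_differentiableOn hF'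
    have hd2 : DifferentiableOn ℂ (fun w => F w j) (ball ((s₀ : ℂ), z₁) ε₂) :=
      (EuclideanSpace.proj (𝕜 := ℂ) j : EN N →L[ℂ] ℂ).differentiable.comp_differentiableOn hF'
    exact (hd1.inv hne2).mul hd2
  have hgb : ∀ j, ∀ p ∈ ball ((s₀ : ℂ), z₁) ε₂, ‖(inner ℂ v (F p) : ℂ)⁻¹ * F p j‖ ≤ κ⁻¹ * |M| := by
    intro j p hp
    rw [norm_mul, norm_inv]
    have h1 : ‖F p j‖ ≤ |M| := (PiLp.norm_apply_le _ j).trans ((hFv p (hb1 hp)).2.trans (le_abs_self M))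
    have h2 : ‖(inner ℂ v (F p) : ℂ)‖⁻¹ ≤ κ⁻¹ := inv_anti₀ hκ (hlow2 p hp)
    gcongr
  have hgf : ∀ j, ∀ (s : ℝ) (w : ℂ), ((s : ℂ), w) ∈ ball ((s₀ : ℂ), z₁) ε₂ → (inner ℂ v (F ((s : ℂ), w)) : ℂ)⁻¹ * F ((s : ℂ), w) j = nv v (Φ i s w) j := by
    intro j s w hw
    rw [hFΦ s w (hb1 hw), nv_pr (hne2 _ hw)]
    simp [PiLp.smul_apply, smul_eq_mul]
  have key : ∀ j, ∃ G : ℂ × ℂ → ℂ, DifferentiableOn ℂ G (ball (s₀ : ℂ) ε' ×ˢ ball z₁ R') ∧ (∀ p ∈ ball (s₀ : ℂ) ε' ×ˢ ball z₁ R', ‖G p‖ ≤ K) ∧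
      ∀ s : ℝ, (s : ℂ) ∈ ball (s₀ : ℂ) ε' → ∀ w ∈ ball z₁ R', G (s, w) = nv v (Φ i s w) j := fun j =>
    hK (fun s w => nv v (Φ i s w) j) _ s₀ z₁ (hcont j) (hhol j) (hbd j) (hg j) (hgb j) (hgf j)
  choose G hG1 hGb hG2 using key
  have hsub : ∀ p ∈ ball ((s₀ : ℂ), z) e₁, p.1 ∈ ball (s₀ : ℂ) e₁ ∧ p.2 ∈ ball z e₁ := by
    intro p hp
    rw [← ball_prod_same] at hp
    exact hp
  have hzR : ball z e₁ ⊆ ball z₁ R' := ball_subset_ball' (by linarith)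
  obtain ⟨H, hH⟩ : ∃ H : ℂ × ℂ → EN N, ∀ p j, H p j = G j p := ⟨fun p => WithLp.toLp 2 fun j => G j p, fun p j => rfl⟩
  have hHd : DifferentiableOn ℂ H (ball ((s₀ : ℂ), z) e₁) := by
    rw [differentiableOn_piLp]
    intro j
    simp only [hH]
    refine (hG1 j).mono fun p hp => ?_
    obtain ⟨h1, h2⟩ := hsub p hp
    exact ⟨ball_subset_ball he₁a h1, hzR h2⟩
  have hHr : ∀ (s : ℝ) (w : ℂ), ((s : ℂ), w) ∈ ball ((s₀ : ℂ), z) e₁ → H (s, w) = nv v (Φ i s w) := by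
    intro s w hp
    obtain ⟨h1, h2⟩ := hsub _ hp
    ext j
    rw [hH]
    exact hG2 j s (ball_subset_ball he₁a h1) w (hzR h2)
  have hreal : ∀ (s : ℝ) (w : ℂ), ((s : ℂ), w) ∈ ball ((s₀ : ℂ), z) e₁ → Φ i s w = pr (H (s, w)) ∧ inner ℂ v (H (s, w)) = (1 : ℂ) := by
    intro s w hp
    obtain ⟨h1, h2⟩ := hsub _ hp
    have hs : s ∈ Icc (s₀ - δ) (s₀ + δ) := by
      simp only at h1
      rw [mem_ball, dist_eq_norm, ← Complex.ofReal_sub, Complex.norm_real, Real.norm_eq_abs] at h1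
      have := abs_lt.1 (h1.trans_le he₁b)
      exact ⟨by linarith [this.1], by linarith [this.2]⟩
    obtain ⟨F, hF, hF0, hFΦ, hv⟩ := hval s hs
    obtain ⟨h4, h5, -⟩ := hv w (ball_subset_ball hR'.le (hzR h2))
    rw [hHr s w hp]
    refine ⟨?_, ?_⟩
    · rw [hFΦ, pr_nv h4]
    · rw [h5, inner_smul_right, inv_mul_cancel₀ h4]
  refine ⟨H, hHd, fun p hp => ⟨?_, ?_⟩, fun s w hp => (hreal s w hp).1⟩
  · -- the identity theorem
    obtain ⟨h1, h2⟩ := hsub p hp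
    have hd : DifferentiableOn ℂ (fun ζ => (inner ℂ v (H (ζ, p.2)) : ℂ)) (ball (s₀ : ℂ) e₁) := by
      refine (innerSL ℂ v).differentiable.comp_differentiableOn ?_
      intro ζ hζ
      have h3 : DifferentiableAt ℂ H (ζ, p.2) := hHd.differentiableAt (isOpen_ball.mem_nhds (by rw [← ball_prod_same]; exact ⟨hζ, h2⟩))
      exact (h3.comp ζ (differentiableAt_id.prodMk (differentiableAt_const p.2))).differentiableWithinAt
    have hfr : ∃ᶠ ζ in 𝓝[≠] (s₀ : ℂ), (inner ℂ v (H (ζ, p.2)) : ℂ) = 1 := by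
      have h4 : ∀ᶠ t : ℝ in 𝓝[≠] s₀, (inner ℂ v (H ((t : ℂ), p.2)) : ℂ) = 1 := by
        filter_upwards [mem_nhdsWithin_of_mem_nhds (ball_mem_nhds s₀ he₁0)] with t ht
        refine (hreal t p.2 ?_).2
        rw [← ball_prod_same]
        refine ⟨?_, h2⟩
        rw [mem_ball, dist_eq_norm, ← Complex.ofReal_sub, Complex.norm_real, ← dist_eq_norm]
        exact ht
      have h5 : Tendsto (fun t : ℝ => (t : ℂ)) (𝓝[≠] s₀) (𝓝[≠] (s₀ : ℂ)) := by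
        refine tendsto_nhdsWithin_iff.2 ⟨(Complex.continuous_ofReal.tendsto s₀).mono_left nhdsWithin_le_nhds, ?_⟩
        filter_upwards [self_mem_nhdsWithin] with t ht h6
        exact ht (Complex.ofReal_injective h6)
      exact h5.frequently h4.frequently
    have h6 := (hd.analyticOnNhd isOpen_ball).eqOn_of_preconnected_of_frequently_eq analyticOnNhd_const (convex_ball _ _).isPreconnected (mem_ball_self he₁0) hfr
    exact h6 h1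
  · obtain ⟨h1, h2⟩ := hsub p hp
    refine (norm_le_sum (H p)).trans (Finset.sum_le_sum fun j _ => ?_)
    rw [hH]
    exact hGb j p ⟨ball_subset_ball he₁a h1, hzR h2⟩

/-- the extension to complex parameters spreads, uniformly -/
theorem spread_u {l : Filter ι} {Φ : ι → ℝ → ℂ → MN N} {s₀ : ℝ} {Ω : Set ℂ} (hΦ : UFam l Φ s₀ Ω) (hΩc : IsPreconnected Ω) {z₁ : ℂ} (hz₁ : z₁ ∈ Ω)
    (hE : UE l Φ s₀ z₁) : ∀ z ∈ Ω, UE l Φ s₀ z := by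
  obtain ⟨A, hA⟩ : ∃ A : Set ℂ, ∀ z, z ∈ A ↔ UE l Φ s₀ z := ⟨{z | UE l Φ s₀ z}, fun _ => Iff.rfl⟩
  have hAo : IsOpen A := by
    rw [Metric.isOpen_iff]
    intro z hz
    obtain ⟨v, e, M, he, h⟩ := (hA z).1 hz
    refine ⟨e, he, fun w hw => (hA w).2 ⟨v, e - dist w z, M, by linarith [mem_ball.1 hw], h.mono fun i hi => hi.shrink (ball_subset_ball' ?_)⟩⟩
    have : dist ((s₀ : ℂ), w) ((s₀ : ℂ), z) = dist w z := by
      rw [Prod.dist_eq, dist_self, max_eq_right dist_nonneg]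
    rw [this]
    linarith
  have hcl : closure A ∩ Ω ⊆ A := by
    rintro z ⟨hz, hzΩ⟩
    obtain ⟨v, r, c, hr, hc, hcz⟩ := hΦ.cont z hzΩ
    obtain ⟨w, hwA, hwz⟩ := Metric.mem_closure_iff.1 hz (r / 2) (by linarith)
    refine (hA z).2 (step hΦ.lift (δ := r / 2) (by linarith) (z₁ := w) (R := r / 2) v hc ?_ ((hA w).1 hwA) (mem_ball.2 hwz))
    filter_upwards [hcz] with i hi s hs x hx
    refine hi s ⟨by linarith [hs.1], by linarith [hs.2]⟩ x ?_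
    rw [mem_ball]
    have := dist_triangle x w z
    have h5 := mem_ball.1 hx
    have h6 : dist w z < r / 2 := by rw [dist_comm]; exact hwz
    linarith
  intro z hz
  have h := hΩc.subset_of_closure_inter_subset hAo ⟨z₁, hz₁, (hA z₁).2 hE⟩ hcl
  exact (hA z).1 (h hz)

end Pool.Agent.G4.C
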