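import Pool.Agent.G4.C.PZ
import Pool.Agent.G4.C.SpreadU

/-!
# G4 C Bai: for every sheet there is a point of `T` near which the sheet extends to complex parameters, uniformly

`ue_open`: near a point of `T` off `D`, off `Nν`.  By `near_EAt` every slice `y ∈ T` near `y₀` extends at points `(s₁, z₁)` arbitrarily near `(0, 0)`, so at all points of a small ball, which contains points of a countable dense subset of
`ℝ × ℂ`.  Fix `v` with `‖nd v (φ y)‖ ≥ c` on `T ∩ ball y₀ r₀` (there `φ` is continuous), `f y j s z = nv v (φ (y + s ν + z a)) j`, `A p` = the set of the `y ∈ T`, `‖y - y₀‖ ≤ r₀ / 2`, with `‖cf (f y j) 0 (1 / (p + 1)) n z‖ ≤ p * (1 / 2) ^ n` for all `j`,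
`z ∈ closedBall 0 (1 / (p + 1))` and `n`: closed (`cf_param`).  The closed sets `{y ∈ T | y + s₁ ν + z₁ a ∈ A p}`, `(s₁, z₁)` in the countable dense set, `p : ℕ`, and `{y ∈ T | r ≤ ‖y - y₀‖}` cover `T` (`coef_of_ext`), a complete metric
space: by `dense_iUnion_interior_of_closed` there is `y ∈ ball y₀ r` in the interior (relative to `T`) of one of them, and `ext_of_coef` gives `EAtB` with uniform constants near `y₁ = y + s₁ ν + z₁ a`.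
-/

set_option autoImplicit false

open Topology Filter Metric

namespace Pool.Agent.G4.C

open Pool.Agent.H36.BP (EN fs wd)
open Pool.Agent.H14.PP (IsCone)
open Pool.Agent.H62.EF (MN pr)
open Pool.Agent.AD (Vd Chart Charts)
open Pool.Agent.TG (TMap Lat Str ms tl Gd)
open Pool.Agent.G3.A (Tb Hc NL)
open Pool.Agent.G3.C

variable {N k : ℕ} {X : Set (EN N)} {Λ : AddSubgroup (Vd (k + 1))} {u : EN N → Vd (k + 1)} {ν a b : Vd (k + 1)} {m : ℕ} {E : Submodule ℝ (Vd (k + 1))}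
  {D Bad Nν : Set (Vd (k + 1))} {SS : Set (Vd (k + 1) → MN N)} {φ : Vd (k + 1) → MN N}

private theorem nd_norm (v x : EN N) : ‖nd v (pr x)‖ * ‖x‖ ^ 2 = ‖(inner ℂ v x : ℂ)‖ ^ 2 := by
  have e : nd v (pr x) * ((‖x‖ ^ 2 : ℝ) : ℂ) = inner ℂ x v * inner ℂ v x := by
    rcases eq_or_ne x 0 with rfl | hx
    · simp
    have h1 : ((‖x‖ ^ 2 : ℝ) : ℂ) ≠ 0 := by
      have : ‖x‖ ≠ 0 := norm_ne_zero_iff.mpr hx
      exact_mod_cast pow_ne_zero 2 this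
    have hin : ∀ x y : EN N, (inner ℂ x y : ℂ) = ∑ j, (starRingEnd ℂ) (x j) * y j := by
      intro x y
      rw [PiLp.inner_apply]
      refine Finset.sum_congr rfl fun j _ => ?_
      rw [RCLike.inner_apply]
      ring
    have h2 : nd v (pr x) = inner ℂ x v * inner ℂ v x / ((‖x‖ ^ 2 : ℝ) : ℂ) := by
      unfold nd
      rw [hin x v, hin v x, Finset.sum_mul_sum, Finset.sum_comm, Finset.sum_div]
      refine Finset.sum_congr rfl fun i _ => ?_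
      rw [Finset.sum_div]
      refine Finset.sum_congr rfl fun j _ => ?_
      simp only [pr]
      ring
    rw [h2, div_mul_cancel₀ _ h1]
  have h3 := congrArg norm e
  rw [norm_mul, norm_mul, Complex.norm_real, Real.norm_of_nonneg (by positivity)] at h3
  rw [h3, ← norm_inner_symm, sq]

/-- the normalised vector is bounded -/
private theorem nv_bd {v x : EN N} {c : ℝ} (hc : 0 < c) (h : c ≤ ‖nd v (pr x)‖) (hx : x ≠ 0) : inner ℂ v x ≠ (0 : ℂ) ∧ ‖nv v (pr x)‖ ≤ (Real.sqrt c)⁻¹ := by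
  have h0 : inner ℂ v x ≠ (0 : ℂ) := (nd_pr_ne hx).1 fun h1 => by
    rw [h1, norm_zero] at h
    linarith
  have h1 := nd_norm v x
  have hsc : 0 < Real.sqrt c := Real.sqrt_pos.2 hc
  have h2 : Real.sqrt c * ‖x‖ ≤ ‖(inner ℂ v x : ℂ)‖ := by
    refine le_of_sq_le_sq ?_ (norm_nonneg _)
    rw [mul_pow, Real.sq_sqrt hc.le, ← h1]
    exact mul_le_mul_of_nonneg_right h (by positivity)
  refine ⟨h0, ?_⟩
  rw [nv_pr h0, norm_smul, norm_inv, ← div_eq_inv_mul, div_le_iff₀ (norm_pos_iff.2 h0), ← div_eq_inv_mul, le_div_iff₀ hsc, mul_comm]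
  exact h2

private theorem norm_le_sum (x : EN N) : ‖x‖ ≤ ∑ j, ‖x j‖ := by
  rw [EuclideanSpace.norm_eq, Real.sqrt_le_iff]
  exact ⟨Finset.sum_nonneg fun _ _ => norm_nonneg _, Finset.sum_sq_le_sq_sum_of_nonneg fun _ _ => norm_nonneg _⟩

/-- the coordinates of a family which extends, normalised -/
private theorem nrm {Φ : ℝ → ℂ → MN N} {s₀ : ℝ} {z₀ : ℂ} {ε : ℝ} (hε : 0 < ε) (hE : EAt Φ s₀ z₀ ε) {v : EN N} (hv : nd v (Φ s₀ z₀) ≠ 0) :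
    ∃ ε' C : ℝ, 0 < ε' ∧ ∀ j, ∃ g : ℂ × ℂ → ℂ, DifferentiableOn ℂ g (ball ((s₀ : ℂ), z₀) ε') ∧ (∀ p ∈ ball ((s₀ : ℂ), z₀) ε', ‖g p‖ ≤ C) ∧
      ∀ (s : ℝ) (z : ℂ), ((s : ℂ), z) ∈ ball ((s₀ : ℂ), z₀) ε' → g (s, z) = nv v (Φ s z) j := by
  obtain ⟨F, hF, hF0, hFΦ⟩ := hE
  have hm := mem_ball_self (x := ((s₀ : ℂ), z₀)) hε
  have h0 : inner ℂ v (F ((s₀ : ℂ), z₀)) ≠ (0 : ℂ) := (nd_pr_ne (hF0 _ hm)).1 (by rw [← hFΦ s₀ z₀ hm]; exact hv)
  have hFc : ContinuousAt F ((s₀ : ℂ), z₀) := (hF.differentiableAt (isOpen_ball.mem_nhds hm)).continuousAt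
  have hin : ContinuousAt (fun p => ‖(inner ℂ v (F p) : ℂ)‖) ((s₀ : ℂ), z₀) := ((innerSL ℂ v).continuous.continuousAt.comp hFc).norm
  have hlt : ‖(inner ℂ v (F ((s₀ : ℂ), z₀)) : ℂ)‖ / 2 < ‖(inner ℂ v (F ((s₀ : ℂ), z₀)) : ℂ)‖ := by
    have := norm_pos_iff.2 h0
    linarith
  have hev := (hin.eventually (lt_mem_nhds hlt)).and ((hFc.norm.eventually (gt_mem_nhds (lt_add_one ‖F ((s₀ : ℂ), z₀)‖))).and (ball_mem_nhds ((s₀ : ℂ), z₀) hε))
  obtain ⟨ε', hε', hb⟩ := Metric.eventually_nhds_iff_ball.mp hev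
  have hκ : 0 < ‖(inner ℂ v (F ((s₀ : ℂ), z₀)) : ℂ)‖ / 2 := by
    have := norm_pos_iff.2 h0
    linarith
  have hne : ∀ p ∈ ball ((s₀ : ℂ), z₀) ε', (inner ℂ v (F p) : ℂ) ≠ 0 := fun p hp h => by
    have := (hb p hp).1
    rw [h, norm_zero] at this
    linarith
  have hsub : ball ((s₀ : ℂ), z₀) ε' ⊆ ball ((s₀ : ℂ), z₀) ε := fun p hp => (hb p hp).2.2
  refine ⟨ε', (‖(inner ℂ v (F ((s₀ : ℂ), z₀)) : ℂ)‖ / 2)⁻¹ * (‖F ((s₀ : ℂ), z₀)‖ + 1), hε', fun j => ⟨fun p => (inner ℂ v (F p) : ℂ)⁻¹ * F p j, ?_, ?_, ?_⟩⟩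
  · have hF' := hF.mono hsub
    have hd1 : DifferentiableOn ℂ (fun w => (inner ℂ v (F w) : ℂ)) (ball ((s₀ : ℂ), z₀) ε') := (innerSL ℂ v).differentiable.comp_differentiableOn hF'
    have hd2 : DifferentiableOn ℂ (fun w => F w j) (ball ((s₀ : ℂ), z₀) ε') :=
      (EuclideanSpace.proj (𝕜 := ℂ) j : EN N →L[ℂ] ℂ).differentiable.comp_differentiableOn hF'
    exact (hd1.inv hne).mul hd2
  · intro p hp
    rw [norm_mul, norm_inv]
    have h1 : ‖F p j‖ ≤ ‖F ((s₀ : ℂ), z₀)‖ + 1 := (PiLp.norm_apply_le _ j).trans (hb p hp).2.1.le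
    have h2 : ‖(inner ℂ v (F p) : ℂ)‖⁻¹ ≤ (‖(inner ℂ v (F ((s₀ : ℂ), z₀)) : ℂ)‖ / 2)⁻¹ := inv_anti₀ hκ (hb p hp).1.le
    gcongr
  · intro s z hp
    rw [hFΦ s z (hsub hp), nv_pr (hne _ hp)]
    simp [PiLp.smul_apply, smul_eq_mul]

/-- a family whose normalised coordinates extend -/
private theorem asm {Φ : ℝ → ℂ → MN N} {s₀ δ : ℝ} {z : ℂ} {R K c e₁ : ℝ} (v : EN N) (hl : ∀ s : ℝ, ∃ F : ℂ → EN N, Differentiable ℂ F ∧ (∀ z, F z ≠ 0) ∧ ∀ z, Φ s z = pr (F z))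
    (hc0 : 0 < c) (hc : ∀ s ∈ Set.Icc (s₀ - δ) (s₀ + δ), ∀ w ∈ ball z R, c ≤ ‖nd v (Φ s w)‖) (he₁0 : 0 < e₁) (he₁b : e₁ ≤ δ) (he₁R : e₁ ≤ R)
    (key : ∀ j, ∃ G : ℂ × ℂ → ℂ, DifferentiableOn ℂ G (ball (s₀ : ℂ) e₁ ×ˢ ball z e₁) ∧ (∀ p ∈ ball (s₀ : ℂ) e₁ ×ˢ ball z e₁, ‖G p‖ ≤ K) ∧
      ∀ s : ℝ, (s : ℂ) ∈ ball (s₀ : ℂ) e₁ → ∀ w ∈ ball z e₁, G (s, w) = nv v (Φ s w) j) : EAtB v Φ s₀ z e₁ (∑ _j : Fin (N + 1), K) := by
  choose G hG1 hGb hG2 using key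
  have hsub : ∀ p ∈ ball ((s₀ : ℂ), z) e₁, p.1 ∈ ball (s₀ : ℂ) e₁ ∧ p.2 ∈ ball z e₁ := by
    intro p hp
    rw [← ball_prod_same] at hp
    exact hp
  obtain ⟨H, hH⟩ : ∃ H : ℂ × ℂ → EN N, ∀ p j, H p j = G j p := ⟨fun p => WithLp.toLp 2 fun j => G j p, fun p j => rfl⟩
  have hHd : DifferentiableOn ℂ H (ball ((s₀ : ℂ), z) e₁) := by
    rw [differentiableOn_piLp]
    intro j
    simp only [hH]
    exact (hG1 j).mono fun p hp => hsub p hp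
  have hHr : ∀ (s : ℝ) (w : ℂ), ((s : ℂ), w) ∈ ball ((s₀ : ℂ), z) e₁ → H (s, w) = nv v (Φ s w) := by
    intro s w hp
    obtain ⟨h1, h2⟩ := hsub _ hp
    ext j
    rw [hH]
    exact hG2 j s h1 w h2
  have hreal : ∀ (s : ℝ) (w : ℂ), ((s : ℂ), w) ∈ ball ((s₀ : ℂ), z) e₁ → Φ s w = pr (H (s, w)) ∧ inner ℂ v (H (s, w)) = (1 : ℂ) := by
    intro s w hp
    obtain ⟨h1, h2⟩ := hsub _ hp
    have hs : s ∈ Set.Icc (s₀ - δ) (s₀ + δ) := by
      simp only at h1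
      rw [mem_ball, dist_eq_norm, ← Complex.ofReal_sub, Complex.norm_real, Real.norm_eq_abs] at h1
      have := abs_lt.1 (h1.trans_le he₁b)
      exact ⟨by linarith [this.1], by linarith [this.2]⟩
    obtain ⟨F, hF, hF0, hFΦ⟩ := hl s
    have h3 := hc s hs w (ball_subset_ball he₁R h2)
    rw [hFΦ] at h3
    obtain ⟨h4, -⟩ := nv_bd hc0 h3 (hF0 w)
    rw [hHr s w hp, hFΦ]
    refine ⟨(pr_nv h4).symm, ?_⟩
    rw [nv_pr h4, inner_smul_right, inv_mul_cancel₀ h4]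
  refine ⟨H, hHd, fun p hp => ⟨?_, ?_⟩, fun s w hp => (hreal s w hp).1⟩
  · -- the identity theorem
    obtain ⟨h1, h2⟩ := hsub p hp
    have hd : DifferentiableOn ℂ (fun ζ => (inner ℂ v (H (ζ, p.2)) : ℂ)) (ball (s₀ : ℂ) e₁) := by
      refine (innerSL ℂ v).differentiable.comp_differentiableOn ?_
      intro ζ hζ
      have h3 : DifferentiableAt ℂ H (ζ, p.2) := hHd.differentiableAt (isOpen_ball.mem_nhds (by rw [← ball_prod_same]; exact ⟨hζ, h2⟩))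
      exact (h3.comp ζ (differentiableAt_id.prodMk (differentiableAt_const p.2))).differentiableWithinAt
    have hfr : ∃ᶠ ζ in 𝓝[≠] (s₀ : ℂ), (inner ℂ v (H (ζ, p.2)) : ℂ) = 1 := by
      have h4 : ∀ᶠ t : ℝ in 𝓝[≠] s₀, (inner ℂ v (H ((t : ℂ), p.2)) : ℂ) = 1 := by
        filter_upwards [mem_nhdsWithin_of_mem_nhds (ball_mem_nhds s₀ he₁0)] with t ht
        refine (hreal t p.2 ?_).2
        rw [← ball_prod_same]
        refine ⟨?_, h2⟩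
        rw [mem_ball, dist_eq_norm, ← Complex.ofReal_sub, Complex.norm_real, ← dist_eq_norm]
        exact ht
      have h5 : Tendsto (fun t : ℝ => (t : ℂ)) (𝓝[≠] s₀) (𝓝[≠] (s₀ : ℂ)) := by
        refine tendsto_nhdsWithin_iff.2 ⟨(Complex.continuous_ofReal.tendsto s₀).mono_left nhdsWithin_le_nhds, ?_⟩
        filter_upwards [self_mem_nhdsWithin] with t ht h6
        exact ht (Complex.ofReal_injective h6)
      exact h5.frequently h4.frequently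
    have h6 := (hd.analyticOnNhd isOpen_ball).eqOn_of_preconnected_of_frequently_eq analyticOnNhd_const (convex_ball _ _).isPreconnected (mem_ball_self he₁0) hfr
    exact h6 h1
  · obtain ⟨h1, h2⟩ := hsub p hp
    refine (norm_le_sum (H p)).trans (Finset.sum_le_sum fun j _ => ?_)
    rw [hH]
    exact hGb j p ⟨h1, h2⟩

private theorem tbc_closed (b : Vd (k + 1)) (E : Submodule ℝ (Vd (k + 1))) : IsClosed (Tb b E) := by
  have h : Continuous fun y : Vd (k + 1) => y - b := by fun_prop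
  exact (Submodule.closed_of_finiteDimensional E).preimage h

/-- the local data: a vector `v` and a radius -/
private theorem loc (S : TDat X Λ u a ν b E D Bad SS) (hφ : φ ∈ SS) {y₀ : Vd (k + 1)} (hy₀ : y₀ ∈ Tb b E) (hD : y₀ ∉ D) :
    ∃ (v : EN N) (c R : ℝ), 0 < c ∧ 0 < R ∧ ∀ y ∈ Tb b E, y ∈ ball y₀ R → y ∉ D ∧ c ≤ ‖nd v (φ y)‖ ∧ ContinuousWithinAt φ (Tb b E) y := by
  obtain ⟨χ, c, ρ, w, R, B⟩ := S.smo φ hφ y₀ hy₀ hD
  have hcy : ContinuousOn (fun y => cy c ρ (w 0 y) y) (Tb b E ∩ ball y₀ R) := by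
    refine continuousOn_pi.2 fun i => ?_
    refine Fin.cases ?_ (fun j => ?_) i
    · simpa [cy] using B.cont 0
    · have h1 : Continuous fun y : Vd (k + 1) => (ρ : ℂ)⁻¹ * (y j - c j) := by fun_prop
      simpa [cy] using h1.continuousOn
  have hφc : ∀ y ∈ Tb b E ∩ ball y₀ R, ContinuousWithinAt φ (Tb b E) y := by
    intro y hy
    have h1 : ContinuousWithinAt (fun y => pr (χ.σ (cy c ρ (w 0 y) y))) (Tb b E ∩ ball y₀ R) y := by
      have h2 : ContinuousAt χ.σ (cy c ρ (w 0 y) y) := (χ.σ_an _ (B.mem y hy)).continuousAt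
      have h3 : ContinuousAt (pr (N := N)) (χ.σ (cy c ρ (w 0 y) y)) :=
        Pool.Agent.H62.EF.continuousAt_pr (fun h0 => S.cone.zero_notMem (h0 ▸ (χ.σ_mem _ (B.mem y hy)).1))
      exact h3.comp_continuousWithinAt (f := fun y => χ.σ (cy c ρ (w 0 y) y)) (h2.comp_continuousWithinAt (f := fun y => cy c ρ (w 0 y) y) (hcy y hy))
    have h2 : ContinuousWithinAt φ (Tb b E ∩ ball y₀ R) y := h1.congr (fun y' hy' => B.eq y' hy') (B.eq y hy)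
    exact (continuousWithinAt_inter (isOpen_ball.mem_nhds hy.2)).1 h2
  obtain ⟨v, hv⟩ : ∃ v, v = χ.σ (cy c ρ (w 0 y₀) y₀) := ⟨_, rfl⟩
  have hy₀' : y₀ ∈ Tb b E ∩ ball y₀ R := ⟨hy₀, mem_ball_self B.pos⟩
  have hv0 : v ≠ 0 := by
    rw [hv]
    exact fun h0 => S.cone.zero_notMem (h0 ▸ (χ.σ_mem _ (B.mem y₀ hy₀')).1)
  have hnd : nd v (φ y₀) ≠ 0 := by
    rw [B.eq y₀ hy₀', ← hv, nd_pr_ne hv0]
    exact inner_self_ne_zero.2 hv0
  have hpos := norm_pos_iff.2 hnd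
  have h1 : ContinuousWithinAt (fun y => ‖nd v (φ y)‖) (Tb b E) y₀ := ((nd_cont v).continuousAt.comp_continuousWithinAt (hφc y₀ hy₀')).norm
  have h2 : ∀ᶠ y in 𝓝[Tb b E] y₀, ‖nd v (φ y₀)‖ / 2 < ‖nd v (φ y)‖ := h1.eventually (lt_mem_nhds (by linarith))
  have h3 : ∀ᶠ y in 𝓝 y₀, y ∉ D := S.D_closed.isOpen_compl.mem_nhds hD
  rw [eventually_nhdsWithin_iff] at h2
  obtain ⟨R', hR', hb⟩ := Metric.eventually_nhds_iff_ball.mp ((h2.and h3).and (ball_mem_nhds y₀ B.pos))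
  exact ⟨v, ‖nd v (φ y₀)‖ / 2, R', by linarith, hR', fun y hy hyR => ⟨(hb y hyR).1.2, ((hb y hyR).1.1 hy).le, hφc y ⟨hy, (hb y hyR).2⟩⟩⟩

/-- translation of the parameters -/
private theorem shift {y : Vd (k + 1)} {s₂ : ℝ} {z₂ : ℂ} {ε : ℝ} (h : EAt (sl φ a ν y) s₂ z₂ ε) : EAt (sl φ a ν (y + (s₂ : ℂ) • ν + z₂ • a)) 0 0 ε := by
  obtain ⟨F, hF, hF0, hFΦ⟩ := h
  have hm : ∀ p ∈ ball (((0 : ℝ) : ℂ), (0 : ℂ)) ε, ((s₂ : ℂ) + p.1, z₂ + p.2) ∈ ball ((s₂ : ℂ), z₂) ε := by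
    intro p hp
    rw [← ball_prod_same] at hp ⊢
    obtain ⟨h1, h2⟩ := hp
    rw [mem_ball, dist_eq_norm] at h1 h2
    refine ⟨?_, ?_⟩
    · rw [mem_ball, dist_eq_norm, add_sub_cancel_left]
      simpa using h1
    · rw [mem_ball, dist_eq_norm, add_sub_cancel_left]
      simpa using h2
  refine ⟨fun p => F ((s₂ : ℂ) + p.1, z₂ + p.2), ?_, fun p hp => hF0 _ (hm p hp), fun s z hp => ?_⟩
  · have : Differentiable ℂ fun p : ℂ × ℂ => ((s₂ : ℂ) + p.1, z₂ + p.2) := by fun_prop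
    exact hF.comp this.differentiableOn hm
  · rw [← sl_add y s₂ s z₂ z]
    have h1 := hm _ hp
    have h2 := hFΦ (s₂ + s) (z₂ + z) (by push_cast; exact h1)
    rw [h2]
    push_cast
    rfl

/-- every point of `T` near `y₀` is near points at which the slice extends -/
theorem ue_open (S : TDat X Λ u a ν b E D Bad SS) (hφ : φ ∈ SS) {y₀ : Vd (k + 1)} (hy₀ : y₀ ∈ Tb b E) (hD : y₀ ∉ D) {r : ℝ} (hr : 0 < r)
    (h : ∀ y ∈ Tb b E, ‖y - y₀‖ < r → ∀ δ : ℝ, 0 < δ → ∃ (s₁ : ℝ) (z₁ : ℂ) (ε : ℝ), |s₁| < δ ∧ ‖z₁‖ < δ ∧ 0 < ε ∧ EAt (sl φ a ν y) s₁ z₁ ε) :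
    ∃ y₁ ∈ Tb b E, y₁ ∉ D ∧ UE (𝓝[Tb b E] y₁) (fun y => sl φ a ν y) 0 0 := by
  obtain ⟨v, c, R, hc, hR, hloc⟩ := loc S hφ hy₀ hD
  have hTc : IsClosed (Tb b E) := tbc_closed b E
  obtain ⟨κ, hκ⟩ : ∃ κ, κ = 1 + ‖ν‖ + ‖a‖ := ⟨_, rfl⟩
  have hκ0 : 0 < κ := by rw [hκ]; positivity
  obtain ⟨r₂, hr₂⟩ : ∃ r₂, r₂ = R / 4 := ⟨_, rfl⟩
  have hr₂0 : 0 < r₂ := by rw [hr₂]; linarith
  obtain ⟨r₃, hr₃⟩ : ∃ r₃, r₃ = r₂ / κ := ⟨_, rfl⟩
  have hr₃0 : 0 < r₃ := by rw [hr₃]; positivity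
  have hmv : ∀ (s : ℝ) (z : ℂ), |s| < r₃ → ‖z‖ < r₃ → ‖(s : ℂ) • ν + z • a‖ < r₂ := by
    intro s z hs hz
    have h1 : ‖(s : ℂ) • ν + z • a‖ ≤ r₃ * ‖ν‖ + r₃ * ‖a‖ := by
      refine (norm_add_le _ _).trans (add_le_add ?_ ?_)
      · rw [norm_smul, Complex.norm_real, Real.norm_eq_abs]
        exact mul_le_mul_of_nonneg_right hs.le (norm_nonneg _)
      · rw [norm_smul]
        exact mul_le_mul_of_nonneg_right hz.le (norm_nonneg _)
    have h2 : r₂ = r₃ * κ := by rw [hr₃]; field_simp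
    rw [h2, hκ]
    nlinarith
  have hball : ∀ y : Vd (k + 1), ‖y - y₀‖ ≤ 2 * r₂ → ∀ (s : ℝ) (z : ℂ), |s| < r₃ → ‖z‖ < r₃ → y + (s : ℂ) • ν + z • a ∈ ball y₀ R := by
    intro y hy s z hs hz
    rw [mem_ball, dist_eq_norm, show y + (s : ℂ) • ν + z • a - y₀ = (y - y₀) + ((s : ℂ) • ν + z • a) by abel]
    have h1 := norm_add_le (y - y₀) ((s : ℂ) • ν + z • a)
    have h2 := hmv s z hs hz
    linarith
  obtain ⟨K, hK⟩ : ∃ K : Set (Vd (k + 1)), K = Tb b E ∩ {y | ‖y - y₀‖ ≤ 2 * r₂} := ⟨_, rfl⟩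
  have hKc : IsClosed K := by
    rw [hK]
    exact hTc.inter (isClosed_le (by fun_prop) continuous_const)
  have hKT : ∀ y ∈ K, y ∈ Tb b E := fun y hy => by rw [hK] at hy; exact hy.1
  have hKr : ∀ y ∈ K, ‖y - y₀‖ ≤ 2 * r₂ := fun y hy => by rw [hK] at hy; exact hy.2
  -- the bound below
  have hlow : ∀ y ∈ K, ∀ (s : ℝ) (z : ℂ), |s| < r₃ → ‖z‖ < r₃ → c ≤ ‖nd v (sl φ a ν y s z)‖ := fun y hy s z hs hz =>
    (hloc _ (S.tb (hKT y hy) s z) (hball y (hKr y hy) s z hs hz)).2.1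
  have hlift : ∀ y ∈ K, ∀ s : ℝ, ∃ F : ℂ → EN N, Differentiable ℂ F ∧ (∀ z, F z ≠ 0) ∧ ∀ z, sl φ a ν y s z = pr (F z) := by
    intro y hy s
    have h1 := S.tb (hKT y hy) s 0
    rw [zero_smul, add_zero] at h1
    obtain ⟨F, hF, hF2⟩ := S.line φ hφ _ h1
    exact ⟨F, hF.1, fun z h0 => S.cone.zero_notMem (h0 ▸ hF.2.1 z), hF2⟩
  -- continuity
  have hfc : ∀ j : Fin (N + 1), ∀ q ∈ K ×ˢ {q : ℝ × ℂ | |q.1| < r₃ ∧ ‖q.2‖ < r₃}, ContinuousWithinAt (fun q : Vd (k + 1) × ℝ × ℂ => nv v (sl φ a ν q.1 q.2.1 q.2.2) j)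
      (K ×ˢ {q : ℝ × ℂ | |q.1| < r₃ ∧ ‖q.2‖ < r₃}) q := by
    rintro j ⟨y, s, z⟩ ⟨hy, hs, hz⟩
    have hy : y ∈ K := hy
    have hs : |s| < r₃ := hs
    have hz : ‖z‖ < r₃ := hz
    have h2' : nd v (sl φ a ν y s z) ≠ 0 := fun h => by
      have h2 := hlow y hy s z hs hz
      rw [h, norm_zero] at h2
      linarith
    have h1 : Continuous fun q : Vd (k + 1) × ℝ × ℂ => q.1 + (q.2.1 : ℂ) • ν + q.2.2 • a := by fun_prop
    have h3 : ContinuousWithinAt (fun q : Vd (k + 1) × ℝ × ℂ => sl φ a ν q.1 q.2.1 q.2.2) (K ×ˢ {q : ℝ × ℂ | |q.1| < r₃ ∧ ‖q.2‖ < r₃}) (y, s, z) := by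
      refine ContinuousWithinAt.comp (g := φ) (f := fun q : Vd (k + 1) × ℝ × ℂ => q.1 + (q.2.1 : ℂ) • ν + q.2.2 • a) (t := Tb b E) ?_ h1.continuousWithinAt ?_
      · exact (hloc _ (S.tb (hKT y hy) s z) (hball y (hKr y hy) s z hs hz)).2.2
      · rintro ⟨y', s', z'⟩ ⟨hy', -⟩
        exact S.tb (hKT y' hy') s' z'
    have h4 : ContinuousAt (nv v) (sl φ a ν y s z) := nv_continuousAt h2'
    have h5 : ContinuousAt (fun x : MN N => nv v x j) (sl φ a ν y s z) := (PiLp.continuous_apply 2 _ j).continuousAt.comp h4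
    exact ContinuousAt.comp_continuousWithinAt (g := fun x : MN N => nv v x j) (f := fun q : Vd (k + 1) × ℝ × ℂ => sl φ a ν q.1 q.2.1 q.2.2) h5 h3
  obtain ⟨d, hd⟩ : ∃ d : ℕ → ℝ, ∀ p, d p = r₃ / (2 * (p + 1)) := ⟨fun p => r₃ / (2 * (p + 1)), fun _ => rfl⟩
  have hd0 : ∀ p, 0 < d p := fun p => by rw [hd]; positivity
  have hd2 : ∀ p, 2 * d p ≤ r₃ := fun p => by
    rw [hd, mul_div_assoc', div_le_iff₀ (by positivity)]
    have : (0 : ℝ) ≤ p := Nat.cast_nonneg p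
    nlinarith
  obtain ⟨A, hA⟩ : ∃ A : ℕ → Set (Vd (k + 1)), ∀ p y, y ∈ A p ↔ y ∈ K ∧ ∀ j : Fin (N + 1), ∀ z ∈ closedBall (0 : ℂ) (d p), ∀ n : ℕ,
      ‖cf (fun s z => nv v (sl φ a ν y s z) j) 0 (d p) n z‖ ≤ p * (1 / 2) ^ n := ⟨fun p => {y | _}, fun p y => Iff.rfl⟩
  have hAc : ∀ p, IsClosed (A p) := by
    intro p
    have e : A p = K ∩ ⋂ (j : Fin (N + 1)) (z : closedBall (0 : ℂ) (d p)) (n : ℕ), (K ∩ (fun y => ‖cf (fun s z => nv v (sl φ a ν y s z) j) 0 (d p) n z.1‖) ⁻¹' Set.Iic (p * (1 / 2) ^ n)) := by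
      ext y
      rw [hA]
      simp only [Set.mem_inter_iff, Set.mem_iInter, Set.mem_preimage, Set.mem_Iic, Subtype.forall]
      constructor
      · rintro ⟨h1, h2⟩
        exact ⟨h1, fun j z hz n => ⟨h1, h2 j z hz n⟩⟩
      · rintro ⟨h1, h2⟩
        exact ⟨h1, fun j z hz n => (h2 j z hz n).2⟩
    rw [e]
    refine hKc.inter (isClosed_iInter fun j => isClosed_iInter fun z => isClosed_iInter fun n => ?_)
    refine ContinuousOn.preimage_isClosed_of_isClosed ?_ hKc isClosed_Iic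
    refine (cf_param (f := fun y s z => nv v (sl φ a ν y s z) j) (hd0 p).le ?_ n).norm
    rintro ⟨y, s⟩ ⟨hy, hs⟩
    have hs' : |s| < r₃ := by
      have h1 : |s| ≤ d p := abs_le.2 ⟨by have := hs.1; simp only at this; linarith, by have := hs.2; simp only at this; linarith⟩
      have := hd2 p
      have := hd0 p
      linarith
    have hz' : ‖z.1‖ < r₃ := by
      have h1 : ‖z.1‖ ≤ d p := mem_closedBall_zero_iff.1 z.2
      have := hd2 p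
      have := hd0 p
      linarith
    have h1 := hfc j (y, s, z.1) ⟨hy, hs', hz'⟩
    have h2 : Continuous fun q : Vd (k + 1) × ℝ => ((q.1, q.2, z.1) : Vd (k + 1) × ℝ × ℂ) := by fun_prop
    refine ContinuousWithinAt.comp (g := fun q : Vd (k + 1) × ℝ × ℂ => nv v (sl φ a ν q.1 q.2.1 q.2.2) j) (f := fun q : Vd (k + 1) × ℝ => ((q.1, q.2, z.1) : Vd (k + 1) × ℝ × ℂ)) h1 h2.continuousWithinAt ?_
    rintro ⟨y', s'⟩ ⟨hy', hs''⟩
    refine ⟨hy', ?_, hz'⟩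
    have h1 : |s'| ≤ d p := abs_le.2 ⟨by have := hs''.1; simp only at this; linarith, by have := hs''.2; simp only at this; linarith⟩
    have := hd2 p
    have := hd0 p
    show |s'| < r₃
    linarith
  -- the cover
  obtain ⟨q, hq⟩ : ∃ q : ℕ → ℝ × ℂ, DenseRange q := ⟨TopologicalSpace.denseSeq _, TopologicalSpace.denseRange_denseSeq _⟩
  obtain ⟨r₄, hr₄⟩ : ∃ r₄, r₄ = min r r₂ := ⟨_, rfl⟩
  have hr₄0 : 0 < r₄ := by rw [hr₄]; exact lt_min hr hr₂0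
  have hr₄r : r₄ ≤ r := by rw [hr₄]; exact min_le_left _ _
  have hr₄r₂ : r₄ ≤ r₂ := by rw [hr₄]; exact min_le_right _ _
  obtain ⟨W, hW1, hW2⟩ : ∃ W : Option (ℕ × ℕ) → Set (Tb b E), W none = {y | r₄ ≤ ‖y.1 - y₀‖} ∧
      ∀ i p, W (some (i, p)) = {y | y.1 + ((q i).1 : ℂ) • ν + (q i).2 • a ∈ A p} :=
    ⟨fun o => Option.elim o {y | r₄ ≤ ‖y.1 - y₀‖} fun ip => {y | y.1 + ((q ip.1).1 : ℂ) • ν + (q ip.1).2 • a ∈ A ip.2}, rfl, fun _ _ => rfl⟩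
  have hWc : ∀ o, IsClosed (W o) := by
    rintro (_ | ⟨i, p⟩)
    · rw [hW1]
      exact isClosed_le continuous_const (by fun_prop)
    · rw [hW2]
      have h1 : Continuous fun y : Tb b E => y.1 + ((q i).1 : ℂ) • ν + (q i).2 • a := by fun_prop
      exact (hAc p).preimage h1
  have hWU : ⋃ o, W o = Set.univ := by
    rw [Set.eq_univ_iff_forall]
    rintro ⟨y, hy⟩
    rw [Set.mem_iUnion]
    rcases le_or_gt r₄ ‖y - y₀‖ with h1 | h1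
    · exact ⟨none, by rw [hW1]; exact h1⟩
    obtain ⟨s₁, z₁, ε, hs₁, hz₁, hε, hE⟩ := h y hy (h1.trans_le hr₄r) (r₃ / 2) (by linarith)
    obtain ⟨i, hi⟩ := hq.exists_dist_lt (s₁, z₁) (lt_min hε (half_pos hr₃0))
    obtain ⟨s₂, z₂, hq2⟩ : ∃ s₂ z₂, q i = (s₂, z₂) := ⟨_, _, rfl⟩
    rw [hq2, Prod.dist_eq] at hi
    simp only at hi
    have hi1 : dist s₁ s₂ < min ε (r₃ / 2) := (le_max_left _ _).trans_lt hi
    have hi2 : dist z₁ z₂ < min ε (r₃ / 2) := (le_max_right _ _).trans_lt hi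
    have hds : dist ((s₂ : ℂ), z₂) ((s₁ : ℂ), z₁) < ε := by
      rw [Prod.dist_eq]
      refine max_lt ?_ ?_
      · simp only
        rw [dist_comm, dist_eq_norm, ← Complex.ofReal_sub, Complex.norm_real, ← dist_eq_norm]
        exact hi1.trans_le (min_le_left _ _)
      · simp only
        rw [dist_comm]
        exact hi2.trans_le (min_le_left _ _)
    have hs₂ : |s₂| < r₃ := by
      have h2 := hi1.trans_le (min_le_right _ _)
      rw [dist_comm, Real.dist_eq] at h2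
      have h3 := abs_add_le (s₂ - s₁) s₁
      rw [sub_add_cancel] at h3
      linarith
    have hz₂ : ‖z₂‖ < r₃ := by
      have h2 := hi2.trans_le (min_le_right _ _)
      rw [dist_comm, dist_eq_norm] at h2
      have h3 := norm_add_le (z₂ - z₁) z₁
      rw [sub_add_cancel] at h3
      linarith
    have hE2 := shift (hE.move (s₁ := s₂) (z₁ := z₂))
    obtain ⟨y₂, hy₂⟩ : ∃ y₂, y₂ = y + (s₂ : ℂ) • ν + z₂ • a := ⟨_, rfl⟩
    rw [← hy₂] at hE2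
    have hy₂K : y₂ ∈ K := by
      rw [hK, hy₂]
      refine ⟨S.tb hy s₂ z₂, ?_⟩
      show ‖y + (s₂ : ℂ) • ν + z₂ • a - y₀‖ ≤ 2 * r₂
      rw [show y + (s₂ : ℂ) • ν + z₂ • a - y₀ = (y - y₀) + ((s₂ : ℂ) • ν + z₂ • a) by abel]
      have h2 := norm_add_le (y - y₀) ((s₂ : ℂ) • ν + z₂ • a)
      have h3 := hmv s₂ z₂ hs₂ hz₂
      linarith
    have hnd : nd v (sl φ a ν y₂ 0 0) ≠ 0 := fun h0 => by
      have h2 := hlow y₂ hy₂K 0 0 (by simpa using hr₃0) (by simpa using hr₃0)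
      rw [h0, norm_zero] at h2
      linarith
    obtain ⟨ε', C, hε', hg⟩ := nrm (by linarith) hE2 hnd
    obtain ⟨p, hp⟩ := exists_nat_ge (max C (r₃ / ε'))
    have hpC : C ≤ p := (le_max_left _ _).trans hp
    have hpd : 2 * d p ≤ ε' := by
      have h2 : r₃ / ε' ≤ p := (le_max_right _ _).trans hp
      rw [div_le_iff₀ hε'] at h2
      rw [hd, mul_div_assoc', div_le_iff₀ (by positivity)]
      nlinarith
    have hsub : ball (((0 : ℝ)) : ℂ) (2 * d p) ×ˢ ball (0 : ℂ) (2 * d p) ⊆ ball ((((0 : ℝ)) : ℂ), (0 : ℂ)) ε' := by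
      rw [← ball_prod_same]
      exact Set.prod_mono (ball_subset_ball hpd) (ball_subset_ball hpd)
    refine ⟨some (i, p), ?_⟩
    rw [hW2, hq2]
    show y + (s₂ : ℂ) • ν + z₂ • a ∈ A p
    rw [← hy₂, hA]
    refine ⟨hy₂K, fun j z hz n => ?_⟩
    obtain ⟨g, hg1, hg2, hg3⟩ := hg j
    have h5 := coef_of_ext (f := fun s z => nv v (sl φ a ν y₂ s z) j) (s₀ := 0) (z₁ := 0) (hd0 p) (hg1.mono hsub) (hd0 p) (fun x hx => hg2 x (hsub hx)) (fun s hs z hz => hg3 s z (hsub ⟨by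
      rw [mem_ball, dist_eq_norm, ← Complex.ofReal_sub, Complex.norm_real, Real.norm_eq_abs]
      have h6 : |s - 0| ≤ d p := abs_le.2 ⟨by linarith [hs.1], by linarith [hs.2]⟩
      have := hd0 p
      linarith, hz⟩)) z hz n
    refine h5.trans ?_
    gcongr
  have : CompleteSpace (Tb b E) := hTc.completeSpace_coe
  have hdense := dense_iUnion_interior_of_closed hWc hWU
  obtain ⟨⟨y, hy⟩, hyb, hyU⟩ := hdense.inter_open_nonempty {x : Tb b E | ‖x.1 - y₀‖ < r₄} (isOpen_lt (by fun_prop) continuous_const) ⟨⟨y₀, hy₀⟩, by simpa using hr₄0⟩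
  have hyb : ‖y - y₀‖ < r₄ := hyb
  rw [Set.mem_iUnion] at hyU
  obtain ⟨o, ho⟩ := hyU
  rcases o with _ | ⟨i, p⟩
  · have h1 := interior_subset ho
    rw [hW1] at h1
    have h2 : r₄ ≤ ‖y - y₀‖ := h1
    linarith
  rw [hW2, mem_interior_iff_mem_nhds, mem_nhds_subtype_iff_nhdsWithin] at ho
  obtain ⟨x₀, hx₀⟩ : ∃ x₀, x₀ = ((q i).1 : ℂ) • ν + (q i).2 • a := ⟨_, rfl⟩
  have hev : ∀ᶠ y' in 𝓝[Tb b E] y, y' + x₀ ∈ A p := by
    filter_upwards [ho] with y' hy'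
    obtain ⟨x, hx, rfl⟩ := hy'
    rw [hx₀, ← add_assoc]
    exact hx
  have hT1 : y + x₀ ∈ Tb b E := by
    rw [hx₀, ← add_assoc]
    exact S.tb hy _ _
  have hT2 : ∀ y' ∈ Tb b E, y' - x₀ ∈ Tb b E := by
    intro y' hy'
    have h1 := S.tb hy' (-(q i).1) (-(q i).2)
    rw [hx₀]
    convert h1 using 1
    push_cast
    rw [neg_smul, neg_smul]
    abel
  have hev2 : ∀ᶠ y' in 𝓝[Tb b E] (y + x₀), y' ∈ A p := by
    have h1 : Tendsto (fun y' : Vd (k + 1) => y' - x₀) (𝓝[Tb b E] (y + x₀)) (𝓝[Tb b E] y) := by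
      refine tendsto_nhdsWithin_iff.2 ⟨?_, ?_⟩
      · have h2 : Continuous fun y' : Vd (k + 1) => y' - x₀ := by fun_prop
        have h3 := h2.tendsto (y + x₀)
        rw [add_sub_cancel_right] at h3
        exact h3.mono_left nhdsWithin_le_nhds
      · filter_upwards [self_mem_nhdsWithin] with y' hy'
        exact hT2 y' hy'
    filter_upwards [h1.eventually hev] with y' hy'
    rwa [sub_add_cancel] at hy'
  have hy₁A : y + x₀ ∈ A p := hev2.self_of_nhdsWithin hT1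
  have hy₁K : y + x₀ ∈ K := ((hA _ _).1 hy₁A).1
  refine ⟨y + x₀, hT1, ?_, ?_⟩
  · have h1 := hball (y + x₀) (hKr _ hy₁K) 0 0 (by simpa using hr₃0) (by simpa using hr₃0)
    simp only [Complex.ofReal_zero, zero_smul, add_zero] at h1
    exact (hloc _ hT1 h1).1
  -- the extension
  obtain ⟨ε, hε, hext⟩ := ext_of_coef (δ := d p) (r₁ := d p) (R' := 3 / 2 * d p) (R := 2 * d p) (hd0 p) (hd0 p) (by have := hd0 p; linarith) (by have := hd0 p; linarith)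
  obtain ⟨K₀, hK₀⟩ := hext p (Real.sqrt c)⁻¹
  obtain ⟨e₁, he₁⟩ : ∃ e₁, e₁ = min ε (d p) := ⟨_, rfl⟩
  have he₁0 : 0 < e₁ := by rw [he₁]; exact lt_min hε (hd0 p)
  have he₁a : e₁ ≤ ε := by rw [he₁]; exact min_le_left _ _
  have he₁b : e₁ ≤ d p := by rw [he₁]; exact min_le_right _ _
  refine ⟨v, e₁, ∑ _j : Fin (N + 1), K₀, he₁0, ?_⟩
  filter_upwards [hev2] with y' hy'
  obtain ⟨hy'K, hy'A⟩ := (hA _ _).1 hy'
  have hss : ∀ s ∈ Set.Icc ((0 : ℝ) - d p) (0 + d p), |s| < r₃ := by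
    intro s hs
    have h1 : |s| ≤ d p := abs_le.2 ⟨by linarith [hs.1], by linarith [hs.2]⟩
    have := hd2 p
    have := hd0 p
    linarith
  have hzz : ∀ z ∈ ball (0 : ℂ) (2 * d p), ‖z‖ < r₃ := by
    intro z hz
    rw [mem_ball, dist_zero_right] at hz
    exact hz.trans_le (hd2 p)
  have hvl : ∀ s ∈ Set.Icc ((0 : ℝ) - d p) (0 + d p), ∃ F : ℂ → EN N, Differentiable ℂ F ∧ (∀ z, sl φ a ν y' s z = pr (F z)) ∧ ∀ w ∈ ball (0 : ℂ) (2 * d p),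
      inner ℂ v (F w) ≠ (0 : ℂ) ∧ nv v (sl φ a ν y' s w) = (inner ℂ v (F w) : ℂ)⁻¹ • F w ∧ ‖nv v (sl φ a ν y' s w)‖ ≤ (Real.sqrt c)⁻¹ := by
    intro s hs
    obtain ⟨F, hF, hF0, hFΦ⟩ := hlift y' hy'K s
    refine ⟨F, hF, hFΦ, fun w hw => ?_⟩
    have h1 := hlow y' hy'K s w (hss s hs) (hzz w hw)
    rw [hFΦ] at h1 ⊢
    obtain ⟨h2, h3⟩ := nv_bd hc h1 (hF0 w)
    exact ⟨h2, nv_pr h2, h3⟩
  refine asm (δ := d p) (R := 2 * d p) (K := K₀) v (hlift y' hy'K) hc (fun s hs w hw => hlow y' hy'K s w (hss s hs) (hzz w hw)) he₁0 he₁b (by have := hd0 p; linarith) fun j => ?_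
  obtain ⟨G, hG1, hG2, hG3⟩ := hK₀ (fun s z => nv v (sl φ a ν y' s z) j) 0 0 (by
      rintro ⟨s, z⟩ ⟨hs, hz⟩
      have h1 := hfc j (y', s, z) ⟨hy'K, hss s hs, hzz z hz⟩
      have h2 : Continuous fun q : ℝ × ℂ => ((y', q.1, q.2) : Vd (k + 1) × ℝ × ℂ) := by fun_prop
      refine ContinuousWithinAt.comp (g := fun q : Vd (k + 1) × ℝ × ℂ => nv v (sl φ a ν q.1 q.2.1 q.2.2) j) (f := fun q : ℝ × ℂ => ((y', q.1, q.2) : Vd (k + 1) × ℝ × ℂ)) h1 h2.continuousWithinAt ?_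
      rintro ⟨s', z'⟩ ⟨hs', hz'⟩
      exact ⟨hy'K, hss s' hs', hzz z' hz'⟩)
    (by
      intro s hs
      obtain ⟨F, hF, hFΦ, hv⟩ := hvl s hs
      have e : Set.EqOn (fun w => nv v (sl φ a ν y' s w) j) (fun w => (inner ℂ v (F w) : ℂ)⁻¹ * F w j) (ball 0 (2 * d p)) := by
        intro w hw
        simp only
        rw [(hv w hw).2.1]
        simp [PiLp.smul_apply, smul_eq_mul]
      refine DifferentiableOn.congr ?_ e
      have hd1 : Differentiable ℂ fun w => (inner ℂ v (F w) : ℂ) := (innerSL ℂ v).differentiable.comp hF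
      have hd2 : Differentiable ℂ fun w => F w j := (EuclideanSpace.proj (𝕜 := ℂ) j : EN N →L[ℂ] ℂ).differentiable.comp hF
      exact (hd1.differentiableOn.inv fun w hw => (hv w hw).1).mul hd2.differentiableOn)
    (by
      intro s hs w hw
      obtain ⟨F, hF, hFΦ, hv⟩ := hvl s hs
      exact (PiLp.norm_apply_le _ j).trans (hv w hw).2.2)
    (fun z hz n => hy'A j z hz n)
  have hb : ball (0 : ℂ) e₁ ⊆ ball 0 (3 / 2 * d p) := ball_subset_ball (by have := hd0 p; linarith)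
  exact ⟨G, hG1.mono (Set.prod_mono (ball_subset_ball he₁a) hb), fun x hx => hG2 x ⟨ball_subset_ball he₁a hx.1, hb hx.2⟩,
    fun s hs w hw => hG3 s (ball_subset_ball he₁a hs) w (hb hw)⟩

end Pool.Agent.G4.C
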