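import Pool.Agent.G3.C.Cheb

/-!
# G4 C ChebU: extension in a real parameter, uniform version

`coef_of_ext`: if `f` extends to complex `s` then the Fourier coefficients `cf n` of `θ ↦ f (s₀ + δ cos θ) z` are at most `C 2^(-n)`.  `ext_of_coef`: conversely, if this holds for `z` in a small disc then `f` extends
over a large disc, with a radius in `s` which depends only on the radii.  `cf_param`: the coefficients are continuous in a parameter.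
-/

set_option autoImplicit false

open Topology Filter Metric Set MeasureTheory

namespace Pool.Agent.G4.C

open Pool.Agent.G3.C (cf)

private theorem cs_mem {s₀ δ : ℝ} (hδ : 0 ≤ δ) (θ : ℝ) : s₀ + δ * Real.cos θ ∈ Icc (s₀ - δ) (s₀ + δ) := by
  have h1 := Real.neg_one_le_cos θ
  have h2 := Real.cos_le_one θ
  constructor <;> nlinarith

private theorem cf_neg (f : ℝ → ℂ → ℂ) (s₀ δ : ℝ) (n : ℤ) (z : ℂ) : cf f s₀ δ (-n) z = cf f s₀ δ n z := by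
  unfold cf
  congr 1
  have h := intervalIntegral.integral_comp_sub_left (a := 0) (b := 2 * Real.pi)
    (fun θ : ℝ => Complex.exp (-((n : ℂ) * θ * Complex.I)) * f (s₀ + δ * Real.cos θ) z) (2 * Real.pi)
  rw [sub_self, sub_zero] at h
  rw [← h]
  refine intervalIntegral.integral_congr fun θ _ => ?_
  rw [Real.cos_two_pi_sub]
  congr 1
  rw [show -((n : ℂ) * ((2 * Real.pi - θ : ℝ) : ℂ) * Complex.I) = -((((-n : ℤ)) : ℂ) * θ * Complex.I) + ((-n : ℤ) : ℂ) * (2 * Real.pi * Complex.I) by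
    push_cast; ring, Complex.exp_add, Complex.exp_int_mul_two_pi_mul_I, mul_one]

private theorem cf_cont {f : ℝ → ℂ → ℂ} {s₀ δ : ℝ} (hδ : 0 ≤ δ) {U : Set ℂ}
    (hc : ContinuousOn (fun p : ℝ × ℂ => f p.1 p.2) (Icc (s₀ - δ) (s₀ + δ) ×ˢ U)) {z : ℂ} (hz : z ∈ U) :
    Continuous fun θ : ℝ => f (s₀ + δ * Real.cos θ) z := by
  have h1 : Continuous fun θ : ℝ => ((s₀ + δ * Real.cos θ, z) : ℝ × ℂ) := by fun_prop
  exact hc.comp_continuous h1 fun θ => ⟨cs_mem hδ θ, hz⟩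

private theorem cf_le {f : ℝ → ℂ → ℂ} {s₀ δ : ℝ} (hδ : 0 ≤ δ) {z : ℂ} {M : ℝ} (hM : ∀ s ∈ Icc (s₀ - δ) (s₀ + δ), ‖f s z‖ ≤ M) (n : ℤ) :
    ‖cf f s₀ δ n z‖ ≤ M := by
  unfold cf
  have hpi := Real.pi_pos
  rw [norm_smul, Real.norm_of_nonneg (by positivity)]
  have h1 : ‖∫ θ in (0 : ℝ)..2 * Real.pi, Complex.exp (-(n * θ * Complex.I)) * f (s₀ + δ * Real.cos θ) z‖ ≤ M * |2 * Real.pi - 0| := by
    refine intervalIntegral.norm_integral_le_of_norm_le_const fun θ _ => ?_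
    rw [norm_mul]
    have h2 : ‖Complex.exp (-((n : ℂ) * θ * Complex.I))‖ = 1 := by
      rw [show -((n : ℂ) * θ * Complex.I) = ((-(n * θ) : ℝ) : ℂ) * Complex.I by push_cast; ring, Complex.norm_exp_ofReal_mul_I]
    rw [h2, one_mul]
    exact hM _ (cs_mem hδ θ)
  rw [sub_zero, abs_of_pos (by positivity)] at h1
  calc 1 / (2 * Real.pi) * ‖∫ θ in (0 : ℝ)..2 * Real.pi, Complex.exp (-(n * θ * Complex.I)) * f (s₀ + δ * Real.cos θ) z‖
      ≤ 1 / (2 * Real.pi) * (M * (2 * Real.pi)) := by gcongr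
    _ = M := by field_simp

private theorem cf_hol {f : ℝ → ℂ → ℂ} {s₀ δ : ℝ} (hδ : 0 ≤ δ) {U : Set ℂ} (hU : IsOpen U)
    (hc : ContinuousOn (fun p : ℝ × ℂ => f p.1 p.2) (Icc (s₀ - δ) (s₀ + δ) ×ˢ U))
    (hh : ∀ s ∈ Icc (s₀ - δ) (s₀ + δ), DifferentiableOn ℂ (f s) U) (n : ℤ) : DifferentiableOn ℂ (cf f s₀ δ n) U := by
  have hpi := Real.pi_pos
  suffices hm : DifferentiableOn ℂ (fun z => ∫ θ in (0 : ℝ)..2 * Real.pi, Complex.exp (-(n * θ * Complex.I)) * f (s₀ + δ * Real.cos θ) z) U from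
    hm.const_smul (1 / (2 * Real.pi) : ℝ)
  have e : (fun z => ∫ θ in (0 : ℝ)..2 * Real.pi, Complex.exp (-(n * θ * Complex.I)) * f (s₀ + δ * Real.cos θ) z) =
      fun z => ∫ θ in Ioc (0 : ℝ) (2 * Real.pi), Complex.exp (-(n * θ * Complex.I)) * f (s₀ + δ * Real.cos θ) z := by
    funext z
    rw [intervalIntegral.integral_of_le (by positivity)]
  rw [e]
  have hcz : ∀ z ∈ U, Continuous fun θ : ℝ => Complex.exp (-((n : ℂ) * θ * Complex.I)) * f (s₀ + δ * Real.cos θ) z := fun z hz =>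
    Continuous.mul (by fun_prop) (cf_cont hδ hc hz)
  refine Pool.Agent.H97.SE.par_hol hU measurableSet_Ioc (F := fun z θ => Complex.exp (-((n : ℂ) * θ * Complex.I)) * f (s₀ + δ * Real.cos θ) z)
    (fun θ _ => (hh _ (cs_mem hδ θ)).const_mul _) (fun z hz => (hcz z hz).aestronglyMeasurable) fun z₀ hz₀ => ?_
  obtain ⟨r, hr, hrU⟩ := Metric.nhds_basis_closedBall.mem_iff.1 (hU.mem_nhds hz₀)
  have hK : IsCompact (Icc (s₀ - δ) (s₀ + δ) ×ˢ closedBall z₀ r) := isCompact_Icc.prod (isCompact_closedBall z₀ r)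
  obtain ⟨C, hC⟩ := hK.exists_bound_of_continuousOn (hc.mono (prod_mono le_rfl hrU))
  refine ⟨r, hr, fun _ => C, integrableOn_const measure_Ioc_lt_top.ne , fun z _ hz θ _ => ?_⟩
  rw [norm_mul]
  have h2 : ‖Complex.exp (-((n : ℂ) * θ * Complex.I))‖ = 1 := by
    rw [show -((n : ℂ) * θ * Complex.I) = ((-(n * θ) : ℝ) : ℂ) * Complex.I by push_cast; ring, Complex.norm_exp_ofReal_mul_I]
  rw [h2, one_mul]
  exact hC (s₀ + δ * Real.cos θ, z) ⟨cs_mem hδ θ, by rw [mem_closedBall, dist_eq_norm]; exact hz.le⟩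

/-- the bound of the coefficients where `f` extends -/
private theorem cf_geo {f : ℝ → ℂ → ℂ} {s₀ δ : ℝ} (hδ : 0 < δ) {z : ℂ} {g : ℂ → ℂ} {C : ℝ}
    (hg : DifferentiableOn ℂ g (ball (s₀ : ℂ) (2 * δ))) (hgC : ∀ ζ ∈ closedBall (s₀ : ℂ) (3 / 2 * δ), ‖g ζ‖ ≤ C)
    (hgf : ∀ s ∈ Icc (s₀ - δ) (s₀ + δ), g s = f s z) (n : ℕ) : ‖cf f s₀ δ n z‖ ≤ C * (1 / 2) ^ n := by
  have hpi := Real.pi_pos
  -- the Joukowski map
  obtain ⟨J, hJ⟩ : ∃ J : ℂ → ℂ, ∀ w, J w = s₀ + δ * ((w + w⁻¹) / 2) := ⟨_, fun w => rfl⟩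
  have hJn : ∀ w : ℂ, 1 ≤ ‖w‖ → ‖w‖ ≤ 2 → J w ∈ closedBall (s₀ : ℂ) (3 / 2 * δ) := by
    intro w h1 h2
    rw [mem_closedBall, dist_eq_norm, hJ, add_sub_cancel_left, norm_mul, Complex.norm_real, Real.norm_of_nonneg hδ.le, norm_div]
    have h3 : ‖w + w⁻¹‖ ≤ 2 + 1 := by
      refine (norm_add_le _ _).trans (add_le_add h2 ?_)
      rw [norm_inv]
      exact inv_le_one_of_one_le₀ h1
    have h4 : ‖(2 : ℂ)‖ = 2 := by simp
    rw [h4]
    nlinarith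
  have hsub : closedBall (s₀ : ℂ) (3 / 2 * δ) ⊆ ball (s₀ : ℂ) (2 * δ) := closedBall_subset_ball (by linarith)
  have hJd : ∀ w : ℂ, w ≠ 0 → DifferentiableAt ℂ J w := by
    intro w hw
    have : J = fun w => (s₀ : ℂ) + δ * ((w + w⁻¹) / 2) := funext hJ
    rw [this]
    fun_prop (disch := exact hw)
  obtain ⟨H, hH⟩ : ∃ H : ℂ → ℂ, ∀ w, H w = (w ^ (n + 1))⁻¹ * g (J w) := ⟨_, fun w => rfl⟩
  have hHd : ∀ w : ℂ, 1 ≤ ‖w‖ → ‖w‖ ≤ 2 → DifferentiableAt ℂ H w := by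
    intro w h1 h2
    have hw : w ≠ 0 := by
      intro h
      rw [h, norm_zero] at h1
      linarith
    have e : H = fun w => (w ^ (n + 1))⁻¹ * g (J w) := funext hH
    rw [e]
    have h3 : DifferentiableAt ℂ g (J w) := hg.differentiableAt (isOpen_ball.mem_nhds (hsub (hJn w h1 h2)))
    exact ((differentiableAt_id.pow _).inv (pow_ne_zero _ hw)).mul (h3.comp w (hJd w hw))
  have hann : (∮ w in C(0, 2), H w) = ∮ w in C(0, 1), H w := by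
    refine Complex.circleIntegral_eq_of_differentiable_on_annulus_off_countable one_pos one_le_two countable_empty ?_ ?_
    · intro w hw
      have h2 : ‖w‖ ≤ 2 := by simpa using hw.1
      have h1 : 1 ≤ ‖w‖ := by simpa using hw.2
      exact (hHd w h1 h2).continuousAt.continuousWithinAt
    · rintro w ⟨⟨h2, h1⟩, -⟩
      have h2' : ‖w‖ ≤ 2 := by
        have : ‖w‖ < 2 := by simpa using h2
        exact this.le
      have h1' : 1 ≤ ‖w‖ := by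
        have : 1 < ‖w‖ := by simpa using h1
        exact this.le
      exact hHd w h1' h2'
  have h1 : (∮ w in C(0, 1), H w) = Complex.I * ∫ θ in (0 : ℝ)..2 * Real.pi, Complex.exp (-(((n : ℤ) : ℂ) * θ * Complex.I)) * f (s₀ + δ * Real.cos θ) z := by
    rw [circleIntegral, ← intervalIntegral.integral_const_mul]
    refine intervalIntegral.integral_congr fun θ _ => ?_
    simp only [deriv_circleMap, smul_eq_mul]
    have e1 : circleMap 0 1 θ = Complex.exp (θ * Complex.I) := by simp [circleMap]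
    rw [e1, hH]
    have e2 : J (Complex.exp (θ * Complex.I)) = ((s₀ + δ * Real.cos θ : ℝ) : ℂ) := by
      rw [hJ, ← Complex.exp_neg]
      push_cast
      rw [Complex.cos]
      ring_nf
    rw [e2, hgf _ (cs_mem hδ.le θ), ← Complex.exp_nat_mul, ← Complex.exp_neg]
    have e3 : Complex.exp (θ * Complex.I) * Complex.exp (-(((n + 1 : ℕ) : ℂ) * (θ * Complex.I))) = Complex.exp (-(((n : ℤ) : ℂ) * θ * Complex.I)) := by
      rw [← Complex.exp_add]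
      congr 1
      push_cast
      ring
    calc Complex.exp (θ * Complex.I) * Complex.I * (Complex.exp (-(((n + 1 : ℕ) : ℂ) * (θ * Complex.I))) * f (s₀ + δ * Real.cos θ) z)
        = Complex.I * ((Complex.exp (θ * Complex.I) * Complex.exp (-(((n + 1 : ℕ) : ℂ) * (θ * Complex.I)))) * f (s₀ + δ * Real.cos θ) z) := by ring
      _ = _ := by rw [e3]
  have h2 : ‖∮ w in C(0, 2), H w‖ ≤ 2 * Real.pi * 2 * (((2 : ℝ) ^ (n + 1))⁻¹ * C) := by
    refine circleIntegral.norm_integral_le_of_norm_le_const (by norm_num) fun w hw => ?_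
    have hw2 : ‖w‖ = 2 := by simpa using hw
    rw [hH, norm_mul, norm_inv, norm_pow, hw2]
    gcongr
    exact hgC _ (hJn w (by rw [hw2]; norm_num) hw2.le)
  rw [hann, h1, norm_mul, Complex.norm_I, one_mul] at h2
  unfold cf
  rw [norm_smul, Real.norm_of_nonneg (by positivity)]
  calc 1 / (2 * Real.pi) * ‖∫ θ in (0 : ℝ)..2 * Real.pi, Complex.exp (-(((n : ℤ) : ℂ) * θ * Complex.I)) * f (s₀ + δ * Real.cos θ) z‖
      ≤ 1 / (2 * Real.pi) * (2 * Real.pi * 2 * (((2 : ℝ) ^ (n + 1))⁻¹ * C)) := by gcongr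
    _ = C * (1 / 2) ^ n := by
      rw [pow_succ, one_div, one_div, inv_pow]
      field_simp

/-- Fourier inversion -/
private theorem cf_sum {f : ℝ → ℂ → ℂ} {s₀ δ : ℝ} {z : ℂ} (hc : Continuous fun θ : ℝ => f (s₀ + δ * Real.cos θ) z)
    (hs : Summable fun n : ℕ => cf f s₀ δ n z) (θ : ℝ) :
    HasSum (fun n : ℕ => 2 * cf f s₀ δ n z * Complex.cos (n * θ)) (f (s₀ + δ * Real.cos θ) z + cf f s₀ δ 0 z) := by
  have : Fact (0 < 2 * Real.pi) := ⟨Real.two_pi_pos⟩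
  have hper : Function.Periodic (fun θ : ℝ => f (s₀ + δ * Real.cos θ) z) (2 * Real.pi) := fun θ => by
    simp only [Real.cos_add_two_pi]
  obtain ⟨h, hh⟩ : ∃ h : C(AddCircle (2 * Real.pi), ℂ), ∀ θ : ℝ, h θ = f (s₀ + δ * Real.cos θ) z := by
    refine ⟨⟨hper.lift, ?_⟩, fun θ => hper.lift_coe θ⟩
    exact continuous_coinduced_dom.2 hc
  have hcoef : ∀ n : ℤ, fourierCoeff h n = cf f s₀ δ n z := by
    intro n
    rw [fourierCoeff_eq_intervalIntegral _ n 0, zero_add]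
    unfold cf
    congr 1
    refine intervalIntegral.integral_congr fun θ _ => ?_
    rw [fourier_coe_apply, hh, smul_eq_mul]
    congr 2
    have hpi : (Real.pi : ℂ) ≠ 0 := by exact_mod_cast Real.pi_ne_zero
    push_cast
    field_simp
  have hsum : Summable (fourierCoeff h) := by
    have e : fourierCoeff h = fun n : ℤ => cf f s₀ δ n z := funext hcoef
    rw [e]
    refine Summable.of_nat_of_neg hs ?_
    simp only [cf_neg]
    exact hs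
  have h1 := (has_pointwise_sum_fourier_series_of_summable hsum (θ : AddCircle (2 * Real.pi))).nat_add_neg
  rw [hh] at h1
  simp only [hcoef, smul_eq_mul] at h1
  have h2 : (fourier (0 : ℤ)) ((θ : ℝ) : AddCircle (2 * Real.pi)) = 1 := by simp
  rw [h2, mul_one] at h1
  have e : (fun n : ℕ => 2 * cf f s₀ δ n z * Complex.cos (n * θ)) = fun n : ℕ => cf f s₀ δ n z * (fourier (n : ℤ)) ((θ : ℝ) : AddCircle (2 * Real.pi)) +
      cf f s₀ δ (-(n : ℤ)) z * (fourier (-(n : ℤ))) ((θ : ℝ) : AddCircle (2 * Real.pi)) := by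
    funext n
    rw [cf_neg, fourier_coe_apply, fourier_coe_apply, Complex.cos]
    have hpi : (Real.pi : ℂ) ≠ 0 := by exact_mod_cast Real.pi_ne_zero
    have e1 : (2 * Real.pi * Complex.I * ((n : ℤ) : ℂ) * θ / ((2 * Real.pi : ℝ) : ℂ) : ℂ) = n * θ * Complex.I := by
      push_cast
      field_simp
    have e2 : (2 * Real.pi * Complex.I * ((-(n : ℤ) : ℤ) : ℂ) * θ / ((2 * Real.pi : ℝ) : ℂ) : ℂ) = -(n * θ) * Complex.I := by
      push_cast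
      field_simp
    rw [e1, e2]
    ring
  rw [e]
  exact h1

/-- the growth of the Chebyshev polynomials near `0` -/
private theorem cb_le {ρ : ℝ} (hρ : 1 ≤ ρ) {x : ℂ} (hx : 2 * ‖x‖ ≤ ρ - ρ⁻¹) (n : ℕ) : ‖(Polynomial.Chebyshev.T ℂ n).eval x‖ ≤ ρ ^ n := by
  have hρ0 : 0 < ρ := by linarith
  have hinv : 0 < ρ⁻¹ := inv_pos.2 hρ0
  induction n using Nat.twoStepInduction with
  | zero => simp
  | one =>
    simp only [Nat.cast_one, Polynomial.Chebyshev.T_one, Polynomial.eval_X, pow_one]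
    linarith
  | more n h1 h2 =>
    have e : Polynomial.Chebyshev.T ℂ ((n + 2 : ℕ) : ℤ) = 2 * Polynomial.X * Polynomial.Chebyshev.T ℂ ((n + 1 : ℕ) : ℤ) - Polynomial.Chebyshev.T ℂ (n : ℤ) := by
      have := Polynomial.Chebyshev.T_add_two ℂ (n : ℤ)
      push_cast
      exact this
    rw [e]
    simp only [Polynomial.eval_sub, Polynomial.eval_mul, Polynomial.eval_X, Polynomial.eval_ofNat]
    refine (norm_sub_le _ _).trans ?_
    rw [norm_mul, norm_mul]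
    have h3 : ‖(2 : ℂ)‖ = 2 := by simp
    rw [h3]
    have h4 : 2 * ‖x‖ * ‖(Polynomial.Chebyshev.T ℂ ((n + 1 : ℕ) : ℤ)).eval x‖ ≤ (ρ - ρ⁻¹) * ρ ^ (n + 1) := by
      gcongr
      linarith [norm_nonneg x]
    have h5 : (ρ - ρ⁻¹) * ρ ^ (n + 1) + ρ ^ n = ρ ^ (n + 2) := by
      have : ρ⁻¹ * ρ ^ (n + 1) = ρ ^ n := by rw [pow_succ']; field_simp
      rw [sub_mul, this]
      ring
    linarith

/-- the coefficients are small on the large ball -/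
private theorem cf_small {R r₁ R' : ℝ} (hr₁ : 0 < r₁) (h₁ : r₁ < R') (hR' : R' < R) :
    ∃ q : ℝ, 0 < q ∧ q < 1 ∧ ∀ {f : ℝ → ℂ → ℂ} {s₀ δ : ℝ} (_ : 0 < δ) {z₁ : ℂ} (_ : ContinuousOn (fun p : ℝ × ℂ => f p.1 p.2) (Icc (s₀ - δ) (s₀ + δ) ×ˢ ball z₁ R))
      (_ : ∀ s ∈ Icc (s₀ - δ) (s₀ + δ), DifferentiableOn ℂ (f s) (ball z₁ R)) {C M : ℝ} (_ : ∀ s ∈ Icc (s₀ - δ) (s₀ + δ), ∀ z ∈ ball z₁ R, ‖f s z‖ ≤ M)
      (_ : ∀ z ∈ closedBall z₁ r₁, ∀ n : ℕ, ‖cf f s₀ δ n z‖ ≤ C * (1 / 2) ^ n), ∀ z ∈ ball z₁ R', ∀ n : ℕ, ‖cf f s₀ δ n z‖ ≤ max 1 (max C M) * q ^ n := by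
  obtain ⟨R₃, hR₃⟩ : ∃ R₃, R₃ = (R' + R) / 2 := ⟨_, rfl⟩
  have h3 : R' < R₃ := by rw [hR₃]; linarith
  have h4 : R₃ < R := by rw [hR₃]; linarith
  have hR'0 : 0 < R' := hr₁.trans h₁
  have hlog : 0 < Real.log (R₃ / r₁) := Real.log_pos (by rw [one_lt_div hr₁]; linarith)
  obtain ⟨α, hα⟩ : ∃ α, α = Real.log (R₃ / R') / Real.log (R₃ / r₁) := ⟨_, rfl⟩
  obtain ⟨β, hβ⟩ : ∃ β, β = Real.log (R' / r₁) / Real.log (R₃ / r₁) := ⟨_, rfl⟩
  have hα0 : 0 < α := by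
    rw [hα]
    exact div_pos (Real.log_pos (by rw [one_lt_div hR'0]; exact h3)) hlog
  have hαβ : α + β = 1 := by
    have hR₃0 : 0 < R₃ := by linarith
    rw [hα, hβ, ← add_div, ← Real.log_mul (by positivity) (by positivity), div_mul_div_cancel₀ hR'0.ne', div_self hlog.ne']
  refine ⟨(1 / 2) ^ α, by positivity, Real.rpow_lt_one (by norm_num) (by norm_num) hα0, fun {f s₀ δ} hδ {z₁} hc hh {C M} hM hC z hz n => ?_⟩
  obtain ⟨K, hKd⟩ : ∃ K, K = max 1 (max C M) := ⟨_, rfl⟩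
  have hK1 : 1 ≤ K := by rw [hKd]; exact le_max_left _ _
  have hKC : C ≤ K := by rw [hKd]; exact (le_max_left _ _).trans (le_max_right _ _)
  have hKM : M ≤ K := by rw [hKd]; exact (le_max_right _ _).trans (le_max_right _ _)
  have hK0 : 0 < K := by linarith
  rw [← hKd]
  have hd := cf_hol hδ.le isOpen_ball hc hh n
  have hsph : ∀ w ∈ sphere z₁ R', ‖cf f s₀ δ n w‖ ≤ K * ((1 / 2) ^ α) ^ n := by
    intro w hw
    have h5 := Pool.Agent.H95.GC.three_circles (cf f s₀ δ n) z₁ r₁ R' R₃ R (K * (1 / 2) ^ n) K hr₁ h₁ h3 h4 hd (by positivity) hK0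
      (fun w hw => (hC w (by rw [mem_closedBall, hw]) n).trans (by gcongr))
      (fun w hw => (cf_le hδ.le (fun s hs => hM s hs w (by rw [mem_ball, hw]; exact h4)) n).trans hKM) w hw
    refine h5.trans (le_of_eq ?_)
    rw [← hα, ← hβ, Real.mul_rpow hK0.le (by positivity), mul_assoc, mul_comm (((1 / 2 : ℝ) ^ n) ^ α), ← mul_assoc, ← Real.rpow_add hK0, hαβ,
      Real.rpow_one, ← Real.rpow_natCast, ← Real.rpow_natCast, ← Real.rpow_mul (by norm_num), ← Real.rpow_mul (by norm_num), mul_comm α]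
  refine Complex.norm_le_of_forall_mem_frontier_norm_le (isBounded_ball (x := z₁) (r := R')) ?_ ?_ (subset_closure hz)
  · refine DifferentiableOn.diffContOnCl ?_
    rw [closure_ball _ hR'0.ne']
    exact hd.mono (closedBall_subset_ball hR')
  · intro w hw
    rw [frontier_ball _ hR'0.ne'] at hw
    exact hsph w hw

/-- extension from bounds for the coefficients: the radius depends only on the radii -/
theorem ext_of_coef {δ r₁ R' R : ℝ} (hδ : 0 < δ) (hr₁ : 0 < r₁) (h₁ : r₁ < R') (hR' : R' < R) : ∃ ε : ℝ, 0 < ε ∧ ∀ C M : ℝ, ∃ K : ℝ, ∀ (f : ℝ → ℂ → ℂ) (s₀ : ℝ) (z₁ : ℂ),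
    ContinuousOn (fun p : ℝ × ℂ => f p.1 p.2) (Icc (s₀ - δ) (s₀ + δ) ×ˢ ball z₁ R) → (∀ s ∈ Icc (s₀ - δ) (s₀ + δ), DifferentiableOn ℂ (f s) (ball z₁ R)) →
    (∀ s ∈ Icc (s₀ - δ) (s₀ + δ), ∀ z ∈ ball z₁ R, ‖f s z‖ ≤ M) → (∀ z ∈ closedBall z₁ r₁, ∀ n : ℕ, ‖cf f s₀ δ n z‖ ≤ C * (1 / 2) ^ n) →
    ∃ G : ℂ × ℂ → ℂ, DifferentiableOn ℂ G (ball (s₀ : ℂ) ε ×ˢ ball z₁ R') ∧ (∀ p ∈ ball (s₀ : ℂ) ε ×ˢ ball z₁ R', ‖G p‖ ≤ K) ∧
      ∀ s : ℝ, (s : ℂ) ∈ ball (s₀ : ℂ) ε → ∀ z ∈ ball z₁ R', G (s, z) = f s z := by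
  obtain ⟨q, hq0, hq1, hsm'⟩ := cf_small hr₁ h₁ hR'
  -- the radius of convergence
  obtain ⟨ρ, hρ⟩ : ∃ ρ : ℝ, ρ = (1 + q⁻¹) / 2 := ⟨_, rfl⟩
  have hqi : 1 < q⁻¹ := (one_lt_inv₀ hq0).2 hq1
  have hρ1 : 1 < ρ := by rw [hρ]; linarith
  have hρ0 : 0 < ρ := by linarith
  have hqρ : q * ρ < 1 := by
    rw [hρ]
    have : q * q⁻¹ = 1 := mul_inv_cancel₀ hq0.ne'
    nlinarith
  have hρi : ρ⁻¹ < 1 := inv_lt_one_of_one_lt₀ hρ1
  obtain ⟨η, hη⟩ : ∃ η : ℝ, η = min 1 ((ρ - ρ⁻¹) / 2) := ⟨_, rfl⟩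
  have hη0 : 0 < η := by rw [hη]; exact lt_min one_pos (by linarith)
  have hη1 : η ≤ 1 := by rw [hη]; exact min_le_left _ _
  have hη2 : η ≤ (ρ - ρ⁻¹) / 2 := by rw [hη]; exact min_le_right _ _
  refine ⟨δ * η, by positivity, fun C M => ?_⟩
  obtain ⟨K, hKd⟩ : ∃ K, K = max 1 (max C M) := ⟨_, rfl⟩
  have hK : 0 < K := by rw [hKd]; exact lt_of_lt_of_le one_pos (le_max_left _ _)
  have hsumm : Summable fun n : ℕ => 2 * K * (q * ρ) ^ n := (summable_geometric_of_lt_one (by positivity) hqρ).mul_left _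
  refine ⟨(∑' n : ℕ, 2 * K * (q * ρ) ^ n) + K, fun f s₀ z₁ hc hh hM hC => ?_⟩
  have hsm : ∀ z ∈ ball z₁ R', ∀ n : ℕ, ‖cf f s₀ δ n z‖ ≤ K * q ^ n := by
    rw [hKd]
    exact hsm' hδ hc hh hM hC
  obtain ⟨G, hG⟩ : ∃ G : ℂ × ℂ → ℂ, ∀ ζ z, G (ζ, z) =
      (∑' n : ℕ, 2 * cf f s₀ δ n z * (Polynomial.Chebyshev.T ℂ n).eval ((ζ - s₀) / δ)) - cf f s₀ δ 0 z :=
    ⟨fun p => (∑' n : ℕ, 2 * cf f s₀ δ n p.2 * (Polynomial.Chebyshev.T ℂ n).eval ((p.1 - s₀) / δ)) - cf f s₀ δ 0 p.2, fun _ _ => rfl⟩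
  have hx : ∀ ζ ∈ ball (s₀ : ℂ) (δ * η), 2 * ‖(ζ - s₀) / δ‖ ≤ ρ - ρ⁻¹ := by
    intro ζ hζ
    rw [mem_ball, dist_eq_norm] at hζ
    rw [norm_div, Complex.norm_real, Real.norm_of_nonneg hδ.le]
    have : ‖ζ - s₀‖ / δ ≤ η := by rw [div_le_iff₀ hδ]; linarith
    linarith
  have hterm : ∀ ζ ∈ ball (s₀ : ℂ) (δ * η), ∀ z ∈ ball z₁ R', ∀ n : ℕ,
      ‖2 * cf f s₀ δ n z * (Polynomial.Chebyshev.T ℂ n).eval ((ζ - s₀) / δ)‖ ≤ 2 * K * (q * ρ) ^ n := by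
    intro ζ hζ z hz n
    rw [norm_mul, norm_mul]
    have h3 : ‖(2 : ℂ)‖ = 2 := by simp
    rw [h3, mul_pow, show 2 * K * (q ^ n * ρ ^ n) = 2 * (K * q ^ n) * ρ ^ n by ring]
    have h5 := hsm z hz n
    have h6 := cb_le hρ1.le (hx ζ hζ) n
    gcongr
  have hball : ball z₁ R' ⊆ ball z₁ R := ball_subset_ball hR'.le
  have hd1 : ∀ z ∈ ball z₁ R', DifferentiableOn ℂ (fun ζ => G (ζ, z)) (ball (s₀ : ℂ) (δ * η)) := by
    intro z hz
    simp only [hG]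
    refine DifferentiableOn.sub ?_ (differentiableOn_const _)
    refine Complex.differentiableOn_tsum_of_summable_norm hsumm (fun n => ?_) isOpen_ball fun n ζ hζ => hterm ζ hζ z hz n
    refine DifferentiableOn.const_mul ?_ _
    have h5 : Differentiable ℂ fun ζ : ℂ => (ζ - (s₀ : ℂ)) / (δ : ℂ) := by fun_prop
    have h6 : Differentiable ℂ fun w : ℂ => (Polynomial.Chebyshev.T ℂ (n : ℤ)).eval w := Polynomial.differentiable _
    exact (h6.comp h5).differentiableOn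
  have hd2 : ∀ ζ ∈ ball (s₀ : ℂ) (δ * η), DifferentiableOn ℂ (fun z => G (ζ, z)) (ball z₁ R') := by
    intro ζ hζ
    simp only [hG]
    have h0 : ∀ n : ℤ, DifferentiableOn ℂ (cf f s₀ δ n) (ball z₁ R') := fun n => (cf_hol hδ.le isOpen_ball hc hh n).mono hball
    refine DifferentiableOn.sub ?_ (h0 0)
    refine Complex.differentiableOn_tsum_of_summable_norm hsumm (fun n => ?_) isOpen_ball fun n z hz => hterm ζ hζ z hz n
    exact ((h0 n).const_mul _).mul_const _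
  have hGb : ∀ ζ ∈ ball (s₀ : ℂ) (δ * η), ∀ z ∈ ball z₁ R', ‖G (ζ, z)‖ ≤ (∑' n : ℕ, 2 * K * (q * ρ) ^ n) + K := by
    intro ζ hζ z hz
    rw [hG]
    refine (norm_sub_le _ _).trans (add_le_add ?_ ?_)
    · exact tsum_of_norm_bounded hsumm.hasSum (hterm ζ hζ z hz)
    · have := hsm z hz 0
      simpa using this
  refine ⟨G, ?_, fun p hp => hGb p.1 hp.1 p.2 hp.2, ?_⟩
  · rintro ⟨ζ, z⟩ ⟨hζ, hz⟩
    obtain ⟨r, hr, hrs⟩ : ∃ r > 0, ball ζ r ⊆ ball (s₀ : ℂ) (δ * η) ∧ ball z r ⊆ ball z₁ R' := by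
      obtain ⟨r, hr, h1⟩ := Metric.isOpen_iff.1 isOpen_ball ζ hζ
      obtain ⟨r', hr', h2⟩ := Metric.isOpen_iff.1 isOpen_ball z hz
      exact ⟨min r r', lt_min hr hr', (ball_subset_ball (min_le_left _ _)).trans h1, (ball_subset_ball (min_le_right _ _)).trans h2⟩
    exact (Pool.Agent.TH.osgood hr (fun a ha b hb => hGb a (hrs.1 ha) b (hrs.2 hb)) (fun b hb => (hd1 b (hrs.2 hb)).mono hrs.1)
      (fun a ha => (hd2 a (hrs.1 ha)).mono hrs.2)).differentiableAt.differentiableWithinAt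
  · intro s hs z hz
    rw [mem_ball, dist_eq_norm, ← Complex.ofReal_sub, Complex.norm_real, Real.norm_eq_abs] at hs
    have hs1 : |(s - s₀) / δ| ≤ 1 := by
      rw [abs_div, abs_of_pos hδ, div_le_one hδ]
      nlinarith
    obtain ⟨θ, hθ⟩ : ∃ θ : ℝ, Real.cos θ = (s - s₀) / δ := ⟨Real.arccos ((s - s₀) / δ), Real.cos_arccos (abs_le.1 hs1).1 (abs_le.1 hs1).2⟩
    have hsθ : s₀ + δ * Real.cos θ = s := by rw [hθ]; field_simp; ring
    have hsum : Summable fun n : ℕ => cf f s₀ δ n z :=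
      Summable.of_norm_bounded ((summable_geometric_of_lt_one hq0.le hq1).mul_left K) (hsm z hz)
    have h7 := cf_sum (cf_cont hδ.le hc (hball hz)) hsum θ
    rw [hsθ] at h7
    rw [hG]
    have h8 : (fun n : ℕ => 2 * cf f s₀ δ n z * (Polynomial.Chebyshev.T ℂ n).eval (((s : ℂ) - s₀) / δ)) =
        fun n : ℕ => 2 * cf f s₀ δ n z * Complex.cos (n * θ) := by
      funext n
      have h9 : ((s : ℂ) - s₀) / δ = Complex.cos θ := by
        rw [← Complex.ofReal_cos, hθ]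
        push_cast
        ring
      rw [h9, Polynomial.Chebyshev.T_complex_cos]
      push_cast
      ring
    rw [h8, h7.tsum_eq]
    ring

/-- the coefficients of a function which extends -/
theorem coef_of_ext {f : ℝ → ℂ → ℂ} {s₀ δ : ℝ} (hδ : 0 < δ) {z₁ : ℂ} {r₁ C : ℝ} {g : ℂ × ℂ → ℂ} (hg : DifferentiableOn ℂ g (ball (s₀ : ℂ) (2 * δ) ×ˢ ball z₁ (2 * r₁)))
    (hr₁ : 0 < r₁) (hgC : ∀ p ∈ ball (s₀ : ℂ) (2 * δ) ×ˢ ball z₁ (2 * r₁), ‖g p‖ ≤ C) (hgf : ∀ s ∈ Icc (s₀ - δ) (s₀ + δ), ∀ z ∈ ball z₁ (2 * r₁), g (s, z) = f s z) :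
    ∀ z ∈ closedBall z₁ r₁, ∀ n : ℕ, ‖cf f s₀ δ n z‖ ≤ C * (1 / 2) ^ n := by
  intro z hz n
  have hz' : z ∈ ball z₁ (2 * r₁) := closedBall_subset_ball (by linarith) hz
  refine cf_geo hδ (g := fun ζ => g (ζ, z)) ?_ (fun ζ hζ => hgC (ζ, z) ⟨closedBall_subset_ball (by linarith) hζ, hz'⟩) (fun s hs => hgf s hs z hz') n
  intro ζ hζ
  have h1 : DifferentiableAt ℂ g (ζ, z) := hg.differentiableAt ((isOpen_ball.prod isOpen_ball).mem_nhds ⟨hζ, hz'⟩)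
  exact (h1.comp ζ (differentiableAt_id.prodMk (differentiableAt_const z))).differentiableWithinAt

/-- the coefficients are continuous in a parameter -/
theorem cf_param {Y : Type*} [TopologicalSpace Y] {f : Y → ℝ → ℂ → ℂ} {s₀ δ : ℝ} (hδ : 0 ≤ δ) {z : ℂ} {A : Set Y}
    (hc : ContinuousOn (fun p : Y × ℝ => f p.1 p.2 z) (A ×ˢ Icc (s₀ - δ) (s₀ + δ))) (n : ℤ) : ContinuousOn (fun y => cf (f y) s₀ δ n z) A := by
  rw [continuousOn_iff_continuous_restrict]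
  have h1 : Continuous fun p : A × ℝ => ((p.1.1, s₀ + δ * Real.cos p.2) : Y × ℝ) := by fun_prop
  have h2 : Continuous fun p : A × ℝ => f p.1.1 (s₀ + δ * Real.cos p.2) z := hc.comp_continuous h1 fun p => ⟨p.1.2, cs_mem hδ p.2⟩
  have h3 : Continuous (Function.uncurry fun (y : A) (θ : ℝ) => Complex.exp (-((n : ℂ) * θ * Complex.I)) * f y.1 (s₀ + δ * Real.cos θ) z) := by
    refine Continuous.mul ?_ h2
    fun_prop
  have h4 := intervalIntegral.continuous_parametric_intervalIntegral_of_continuous' (μ := MeasureTheory.volume) h3 0 (2 * Real.pi)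
  exact h4.const_smul (1 / (2 * Real.pi) : ℝ)

/-- extension in a real parameter from a small ball to a large one, with a radius which depends only on the radii -/
theorem cheb_u {δ ε R R' : ℝ} (hδ : 0 < δ) (hε : 0 < ε) (hR : 0 < R) (hR' : R' < R) : ∃ ε' : ℝ, 0 < ε' ∧ ∀ C M : ℝ, ∃ K : ℝ, ∀ (f : ℝ → ℂ → ℂ) (g : ℂ × ℂ → ℂ) (s₀ : ℝ) (z₁ : ℂ),
    ContinuousOn (fun p : ℝ × ℂ => f p.1 p.2) (Icc (s₀ - δ) (s₀ + δ) ×ˢ ball z₁ R) → (∀ s ∈ Icc (s₀ - δ) (s₀ + δ), DifferentiableOn ℂ (f s) (ball z₁ R)) →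
    (∀ s ∈ Icc (s₀ - δ) (s₀ + δ), ∀ z ∈ ball z₁ R, ‖f s z‖ ≤ M) → DifferentiableOn ℂ g (ball ((s₀ : ℂ), z₁) ε) → (∀ p ∈ ball ((s₀ : ℂ), z₁) ε, ‖g p‖ ≤ C) →
    (∀ (s : ℝ) (z : ℂ), ((s : ℂ), z) ∈ ball ((s₀ : ℂ), z₁) ε → g (s, z) = f s z) →
    ∃ G : ℂ × ℂ → ℂ, DifferentiableOn ℂ G (ball (s₀ : ℂ) ε' ×ˢ ball z₁ R') ∧ (∀ p ∈ ball (s₀ : ℂ) ε' ×ˢ ball z₁ R', ‖G p‖ ≤ K) ∧
      ∀ s : ℝ, (s : ℂ) ∈ ball (s₀ : ℂ) ε' → ∀ z ∈ ball z₁ R', G (s, z) = f s z := by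
  obtain ⟨d, hd⟩ : ∃ d, d = min δ (ε / 2) := ⟨_, rfl⟩
  obtain ⟨r, hr⟩ : ∃ r, r = min (ε / 2) (R / 4) := ⟨_, rfl⟩
  have hd0 : 0 < d := by rw [hd]; exact lt_min hδ (by linarith)
  have hdδ : d ≤ δ := by rw [hd]; exact min_le_left _ _
  have hdε : 2 * d ≤ ε := by rw [hd]; linarith [min_le_right δ (ε / 2)]
  have hr0 : 0 < r := by rw [hr]; exact lt_min (by linarith) (by linarith)
  have hrε : 2 * r ≤ ε := by rw [hr]; linarith [min_le_left (ε / 2) (R / 4)]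
  have hrR : 4 * r ≤ R := by rw [hr]; linarith [min_le_right (ε / 2) (R / 4)]
  obtain ⟨ε', hε', h⟩ := ext_of_coef (δ := d) (r₁ := r) (R' := max R' (R / 2)) (R := R) hd0 hr0 (lt_of_lt_of_le (by linarith) (le_max_right _ _)) (max_lt hR' (by linarith))
  refine ⟨ε', hε', fun C M => ?_⟩
  obtain ⟨K, hK⟩ := h C M
  refine ⟨K, fun f g s₀ z₁ hc hh hM hg hgC hgf => ?_⟩
  have hI : Icc (s₀ - d) (s₀ + d) ⊆ Icc (s₀ - δ) (s₀ + δ) := Icc_subset_Icc (by linarith) (by linarith)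
  have hsub : ball (s₀ : ℂ) (2 * d) ×ˢ ball z₁ (2 * r) ⊆ ball ((s₀ : ℂ), z₁) ε := by
    rw [← ball_prod_same]
    exact prod_mono (ball_subset_ball hdε) (ball_subset_ball hrε)
  obtain ⟨G, hG1, hG2, hG3⟩ := hK f s₀ z₁ (hc.mono (prod_mono hI le_rfl)) (fun s hs => hh s (hI hs)) (fun s hs => hM s (hI hs))
    (coef_of_ext hd0 (hg.mono hsub) hr0 (fun p hp => hgC p (hsub hp)) (fun s hs z hz => hgf s z (hsub ⟨by
      rw [mem_ball, dist_eq_norm, ← Complex.ofReal_sub, Complex.norm_real, Real.norm_eq_abs]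
      have : |s - s₀| ≤ d := abs_le.2 ⟨by linarith [hs.1], by linarith [hs.2]⟩
      linarith, hz⟩)))
  have hb : ball z₁ R' ⊆ ball z₁ (max R' (R / 2)) := ball_subset_ball (le_max_left _ _)
  exact ⟨G, hG1.mono (prod_mono le_rfl hb), fun p hp => hG2 p ⟨hp.1, hb hp.2⟩, fun s hs z hz => hG3 s hs z (hb hz)⟩

end Pool.Agent.G4.C
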