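import Pool.Agent.G3.C.PVb
import Pool.Agent.G3.C.LL
import Pool.Agent.G3.E.Defs

/-!
# G4 C Defs: the extension of the sheets over `T = b + E` to complex values of the parameter, definitions

`E` is the real closure of `ℂ a`, `ν ∈ E`, `SS` the finite set of the sheets `φ` over `T = Tb b E`.  Everything is done on the slices `(s, z) ↦ φ (y + s ν + z a)`, `y ∈ T` (`sl φ a ν y`), with the modules of
`G3/C` for one family `ℝ → ℂ → MN N`; the uniformity in `y` comes from the compactness of `T` modulo `Λ ∩ E`.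

* `BoxT`, `SmoT`: the sheet `φ` is smooth in the direction `ν` near the point `y₀ ∈ T`, in a straight chart: the jets `w j` of the first coordinate are continuous functions on `T`.
* `SDat`: the data of one slice (`G3.C.TDat` without the translations).
* `TDat`: the data of block (C).
* `ThP`: the jet form `P` is not `0` on open sets of the fibres over the points outside `Nν`.  `AlgP`: `P` is algebraic.
* `FDq`: a family of curves, holomorphic in both variables.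
-/

set_option autoImplicit false

open Topology Filter Metric

namespace Pool.Agent.G4.C

open Pool.Agent.H36.BP (EN fs wd)
open Pool.Agent.H14.PP (IsCone)
open Pool.Agent.H62.EF (MN pr)
open Pool.Agent.AD (Vd Chart Charts)
open Pool.Agent.TG (TMap Lat Str ms tl Gd)
open Pool.Agent.G3.A (Tb NL)
open Pool.Agent.G3.C

variable {N k : ℕ}

/-- the slice of the sheet `φ` at `y` -/
def sl (φ : Vd (k + 1) → MN N) (a ν y : Vd (k + 1)) (s : ℝ) (z : ℂ) : MN N := φ (y + (s : ℂ) • ν + z • a)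

/-- the set of the `(σ, z)` with `y + σ ν + z a ∈ D` -/
def Dz (D : Set (Vd (k + 1))) (a ν y : Vd (k + 1)) : Set (ℂ × ℂ) := {q | y + q.1 • ν + q.2 • a ∈ D}

/-- the point of the straight chart over `y` with the first coordinate `x` -/
noncomputable def cy (c : Vd (k + 1)) (ρ : ℝ) (x : ℂ) (y : Vd (k + 1)) : Vd (k + 2) := Fin.cons (α := fun _ => ℂ) x ((ρ : ℂ)⁻¹ • (y - c))

theorem cz_eq (b ν a c : Vd (k + 1)) (ρ : ℝ) (x s z : ℂ) : cz b ν a c ρ x s z = cy c ρ x (b + s • ν + z • a) := rfl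

/-- the sheet `φ` over `T` is smooth in the direction `ν` in the ball of radius `r` around `y₀`, with the jets `w` of the first coordinate in the straight chart `χ` -/
structure BoxT (X : Set (EN N)) (Λ : AddSubgroup (Vd (k + 1))) (u : EN N → Vd (k + 1)) (a ν : Vd (k + 1)) (T : Set (Vd (k + 1))) (φ : Vd (k + 1) → MN N) (χ : Chart (k + 2) X)
    (c : Vd (k + 1)) (ρ : ℝ) (w : ℕ → Vd (k + 1) → ℂ) (y₀ : Vd (k + 1)) (r : ℝ) : Prop where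
  pos : 0 < r
  str : Str Λ u χ c ρ
  cont : ∀ j, ContinuousOn (w j) (T ∩ ball y₀ r)
  der : ∀ j, ∀ y ∈ T ∩ ball y₀ r, HasDerivAt (fun s : ℝ => w j (y + (s : ℂ) • ν)) (w (j + 1) y) 0
  hol : ∀ j, ∀ y ∈ T ∩ ball y₀ r, DifferentiableAt ℂ (fun z : ℂ => w j (y + z • a)) 0
  mem : ∀ y ∈ T ∩ ball y₀ r, cy c ρ (w 0 y) y ∈ ball (0 : Vd (k + 2)) 2
  eq : ∀ y ∈ T ∩ ball y₀ r, φ y = pr (χ.σ (cy c ρ (w 0 y) y))

/-- the sheet is smooth in the direction `ν` near `y₀` -/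
def SmoT (X : Set (EN N)) (Λ : AddSubgroup (Vd (k + 1))) (u : EN N → Vd (k + 1)) (a ν : Vd (k + 1)) (T : Set (Vd (k + 1))) (φ : Vd (k + 1) → MN N) (y₀ : Vd (k + 1)) : Prop :=
  ∃ (χ : Chart (k + 2) X) (c : Vd (k + 1)) (ρ : ℝ) (w : ℕ → Vd (k + 1) → ℂ) (r : ℝ), BoxT X Λ u a ν T φ χ c ρ w y₀ r

/-- the data of one slice -/
structure SDat (X : Set (EN N)) (Λ : AddSubgroup (Vd (k + 1))) (u : EN N → Vd (k + 1)) (a ν b : Vd (k + 1)) (Dt Bd : Set (ℂ × ℂ)) (Φ : ℝ → ℂ → MN N) : Prop where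
  cone : IsCone X
  tor : TMap X Λ u
  lat : Lat Λ
  bd_closed : IsClosed Bd
  bd_sub : Bd ⊆ Dt
  dt_closed : IsClosed Dt
  dt_iso : ∀ (s : ℝ) (z : ℂ), ∀ᶠ z' in 𝓝[≠] z, ((s : ℂ), z') ∉ Dt
  lift : ∀ s : ℝ, ∃ F ∈ Gc X Λ u a (b + (s : ℂ) • ν), ∀ z, Φ s z = pr (F z)
  smo : ∀ (s : ℝ) (z : ℂ), ((s : ℂ), z) ∉ Dt → Smo X Λ u a ν b Φ s z
  str : ∀ (s : ℝ) (z : ℂ), ((s : ℂ), z) ∉ Bd → ∃ (χ : Chart (k + 2) X) (c : Vd (k + 1)) (ρ' : ℝ) (x : ℂ), Str Λ u χ c ρ' ∧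
    cz b ν a c ρ' x s z ∈ ball (0 : Vd (k + 2)) 2 ∧ Φ s z = pr (χ.σ (cz b ν a c ρ' x s z))

/-- the data of block (C): the sheets `SS` over `T = b + E`, smooth off `D` -/
structure TDat (X : Set (EN N)) (Λ : AddSubgroup (Vd (k + 1))) (u : EN N → Vd (k + 1)) (a ν b : Vd (k + 1)) (E : Submodule ℝ (Vd (k + 1))) (D Bad : Set (Vd (k + 1)))
    (SS : Set (Vd (k + 1) → MN N)) : Prop where
  cone : IsCone X
  tor : TMap X Λ u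
  lat : Lat Λ
  a_mem : ∀ z : ℂ, z • a ∈ E
  ν_mem : ν ∈ E
  cpt : ∃ R : ℝ, 0 < R ∧ ∀ v ∈ E, ∃ l ∈ Λ, l ∈ E ∧ ‖v - l‖ ≤ R
  dns : ∀ v ∈ E, ∀ ε : ℝ, 0 < ε → ∃ l ∈ Λ, l ∈ E ∧ ∃ z : ℂ, ‖v - (l + z • a)‖ ≤ ε
  D_closed : IsClosed D
  D_inv : ∀ y ∈ D, ∀ l ∈ Λ, y + l ∈ D
  bad_closed : IsClosed Bad
  bad_sub : Bad ⊆ D
  bad_inv : ∀ y ∈ Bad, ∀ l ∈ Λ, y + l ∈ Bad
  /-- `D` is thin on the lines of direction `a` -/
  thin : ∀ y : Vd (k + 1), ∃ h : Vd (k + 1) → ℂ, AnalyticAt ℂ h y ∧ (∀ᶠ y' in 𝓝 y, y' ∈ D → h y' = 0) ∧ ¬ ∀ᶠ z in 𝓝 (0 : ℂ), h (y + z • a) = 0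
  fin : SS.Finite
  tr : ∀ φ ∈ SS, ∀ l ∈ Λ, l ∈ E → ∃ φ' ∈ SS, ∀ y ∈ Tb b E, φ' y = φ (y + l)
  line : ∀ φ ∈ SS, ∀ y ∈ Tb b E, ∃ F ∈ Gc X Λ u a y, ∀ z : ℂ, φ (y + z • a) = pr (F z)
  smo : ∀ φ ∈ SS, ∀ y ∈ Tb b E, y ∉ D → SmoT X Λ u a ν (Tb b E) φ y
  str : ∀ φ ∈ SS, ∀ y ∈ Tb b E, y ∉ Bad → ∃ (χ : Chart (k + 2) X) (c : Vd (k + 1)) (ρ : ℝ) (x : ℂ), Str Λ u χ c ρ ∧
    cy c ρ x y ∈ ball (0 : Vd (k + 2)) 2 ∧ φ y = pr (χ.σ (cy c ρ x y))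
  gr : ∀ R₀ : ℝ, 0 < R₀ → ∃ c : ℝ, 0 < c ∧ ∀ y, ∀ F ∈ Gc X Λ u a y, ∀ z, Real.log ‖F z‖ + c ≤ Real.circleAverage (fun w => Real.log ‖F w‖) z R₀
  /-- few bad hits -/
  few : ∀ ε : ℝ, 0 < ε → ∃ C : ℝ, ∀ (y : Vd (k + 1)) (R : ℝ), 0 ≤ R → ∀ S : Finset ℂ, (∀ z ∈ S, ‖z‖ ≤ R ∧ y + z • a ∈ Bad) → (S.card : ℝ) ≤ ε * R ^ 2 + C
  nl : NL X Λ u D a

variable {X : Set (EN N)} {Λ : AddSubgroup (Vd (k + 1))} {u : EN N → Vd (k + 1)} {ν : Vd (k + 1)} {m : ℕ}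

/-- the jet form is not `0` on the open subsets of the fibres over the points outside the closed set `Nν`, which contains no line of direction `a` -/
structure ThP (P : JForm X Λ u ν m) (a : Vd (k + 1)) (Nν : Set (Vd (k + 1))) : Prop where
  closed : IsClosed Nν
  line : ∀ y : Vd (k + 1), ∃ z : ℂ, y + z • a ∉ Nν
  thin : ∀ y ∉ Nν, ∀ x ∈ X, u x - y ∈ Λ → ∀ U ∈ 𝓝 x, ∃ φ : ℂ → EN N, DirC X Λ u ν φ ∧ φ 0 ∈ U ∧ u (φ 0) - y ∈ Λ ∧ P.toFun (jt m φ) ≠ 0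

/-- the jet form is algebraic: `R i (φ 0) P (jet φ) = Q i (jet φ)`, `R i` homogeneous of degree `e` without common zero outside `D`, `Q i` of polynomial growth -/
def AlgP (D : Set (Vd (k + 1))) (P : JForm X Λ u ν m) : Prop :=
  ∃ (r e : ℕ) (R : Fin r → EN N → ℂ) (Q : Fin r → (Fin (m + 1) → EN N) → ℂ) (C : ℝ) (M : ℕ), (∀ i, Differentiable ℂ (R i)) ∧ (∀ i (c : ℂ) x, R i (c • x) = c ^ e * R i x) ∧
    (∀ y ∉ D, ∀ x ∈ X, u x - y ∈ Λ → ∃ i, R i x ≠ 0) ∧ (∀ i v, ‖Q i v‖ ≤ C * (1 + ∑ j, ‖v j‖) ^ M) ∧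
    ∀ i (φ : ℂ → EN N), DirC X Λ u ν φ → (∀ y ∈ D, u (φ 0) - y ∉ Λ) → R i (φ 0) * P.toFun (jt m φ) = Q i (jt m φ)

/-- `W` is a family of curves, holomorphic in both variables on `Q`: the curves `W ζ` have local holomorphic lifts without zeros, the family has local holomorphic lifts which do not
vanish identically on the curve -/
def FDq (W : ℂ → ℂ → MN N) (Q : Set (ℂ × ℂ)) : Prop :=
  ∀ ζ z : ℂ, (ζ, z) ∈ Q → LL (W ζ) z ∧ ∃ G : ℂ × ℂ → EN N, AnalyticAt ℂ G (ζ, z) ∧ (¬ ∀ᶠ w in 𝓝 z, G (ζ, w) = 0) ∧ ∀ᶠ p in 𝓝 (ζ, z), G p ≠ 0 → W p.1 p.2 = pr (G p)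

theorem FDq.mono {W : ℂ → ℂ → MN N} {Q Q' : Set (ℂ × ℂ)} (h : FDq W Q) (hQ : Q' ⊆ Q) : FDq W Q' := fun ζ z hp => h ζ z (hQ hp)

end Pool.Agent.G4.C
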