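import Pool.Agent.G4.C.Slc
import Pool.Agent.TG.Gd

/-!
# G4 C Dst: the distance of `D` on the lines of direction `a`

`dst`: at a point `y₀` let `h` be as in `thin` and `n` the order of the zero of `z ↦ h (y₀ + z a)` at `0`: its `n`-th derivative at `0` is not `0`.  The function `y ↦ iteratedDeriv n (fun z => h (y + z • a)) 0` is
analytic near `y₀` (so continuous; for instance it is `(iteratedFDeriv …) (fun _ => a)`, or write `h` as a function of `(y, z)` and use that derivatives of analytic functions are analytic), so it is not `0`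
for `y` near `y₀`: the order of `z ↦ h (y + z a)` at `0` is at most `n`, `c ‖z‖ ^ n ≤ ‖h (y + z a)‖` for `z` near `0`.  `h` is Lipschitz near `y` and `0` on `D` near `y`, so `‖h (y + z a)‖ ≤ L ‖y + z a - d‖` for
`d ∈ D` near `y`; for the other `d ∈ D` the distance is bounded below.  Uniform `n`: finitely many `y₀` by compactness of a ball and translations (`Lat.cpt`, `D_inv`; `‖z‖ ^ n' ≤ ‖z‖ ^ n` for
`n ≤ n'`, `‖z‖ ≤ 1`); the case `z₀ ≠ 0`: replace `y` by `y + z₀ a`.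
`circ`: for `y₀` the hits are isolated, so there is a circle `‖z‖ = r` off `D`, compact, so `y₀ + z a ∈ Gd D (2 δ)` on it and `y + z a ∈ Gd D δ` for `‖y - y₀‖ ≤ δ`; compactness as before.
-/

set_option autoImplicit false

open Topology Filter Metric

namespace Pool.Agent.G4.C

open Pool.Agent.AD (Vd Chart Charts)
open Pool.Agent.TG

variable {k : ℕ} {Λ : AddSubgroup (Vd (k + 1))} {D : Set (Vd (k + 1))} {a : Vd (k + 1)}

/-- a function of one variable with a nonzero `n`-th coefficient -/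
private theorem lb_of_coeff {g : ℂ → ℂ} {p : FormalMultilinearSeries ℂ ℂ ℂ} (hp : HasFPowerSeriesAt g p 0) {n : ℕ} (hn : p n ≠ 0) :
    ∃ c : ℝ, 0 < c ∧ ∀ᶠ z in 𝓝 (0 : ℂ), c * ‖z‖ ^ n ≤ ‖g z‖ := by
  have hp0 : p ≠ 0 := fun h => hn (by rw [h]; rfl)
  have hord : p.order ≤ n := by
    by_contra hlt
    push Not at hlt
    exact hn (p.apply_eq_zero_of_lt_order hlt)
  set w := (Function.swap dslope (0 : ℂ))^[p.order] g with hw
  have hw0 : w 0 ≠ 0 := hp.iterate_dslope_fslope_ne_zero hp0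
  have hwc : ContinuousAt w 0 := (hp.has_fpower_series_iterate_dslope_fslope p.order).continuousAt
  have h1 : 0 < ‖w 0‖ := norm_pos_iff.2 hw0
  refine ⟨‖w 0‖ / 2, by positivity, ?_⟩
  have h2 : ∀ᶠ z in 𝓝 (0 : ℂ), ‖w 0‖ / 2 < ‖w z‖ := hwc.norm.eventually (lt_mem_nhds (by linarith))
  have h3 : ∀ᶠ z in 𝓝 (0 : ℂ), ‖z‖ < 1 := by
    filter_upwards [ball_mem_nhds (0 : ℂ) one_pos] with z hz
    rwa [mem_ball, dist_zero_right] at hz
  filter_upwards [h2, h3] with z hz hz1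
  have h4 := hp.eq_pow_order_mul_iterate_dslope z
  rw [sub_zero] at h4
  rw [h4, norm_smul, norm_pow]
  have h5 : ‖z‖ ^ n ≤ ‖z‖ ^ p.order := pow_le_pow_of_le_one (norm_nonneg _) hz1.le hord
  have h6 : 0 ≤ ‖z‖ ^ n := by positivity
  have h7 : 0 ≤ ‖z‖ ^ p.order := by positivity
  calc ‖w 0‖ / 2 * ‖z‖ ^ n ≤ ‖w z‖ * ‖z‖ ^ p.order := mul_le_mul hz.le h5 h6 (norm_nonneg _)
    _ = ‖z‖ ^ p.order * ‖w z‖ := mul_comm _ _

/-- the series on the line -/
private theorem line_series {h : Vd (k + 1) → ℂ} {p : FormalMultilinearSeries ℂ (Vd (k + 1)) ℂ} {y : Vd (k + 1)} (hp : HasFPowerSeriesAt h p y) (a : Vd (k + 1)) :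
    HasFPowerSeriesAt (fun z : ℂ => h (y + z • a)) (p.compContinuousLinearMap (ContinuousLinearMap.toSpanSingleton ℂ a)) 0 := by
  obtain ⟨r, hr⟩ := hp
  have h1 := hr.comp_sub (-y)
  rw [add_neg_cancel] at h1
  have h2 : HasFPowerSeriesAt (fun v => h (v - -y)) p (ContinuousLinearMap.toSpanSingleton ℂ a (0 : ℂ)) := by
    rw [map_zero]
    exact ⟨r, h1⟩
  have h3 := h2.compContinuousLinearMap
  have h4 : (fun v => h (v - -y)) ∘ (ContinuousLinearMap.toSpanSingleton ℂ a) = fun z : ℂ => h (y + z • a) := by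
    funext z
    show h (ContinuousLinearMap.toSpanSingleton ℂ a z - -y) = _
    rw [ContinuousLinearMap.toSpanSingleton_apply, sub_neg_eq_add, add_comm]
  rwa [h4] at h3

/-- near `y₀` the function is bounded below on the lines, with one exponent -/
private theorem lb_near {h : Vd (k + 1) → ℂ} {y₀ : Vd (k + 1)} (hh : AnalyticAt ℂ h y₀) (hne : ¬ ∀ᶠ z in 𝓝 (0 : ℂ), h (y₀ + z • a) = 0) :
    ∃ n : ℕ, ∀ᶠ y in 𝓝 y₀, ∃ c : ℝ, 0 < c ∧ ∀ᶠ z in 𝓝 (0 : ℂ), c * ‖z‖ ^ n ≤ ‖h (y + z • a)‖ := by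
  obtain ⟨p, r, hp⟩ := hh
  set A := ContinuousLinearMap.toSpanSingleton ℂ a with hA
  have h0 := line_series ⟨r, hp⟩ a
  have hq : p.compContinuousLinearMap A ≠ 0 := fun hq => hne (h0.locally_zero_iff.2 hq)
  obtain ⟨n, hn⟩ : ∃ n, p.compContinuousLinearMap A n ≠ 0 := by
    by_contra hcon
    push Not at hcon
    exact hq (funext hcon)
  refine ⟨n, ?_⟩
  -- the `n`-th coefficient at `y`
  have hpr : 0 < p.radius := hp.r_pos.trans_le hp.r_le
  have hcont : ContinuousAt (fun x => p.changeOrigin x n) 0 := (p.hasFPowerSeriesOnBall_changeOrigin n hpr).hasFPowerSeriesAt.continuousAt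
  have hval : (p.changeOrigin 0 n).compContinuousLinearMap (fun _ => A) ≠ 0 := by
    have h1 := hp.changeOrigin (y := 0) (by simpa using hp.r_pos)
    rw [add_zero] at h1
    have h2 := line_series h1.hasFPowerSeriesAt a
    have h3 := h0.eq_formalMultilinearSeries h2
    have h4 : p.compContinuousLinearMap A n = (p.changeOrigin 0 n).compContinuousLinearMap (fun _ => A) := by
      rw [hA, h3]
      rfl
    rw [← h4]
    exact hn
  have hev : ∀ᶠ x in 𝓝 (0 : Vd (k + 1)), p.changeOrigin x n (fun _ => a) ≠ 0 := by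
    have hv : p.changeOrigin 0 n (fun _ => a) ≠ 0 := by
      intro hv
      apply hval
      ext
      simp only [ContinuousMultilinearMap.compContinuousLinearMap_apply]
      have : (fun _ : Fin n => A 1) = fun _ => a := by
        funext _
        simp [hA]
      simpa [this] using hv
    have hc2 : ContinuousAt (fun x => p.changeOrigin x n (fun _ => a)) 0 := by
      have h3 : Continuous fun M : ContinuousMultilinearMap ℂ (fun _ : Fin n => Vd (k + 1)) ℂ => M (fun _ => a) := by fun_prop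
      exact h3.continuousAt.comp hcont
    exact hc2.eventually_ne hv
  have hsub : Tendsto (fun y => y - y₀) (𝓝 y₀) (𝓝 0) := by
    have : Tendsto (fun y : Vd (k + 1) => y - y₀) (𝓝 y₀) (𝓝 (y₀ - y₀)) := (continuous_id.sub continuous_const).tendsto y₀
    rwa [sub_self] at this
  have hball : ∀ᶠ y in 𝓝 y₀, (‖y - y₀‖₊ : ENNReal) < r := by
    have h4 := hsub.eventually (Metric.eball_mem_nhds (0 : Vd (k + 1)) hp.r_pos)
    filter_upwards [h4] with y hy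
    have h5 : edist (y - y₀) 0 < r := hy
    rwa [edist_zero_right] at h5
  filter_upwards [hsub.eventually hev, hball] with y hy hyr
  have h5 := hp.changeOrigin hyr
  rw [add_sub_cancel] at h5
  have h6 := line_series h5.hasFPowerSeriesAt a
  refine lb_of_coeff (n := n) h6 fun hz => hy ?_
  have h7 := congrArg (fun M : ContinuousMultilinearMap ℂ (fun _ : Fin n => ℂ) ℂ => M fun _ => 1) hz
  have h8 : ((p.changeOrigin (y - y₀)).compContinuousLinearMap (ContinuousLinearMap.toSpanSingleton ℂ a) n) (fun _ => (1 : ℂ)) = p.changeOrigin (y - y₀) n fun _ => a := by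
    show (p.changeOrigin (y - y₀) n) (fun i => ContinuousLinearMap.toSpanSingleton ℂ a ((fun _ => (1 : ℂ)) i)) = _
    congr 1
    funext _
    rw [ContinuousLinearMap.toSpanSingleton_apply, one_smul]
  rw [← h8]
  exact h7

private theorem gd_add' (hinv : ∀ y ∈ D, ∀ l ∈ Λ, y + l ∈ D) (δ : ℝ) {y l : Vd (k + 1)} (hl : l ∈ Λ) (h : y ∈ Gd D δ) : y + l ∈ Gd D δ := by
  intro b hb
  have h1 := h _ (hinv b hb (-l) (Λ.neg_mem hl))
  have h2 : y - (b + -l) = y + l - b := by abel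
  rwa [h2] at h1

/-- the local form of `dst` -/
private theorem dst_loc {y₀ : Vd (k + 1)} (hthin : ∃ h : Vd (k + 1) → ℂ, AnalyticAt ℂ h y₀ ∧ (∀ᶠ y' in 𝓝 y₀, y' ∈ D → h y' = 0) ∧ ¬ ∀ᶠ z in 𝓝 (0 : ℂ), h (y₀ + z • a) = 0) :
    ∃ n : ℕ, ∀ᶠ y in 𝓝 y₀, ∃ c : ℝ, 0 < c ∧ ∀ᶠ z in 𝓝 (0 : ℂ), y + z • a ∈ Gd D (c * ‖z‖ ^ n) := by
  obtain ⟨h, hh, hD, hne⟩ := hthin
  obtain ⟨n, hn⟩ := lb_near hh hne
  have hc1 : ContDiffAt ℂ 1 h y₀ := hh.contDiffAt
  obtain ⟨K, t, ht, hK⟩ := (hc1.restrict_scalars ℝ).exists_lipschitzOnWith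
  obtain ⟨ε, hε, hball⟩ := Metric.mem_nhds_iff.1 (inter_mem ht hD)
  refine ⟨n, ?_⟩
  filter_upwards [hn, ball_mem_nhds y₀ (half_pos hε)] with y ⟨c, hc, hy⟩ hyb
  refine ⟨min (c / (K + 1)) (ε / 4), by positivity, ?_⟩
  have h1 : ∀ᶠ z in 𝓝 (0 : ℂ), ‖z • a‖ < ε / 4 := by
    have h2 : Tendsto (fun z : ℂ => ‖z • a‖) (𝓝 0) (𝓝 ‖(0 : ℂ) • a‖) := (by fun_prop : Continuous fun z : ℂ => ‖z • a‖).tendsto 0
    rw [zero_smul, norm_zero] at h2
    exact h2.eventually (gt_mem_nhds (by positivity))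
  have h3 : ∀ᶠ z in 𝓝 (0 : ℂ), ‖z‖ < 1 := by
    filter_upwards [ball_mem_nhds (0 : ℂ) one_pos] with z hz
    rwa [mem_ball, dist_zero_right] at hz
  filter_upwards [hy, h1, h3] with z hz hza hz1 b hb
  have hzn : 0 ≤ ‖z‖ ^ n := by positivity
  have hzn1 : ‖z‖ ^ n ≤ 1 := pow_le_one₀ (norm_nonneg _) hz1.le
  have hw : y + z • a ∈ ball y₀ (3 * ε / 4) := by
    rw [mem_ball, dist_eq_norm] at hyb ⊢
    have h4 : y + z • a - y₀ = (y - y₀) + z • a := by abel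
    rw [h4]
    exact (norm_add_le _ _).trans_lt (by linarith)
  by_cases hbb : b ∈ ball y₀ ε
  · have h5 := hball hbb
    have h6 : y + z • a ∈ t := (hball (ball_subset_ball (by linarith) hw)).1
    have h7 := hK.norm_sub_le h6 h5.1
    rw [h5.2 hb, sub_zero] at h7
    have hK0 : (0 : ℝ) ≤ K := K.2
    calc min (c / (K + 1)) (ε / 4) * ‖z‖ ^ n ≤ c / (K + 1) * ‖z‖ ^ n := mul_le_mul_of_nonneg_right (min_le_left _ _) hzn
      _ = (c * ‖z‖ ^ n) / (K + 1) := by ring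
      _ ≤ ‖y + z • a - b‖ := by
        rw [div_le_iff₀ (by positivity)]
        refine hz.trans (h7.trans ?_)
        rw [mul_comm]
        exact mul_le_mul_of_nonneg_left (by linarith) (norm_nonneg _)
  · have h8 : ε ≤ ‖b - y₀‖ := by
      rw [mem_ball, dist_eq_norm] at hbb
      linarith
    rw [mem_ball, dist_eq_norm] at hw
    have h9 : ‖b - y₀‖ ≤ ‖y + z • a - y₀‖ + ‖y + z • a - b‖ := by
      have h10 : b - y₀ = (y + z • a - y₀) - (y + z • a - b) := by abel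
      rw [h10]
      exact norm_sub_le _ _
    calc min (c / (K + 1)) (ε / 4) * ‖z‖ ^ n ≤ ε / 4 * 1 := mul_le_mul (min_le_right _ _) hzn1 hzn (by positivity)
      _ ≤ ‖y + z • a - b‖ := by linarith

theorem dst (hL : Lat Λ) (hD : IsClosed D) (hinv : ∀ y ∈ D, ∀ l ∈ Λ, y + l ∈ D)
    (hthin : ∀ y : Vd (k + 1), ∃ h : Vd (k + 1) → ℂ, AnalyticAt ℂ h y ∧ (∀ᶠ y' in 𝓝 y, y' ∈ D → h y' = 0) ∧ ¬ ∀ᶠ z in 𝓝 (0 : ℂ), h (y + z • a) = 0) :
    ∃ n : ℕ, ∀ (y : Vd (k + 1)) (z₀ : ℂ), ∃ c : ℝ, 0 < c ∧ ∀ᶠ z in 𝓝[≠] z₀, y + z • a ∈ Gd D (c * ‖z - z₀‖ ^ n) := by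
  have _ := hD
  obtain ⟨R, -, hR⟩ := hL.cpt
  have hS : IsCompact (closedBall (0 : Vd (k + 1)) R) := isCompact_closedBall _ _
  have hloc : ∃ n : ℕ, ∀ y ∈ closedBall (0 : Vd (k + 1)) R, ∃ c : ℝ, 0 < c ∧ ∀ᶠ z in 𝓝 (0 : ℂ), y + z • a ∈ Gd D (c * ‖z‖ ^ n) := by
    refine hS.induction_on (p := fun S => ∃ n : ℕ, ∀ y ∈ S, ∃ c : ℝ, 0 < c ∧ ∀ᶠ z in 𝓝 (0 : ℂ), y + z • a ∈ Gd D (c * ‖z‖ ^ n)) ?_ ?_ ?_ ?_
    · exact ⟨0, fun y hy => hy.elim⟩
    · rintro s t hst ⟨n, hn⟩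
      exact ⟨n, fun y hy => hn y (hst hy)⟩
    · rintro s t ⟨n, hn⟩ ⟨m, hm⟩
      have key : ∀ (n N : ℕ), n ≤ N → ∀ y : Vd (k + 1), (∃ c : ℝ, 0 < c ∧ ∀ᶠ z in 𝓝 (0 : ℂ), y + z • a ∈ Gd D (c * ‖z‖ ^ n)) →
          ∃ c : ℝ, 0 < c ∧ ∀ᶠ z in 𝓝 (0 : ℂ), y + z • a ∈ Gd D (c * ‖z‖ ^ N) := by
        rintro n N hnN y ⟨c, hc, hy⟩
        refine ⟨c, hc, ?_⟩
        have h3 : ∀ᶠ z in 𝓝 (0 : ℂ), ‖z‖ < 1 := by
          filter_upwards [ball_mem_nhds (0 : ℂ) one_pos] with z hz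
          rwa [mem_ball, dist_zero_right] at hz
        filter_upwards [hy, h3] with z hz hz1
        exact gd_mono (mul_le_mul_of_nonneg_left (pow_le_pow_of_le_one (norm_nonneg _) hz1.le hnN) hc.le) hz
      refine ⟨max n m, fun y hy => ?_⟩
      rcases hy with hy | hy
      · exact key n _ (le_max_left _ _) y (hn y hy)
      · exact key m _ (le_max_right _ _) y (hm y hy)
    · intro y₀ _
      obtain ⟨n, hn⟩ := dst_loc (D := D) (a := a) (hthin y₀)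
      exact ⟨_, mem_nhdsWithin_of_mem_nhds hn, n, fun y hy => hy⟩
  obtain ⟨n, hn⟩ := hloc
  refine ⟨n, fun y z₀ => ?_⟩
  obtain ⟨l, hl, hlR⟩ := hR (y + z₀ • a)
  obtain ⟨c, hc, hev⟩ := hn (y + z₀ • a - l) (by rwa [mem_closedBall, dist_zero_right])
  refine ⟨c, hc, ?_⟩
  have hsub : Tendsto (fun z : ℂ => z - z₀) (𝓝[≠] z₀) (𝓝 0) := by
    have : Tendsto (fun z : ℂ => z - z₀) (𝓝 z₀) (𝓝 (z₀ - z₀)) := (continuous_id.sub continuous_const).tendsto z₀
    rw [sub_self] at this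
    exact this.mono_left nhdsWithin_le_nhds
  filter_upwards [hsub.eventually hev] with z hz
  have h1 := gd_add' hinv _ hl hz
  have h2 : y + z₀ • a - l + (z - z₀) • a + l = y + z • a := by
    rw [sub_smul]
    abel
  rwa [h2] at h1

theorem circ (hL : Lat Λ) (hD : IsClosed D) (hinv : ∀ y ∈ D, ∀ l ∈ Λ, y + l ∈ D) (hiso : ∀ y : Vd (k + 1), ∀ᶠ z in 𝓝[≠] (0 : ℂ), y + z • a ∉ D) :
    ∃ δ : ℝ, 0 < δ ∧ ∀ y : Vd (k + 1), ∃ r : ℝ, 0 < r ∧ ∀ z : ℂ, ‖z‖ = r → y + z • a ∈ Gd D δ := by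
  obtain ⟨R, -, hR⟩ := hL.cpt
  have hS : IsCompact (closedBall (0 : Vd (k + 1)) R) := isCompact_closedBall _ _
  have hloc : ∃ δ : ℝ, 0 < δ ∧ ∀ y ∈ closedBall (0 : Vd (k + 1)) R, ∃ r : ℝ, 0 < r ∧ ∀ z : ℂ, ‖z‖ = r → y + z • a ∈ Gd D δ := by
    refine hS.induction_on (p := fun S => ∃ δ : ℝ, 0 < δ ∧ ∀ y ∈ S, ∃ r : ℝ, 0 < r ∧ ∀ z : ℂ, ‖z‖ = r → y + z • a ∈ Gd D δ) ?_ ?_ ?_ ?_
    · exact ⟨1, one_pos, fun y hy => hy.elim⟩
    · rintro s t hst ⟨δ, hδ, h⟩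
      exact ⟨δ, hδ, fun y hy => h y (hst hy)⟩
    · rintro s t ⟨δ, hδ, h⟩ ⟨δ', hδ', h'⟩
      refine ⟨min δ δ', lt_min hδ hδ', fun y hy => ?_⟩
      rcases hy with hy | hy
      · obtain ⟨r, hr, hz⟩ := h y hy
        exact ⟨r, hr, fun z hzr => gd_mono (min_le_left _ _) (hz z hzr)⟩
      · obtain ⟨r, hr, hz⟩ := h' y hy
        exact ⟨r, hr, fun z hzr => gd_mono (min_le_right _ _) (hz z hzr)⟩
    · intro y₀ _
      obtain ⟨ρ, hρ, hb⟩ := Metric.mem_nhdsWithin_iff.1 (hiso y₀)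
      set r := ρ / 2 with hr
      have hr0 : 0 < r := by positivity
      have hoff : ∀ z : ℂ, ‖z‖ = r → y₀ + z • a ∉ D := by
        intro z hz
        refine hb ⟨?_, ?_⟩
        · rw [mem_ball, dist_zero_right, hz]
          linarith
        · intro h0
          rw [Set.mem_singleton_iff] at h0
          rw [h0, norm_zero] at hz
          linarith
      have hcomp : IsCompact ((fun z : ℂ => y₀ + z • a) '' sphere (0 : ℂ) r) := (isCompact_sphere _ _).image (by fun_prop)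
      have hdis : Disjoint ((fun z : ℂ => y₀ + z • a) '' sphere (0 : ℂ) r) D := by
        rw [Set.disjoint_left]
        rintro _ ⟨z, hz, rfl⟩ hzD
        rw [mem_sphere_zero_iff_norm] at hz
        exact hoff z hz hzD
      obtain ⟨δ, hδ, hsep⟩ := hdis.exists_thickenings hcomp hD
      refine ⟨ball y₀ (δ / 2), mem_nhdsWithin_of_mem_nhds (ball_mem_nhds _ (half_pos hδ)), δ / 2, half_pos hδ, fun y hy => ⟨r, hr0, fun z hz b hbD => ?_⟩⟩
      by_contra hlt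
      push Not at hlt
      have h1 : b ∈ thickening δ ((fun z : ℂ => y₀ + z • a) '' sphere (0 : ℂ) r) := by
        rw [mem_thickening_iff]
        refine ⟨y₀ + z • a, ⟨z, by rwa [mem_sphere_zero_iff_norm], rfl⟩, ?_⟩
        rw [mem_ball, dist_eq_norm] at hy
        rw [dist_eq_norm]
        have h2 : b - (y₀ + z • a) = (y - y₀) - (y + z • a - b) := by abel
        rw [h2]
        exact (norm_sub_le _ _).trans_lt (by linarith)
      exact Set.disjoint_left.1 hsep h1 (self_subset_thickening hδ D hbD)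
  obtain ⟨δ, hδ, h⟩ := hloc
  refine ⟨δ, hδ, fun y => ?_⟩
  obtain ⟨l, hl, hlR⟩ := hR y
  obtain ⟨r, hr, hz⟩ := h (y - l) (by rwa [mem_closedBall, dist_zero_right])
  refine ⟨r, hr, fun z hzr => ?_⟩
  have h1 := gd_add' hinv _ hl (hz z hzr)
  have h2 : y - l + z • a + l = y + z • a := by abel
  rwa [h2] at h1

end Pool.Agent.G4.C
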