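import Pool.Agent.G4.C.Defs
import Pool.Agent.G3.C.XU

/-!
# G4 C FDi: two holomorphic families of curves which agree for real parameters agree

For a point `ζ₂ ∈ U` choose `z₂ ∈ B` such that the local joint lifts `G`, `G'` at `(ζ₂, z₂)` of `W`, `W'` are not `0` at `(ζ₂, z₂)` (the joint lifts at any point `(ζ₂, z)` do not vanish identically on the slice,
so their zeros on the slice are isolated; take a point `z₂` near `z` which is no zero of either, and note that a joint lift at `(ζ₂, z)` is one at the points near it).  Near `(ζ₂, z₂)` we have `W = W'` iff the minors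
`G i * G' j - G j * G' i` vanish (`pr_iff_minors`).  Let `A` be the set of the `ζ ∈ U` such that `W ζ' = W' ζ'` on `B` for all `ζ'` near `ζ`; it is open.  `s₁ ∈ A`: the minors vanish at `(s, z)` for real `s` near `s₁`
and all `z` near `z₂`, they are analytic in `ζ`, so they vanish near `(s₁, z₂)` (identity theorem for each `z`); then `W ζ = W' ζ` near `z₂`, so on `B` (`LL.ident`).  `A` is closed in `U`: if `ζ₂ ∈ U` is a limit of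
points of `A`, the minors vanish on a nonempty open subset of a small ball around `(ζ₂, z₂)`, so on the ball, and again `LL.ident`.
-/

set_option autoImplicit false

open Topology Filter Metric

namespace Pool.Agent.G4.C

open Pool.Agent.H36.BP (EN)
open Pool.Agent.H62.EF (MN pr)
open Pool.Agent.G3.C

variable {N : ℕ}

/-- a ball on which both families have lifts without zeros -/
private structure FDi_Box (W W' : ℂ → ℂ → MN N) (U B : Set ℂ) (ζ₂ z₂ : ℂ) (r : ℝ) (G G' : ℂ × ℂ → EN N) : Prop where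
  pos : 0 < r
  sub : ball ζ₂ r ⊆ U
  sub' : ball z₂ r ⊆ B
  an : ∀ ζ ∈ ball ζ₂ r, ∀ z ∈ ball z₂ r, AnalyticAt ℂ G (ζ, z)
  an' : ∀ ζ ∈ ball ζ₂ r, ∀ z ∈ ball z₂ r, AnalyticAt ℂ G' (ζ, z)
  ne : ∀ ζ ∈ ball ζ₂ r, ∀ z ∈ ball z₂ r, G (ζ, z) ≠ 0
  ne' : ∀ ζ ∈ ball ζ₂ r, ∀ z ∈ ball z₂ r, G' (ζ, z) ≠ 0
  eq : ∀ ζ ∈ ball ζ₂ r, ∀ z ∈ ball z₂ r, W ζ z = pr (G (ζ, z))
  eq' : ∀ ζ ∈ ball ζ₂ r, ∀ z ∈ ball z₂ r, W' ζ z = pr (G' (ζ, z))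

private theorem FDi_ne {G : ℂ × ℂ → EN N} {ζ z : ℂ} (hG : AnalyticAt ℂ G (ζ, z)) (h : ¬ ∀ᶠ w in 𝓝 z, G (ζ, w) = 0) :
    ∀ᶠ w in 𝓝[≠] z, G (ζ, w) ≠ 0 := by
  have hs : AnalyticAt ℂ (fun w : ℂ => ((ζ, w) : ℂ × ℂ)) z := analyticAt_const.prod analyticAt_id
  have h1 : AnalyticAt ℂ (fun w : ℂ => G (ζ, w)) z := AnalyticAt.fun_comp (g := G) (f := fun w : ℂ => ((ζ, w) : ℂ × ℂ)) hG hs
  rcases h1.eventually_eq_zero_or_eventually_ne_zero with h2 | h2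
  · exact absurd h2 h
  · exact h2

private theorem FDi_box {W W' : ℂ → ℂ → MN N} {U B : Set ℂ} (hU : IsOpen U) (hB : IsOpen B) (hW : FDq W (U ×ˢ B)) (hW' : FDq W' (U ×ˢ B))
    {ζ₂ z : ℂ} (hζ : ζ₂ ∈ U) (hz : z ∈ B) : ∃ (z₂ : ℂ) (r : ℝ) (G G' : ℂ × ℂ → EN N), FDi_Box W W' U B ζ₂ z₂ r G G' := by
  obtain ⟨-, G, hG, hG0, hGe⟩ := hW ζ₂ z ⟨hζ, hz⟩
  obtain ⟨-, G', hG', hG0', hGe'⟩ := hW' ζ₂ z ⟨hζ, hz⟩
  have hP : ∀ᶠ p in 𝓝 (ζ₂, z), (AnalyticAt ℂ G p ∧ (G p ≠ 0 → W p.1 p.2 = pr (G p))) ∧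
      (AnalyticAt ℂ G' p ∧ (G' p ≠ 0 → W' p.1 p.2 = pr (G' p))) :=
    (hG.eventually_analyticAt.and hGe).and (hG'.eventually_analyticAt.and hGe')
  have hc : ContinuousAt (fun w : ℂ => ((ζ₂, w) : ℂ × ℂ)) z := by fun_prop
  have hP' : ∀ᶠ w in 𝓝 z, ∀ᶠ p in 𝓝 ((ζ₂, w) : ℂ × ℂ), (AnalyticAt ℂ G p ∧ (G p ≠ 0 → W p.1 p.2 = pr (G p))) ∧
      (AnalyticAt ℂ G' p ∧ (G' p ≠ 0 → W' p.1 p.2 = pr (G' p))) := hc.eventually hP.eventually_nhds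
  obtain ⟨z₂, ⟨h1, h2⟩, h3, h4⟩ := (((FDi_ne hG hG0).and (FDi_ne hG' hG0')).and
    ((hP'.filter_mono nhdsWithin_le_nhds).and (mem_nhdsWithin_of_mem_nhds (hB.mem_nhds hz)))).exists
  have h5 := h3.self_of_nhds
  have h6 : ∀ᶠ p in 𝓝 ((ζ₂, z₂) : ℂ × ℂ), ((AnalyticAt ℂ G p ∧ (G p ≠ 0 → W p.1 p.2 = pr (G p))) ∧
      (AnalyticAt ℂ G' p ∧ (G' p ≠ 0 → W' p.1 p.2 = pr (G' p)))) ∧ (G p ≠ 0 ∧ G' p ≠ 0) ∧ p ∈ U ×ˢ B :=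
    h3.and (((h5.1.1.continuousAt.eventually_ne h1).and (h5.2.1.continuousAt.eventually_ne h2)).and ((hU.prod hB).mem_nhds ⟨hζ, h4⟩))
  obtain ⟨r, hr, hb⟩ := Metric.eventually_nhds_iff_ball.1 h6
  have hm : ∀ ζ ∈ ball ζ₂ r, ∀ w ∈ ball z₂ r, ((ζ, w) : ℂ × ℂ) ∈ ball ((ζ₂, z₂) : ℂ × ℂ) r := fun ζ hζ w hw => by
    rw [← ball_prod_same]
    exact ⟨hζ, hw⟩
  have hζ₂ : ζ₂ ∈ ball ζ₂ r := mem_ball_self hr
  have hz₂ : z₂ ∈ ball z₂ r := mem_ball_self hr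
  exact ⟨z₂, r, G, G', hr, fun ζ h => (hb _ (hm ζ h z₂ hz₂)).2.2.1, fun w h => (hb _ (hm ζ₂ hζ₂ w h)).2.2.2,
    fun ζ h w hw => (hb _ (hm ζ h w hw)).1.1.1, fun ζ h w hw => (hb _ (hm ζ h w hw)).1.2.1,
    fun ζ h w hw => (hb _ (hm ζ h w hw)).2.1.1, fun ζ h w hw => (hb _ (hm ζ h w hw)).2.1.2,
    fun ζ h w hw => (hb _ (hm ζ h w hw)).1.1.2 (hb _ (hm ζ h w hw)).2.1.1,
    fun ζ h w hw => (hb _ (hm ζ h w hw)).1.2.2 (hb _ (hm ζ h w hw)).2.1.2⟩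

private theorem FDi_coord {G : ℂ × ℂ → EN N} {ζ z : ℂ} (hG : AnalyticAt ℂ G (ζ, z)) (i : Fin (N + 1)) : AnalyticAt ℂ (fun w : ℂ => G (w, z) i) ζ := by
  have hs : AnalyticAt ℂ (fun w : ℂ => ((w, z) : ℂ × ℂ)) ζ := analyticAt_id.prod analyticAt_const
  exact Pool.Agent.TG.en_coord_an (AnalyticAt.fun_comp (g := G) (f := fun w : ℂ => ((w, z) : ℂ × ℂ)) hG hs) i

/-- if the families agree for many parameters in the ball, they agree for all parameters in the ball -/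
private theorem FDi_step {W W' : ℂ → ℂ → MN N} {U B : Set ℂ} (hB : IsOpen B) (hBc : IsPreconnected B) (hW : FDq W (U ×ˢ B)) (hW' : FDq W' (U ×ˢ B))
    {ζ₂ z₂ : ℂ} {r : ℝ} {G G' : ℂ × ℂ → EN N} (h : FDi_Box W W' U B ζ₂ z₂ r G G') {ζ₃ : ℂ} (hζ₃ : ζ₃ ∈ ball ζ₂ r)
    (hfr : ∃ᶠ ζ in 𝓝[≠] ζ₃, ∀ z ∈ B, W ζ z = W' ζ z) : ∀ ζ ∈ ball ζ₂ r, ∀ z ∈ B, W ζ z = W' ζ z := by
  have hm : ∀ z ∈ ball z₂ r, ∀ ζ ∈ ball ζ₂ r, ∀ i j, G (ζ, z) i * G' (ζ, z) j - G (ζ, z) j * G' (ζ, z) i = 0 := by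
    intro z hz ζ hζ i j
    have han : AnalyticOnNhd ℂ (fun w : ℂ => G (w, z) i * G' (w, z) j - G (w, z) j * G' (w, z) i) (ball ζ₂ r) := fun w hw =>
      ((FDi_coord (h.an w hw z hz) i).mul (FDi_coord (h.an' w hw z hz) j)).sub ((FDi_coord (h.an w hw z hz) j).mul (FDi_coord (h.an' w hw z hz) i))
    refine han.eqOn_zero_of_preconnected_of_frequently_eq_zero (convex_ball _ _).isPreconnected hζ₃ ?_ hζ
    refine (hfr.and_eventually (mem_nhdsWithin_of_mem_nhds (isOpen_ball.mem_nhds hζ₃))).mono ?_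
    rintro w ⟨h1, h2⟩
    have h3 := h1 z (h.sub' hz)
    rw [h.eq w h2 z hz, h.eq' w h2 z hz] at h3
    exact (pr_iff_minors (h.ne w h2 z hz) (h.ne' w h2 z hz)).1 h3 i j
  intro ζ hζ
  have hz₂ : z₂ ∈ ball z₂ r := mem_ball_self h.pos
  refine LL.ident hB hBc (fun z hz => (hW ζ z ⟨h.sub hζ, hz⟩).1) (fun z hz => (hW' ζ z ⟨h.sub hζ, hz⟩).1) (h.sub' hz₂) ?_
  filter_upwards [isOpen_ball.mem_nhds hz₂] with z hz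
  rw [h.eq ζ hζ z hz, h.eq' ζ hζ z hz]
  exact (pr_iff_minors (h.ne ζ hζ z hz) (h.ne' ζ hζ z hz)).2 (hm z hz ζ hζ)

theorem FDq.ident {W W' : ℂ → ℂ → MN N} {U B : Set ℂ} (hU : IsOpen U) (hUc : IsPreconnected U) (hB : IsOpen B) (hBc : IsPreconnected B) (hW : FDq W (U ×ˢ B))
    (hW' : FDq W' (U ×ˢ B)) {s₁ : ℝ} (hs₁ : (s₁ : ℂ) ∈ U) (h : ∀ᶠ s : ℝ in 𝓝 s₁, ∀ z ∈ B, W s z = W' s z) : ∀ ζ ∈ U, ∀ z ∈ B, W ζ z = W' ζ z := by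
  rcases B.eq_empty_or_nonempty with rfl | ⟨z₀, hz₀⟩
  · exact fun ζ _ z hz => absurd hz (Set.notMem_empty z)
  obtain ⟨A, hA⟩ : ∃ A : Set ℂ, ∀ ζ, ζ ∈ A ↔ ∀ᶠ ξ in 𝓝 ζ, ∀ z ∈ B, W ξ z = W' ξ z := ⟨{ζ | ∀ᶠ ξ in 𝓝 ζ, ∀ z ∈ B, W ξ z = W' ξ z}, fun _ => Iff.rfl⟩
  have hAo : IsOpen A := by
    rw [isOpen_iff_mem_nhds]
    intro ζ hζ
    filter_upwards [((hA ζ).1 hζ).eventually_nhds] with w hw
    exact (hA w).2 hw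
  have hkey : ∀ {ζ₂ z₂ ζ₃ : ℂ} {r : ℝ} {G G' : ℂ × ℂ → EN N}, FDi_Box W W' U B ζ₂ z₂ r G G' → ζ₃ ∈ ball ζ₂ r →
      (∃ᶠ ζ in 𝓝[≠] ζ₃, ∀ z ∈ B, W ζ z = W' ζ z) → ζ₂ ∈ A := by
    intro ζ₂ z₂ ζ₃ r G G' hb hζ₃ hfr
    refine (hA ζ₂).2 ?_
    filter_upwards [isOpen_ball.mem_nhds (mem_ball_self hb.pos)] with ζ hζ
    exact FDi_step hB hBc hW hW' hb hζ₃ hfr ζ hζ
  have h1 : (s₁ : ℂ) ∈ A := by
    obtain ⟨z₂, r, G, G', hb⟩ := FDi_box hU hB hW hW' hs₁ hz₀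
    exact hkey hb (mem_ball_self hb.pos) (real_freq h)
  have hcl : closure A ∩ U ⊆ A := by
    rintro ζ ⟨hζ, hζU⟩
    obtain ⟨z₂, r, G, G', hb⟩ := FDi_box hU hB hW hW' hζU hz₀
    obtain ⟨ζ₃, h2, h3⟩ := mem_closure_iff.1 hζ (ball ζ r) isOpen_ball (mem_ball_self hb.pos)
    exact hkey hb h2 (((hA ζ₃).1 h3).filter_mono nhdsWithin_le_nhds).frequently
  have h2 := hUc.subset_of_closure_inter_subset hAo ⟨s₁, hs₁, h1⟩ hcl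
  exact fun ζ hζ => ((hA ζ).1 (h2 hζ)).self_of_nhds

end Pool.Agent.G4.C
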