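import Pool.Agent.G4.C.FDi
import Pool.Agent.G3.C.LM
import Pool.Agent.G3.C.HankelU

/-!
# G4 C Fill: a family which extends to the complex parameters `ball s₀ ε` near a circle extends to the disc, for all these parameters

Here `ε` is the same in the hypothesis and in the conclusion (in `G3/C/LM`, `lmer_of_circle`, it is not; the proof below uses the same steps with a complex centre `ζ₁` in place of `s₀`).

The lifts of `EAt Φ s₀ z ε`, `dist z z₀ = r`, define `V ζ z` for `ζ ∈ ball s₀ ε`, `|dist z z₀ - r| < ε` (`V ζ z = pr (F (ζ, z))` for any of them: they agree for real `ζ`, so for all `ζ ∈ ball s₀ ε` and `z` in the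
intersection of the two balls, as in `V_eq`), with local joint lifts without zeros, and `V s z = Φ s z` for real `s`.  Let `r₁ < r < r₂`, `A` the annulus.

Say that `ζ` is good if there is a map on `ball z₀ r₂` with local lifts (`LL`) which is `V ζ` on `A`.  Real `ζ` are good.
Local step, at `ζ₁ ∈ ball s₀ ε`: choose a vector `v` and a circle `dist z z₀ = r'` in `A` with `nd v (V ζ₁ z) ≠ 0` on it (finitely many zeros in a smaller closed annulus); then `δ > 0` with `nd v (V ζ z) ≠ 0` for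
`ζ ∈ ball ζ₁ δ`, `|dist z z₀ - r'| < δ` (compactness), `f (ζ, z) = nv v (V ζ z)` is holomorphic there.  `ζ` is good iff `f (ζ, ·)` becomes holomorphic on `ball z₀ (r' + δ)` after multiplication by a nonzero polynomial
(`mero_poly`; for the converse `LL.of_zeros`, and agreement with `V ζ` on `A` by `LL.ident` on the annulus).  If uncountably many `ζ ∈ ball ζ₁ δ` are good then all are (`hankel_fill_unc`), and near `ζ₁` there
is a joint lift (`hankel_joint`, `G` on `ball ζ₁ ε' ×ˢ ball z₀ (r' + δ)`, not identically `0` on the slices).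
The set of the `ζ₁ ∈ ball s₀ ε` such that all `ζ` near `ζ₁` are good is open, nonempty (`s₀`: the real numbers are uncountable) and closed in `ball s₀ ε` (an open set is uncountable), so it is `ball s₀ ε`.
`W ζ` = the map of the definition of good.  Joint lifts: near `(ζ₁, z)`, `z ∈ A`, that of `V`; near `(ζ₁, z)`, `dist z z₀ < r' + δ`, the `G` of the local step: where `G ≠ 0`, `W = pr G` (both have local lifts on the
disc and agree on the annulus: minors).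
-/

set_option autoImplicit false

open Topology Filter Metric

namespace Pool.Agent.G4.C

open Pool.Agent.H36.BP (EN)
open Pool.Agent.H62.EF (MN pr)
open Pool.Agent.G3.C

variable {N : ℕ}

/-- differentiable functions of two variables are analytic -/
private theorem fl_an {F : ℂ × ℂ → EN N} {O : Set (ℂ × ℂ)} (hO : IsOpen O) (hF : DifferentiableOn ℂ F O) {p : ℂ × ℂ} (hp : p ∈ O) : AnalyticAt ℂ F p := by
  obtain ⟨ζ, z⟩ := p
  obtain ⟨r, hr0, hrb⟩ := Metric.isOpen_iff.1 hO _ hp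
  have hcb : ContinuousAt F (ζ, z) := (hF.differentiableAt (hO.mem_nhds hp)).continuousAt
  obtain ⟨r', hr', hM⟩ : ∃ r' > 0, ∀ p ∈ ball (ζ, z) r', ‖F p‖ ≤ ‖F (ζ, z)‖ + 1 := by
    obtain ⟨r', hr', h⟩ := Metric.continuousAt_iff.1 hcb 1 one_pos
    refine ⟨r', hr', fun p hp => ?_⟩
    have h1 := h hp
    rw [dist_eq_norm] at h1
    have h2 := norm_le_norm_add_norm_sub' (F p) (F (ζ, z))
    linarith
  obtain ⟨e, he⟩ : ∃ e, e = min r r' := ⟨_, rfl⟩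
  have he0 : 0 < e := by rw [he]; exact lt_min hr0 hr'
  have her : e ≤ r := by rw [he]; exact min_le_left _ _
  have her' : e ≤ r' := by rw [he]; exact min_le_right _ _
  have hpr : ∀ x ∈ ball ζ e, ∀ y ∈ ball z e, (x, y) ∈ ball (ζ, z) e := fun x hx y hy => by
    rw [← ball_prod_same]
    exact ⟨hx, hy⟩
  have hdf : ∀ x ∈ ball ζ e, ∀ y ∈ ball z e, DifferentiableAt ℂ F (x, y) := fun x hx y hy =>
    hF.differentiableAt (hO.mem_nhds (hrb (ball_subset_ball her (hpr x hx y hy))))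
  exact Pool.Agent.TH.osgood he0 (fun x hx y hy => hM _ (ball_subset_ball her' (hpr x hx y hy)))
    (fun y hy x hx => ((hdf x hx y hy).comp x (differentiableAt_id.prodMk (differentiableAt_const y))).differentiableWithinAt)
    (fun x hx y hy => ((hdf x hx y hy).comp y ((differentiableAt_const x).prodMk differentiableAt_id)).differentiableWithinAt)

/-- points near a circle -/
private theorem fl_near {z z₀ : ℂ} {r δ : ℝ} (hr : 0 < r) (hz : |dist z z₀ - r| < δ) (hδ : δ ≤ r) : ∃ w, dist w z₀ = r ∧ dist z w < δ := by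
  have hd : 0 < dist z z₀ := by
    have := (abs_lt.1 hz).1
    linarith
  refine ⟨z₀ + ((r / dist z z₀ : ℝ) : ℂ) * (z - z₀), ?_, ?_⟩
  · rw [dist_eq_norm, add_sub_cancel_left, norm_mul, Complex.norm_real, Real.norm_of_nonneg (by positivity), ← dist_eq_norm, div_mul_cancel₀ _ hd.ne']
  · have e : z - (z₀ + ((r / dist z z₀ : ℝ) : ℂ) * (z - z₀)) = (((dist z z₀ - r) / dist z z₀ : ℝ) : ℂ) * (z - z₀) := by
      have hdc : ((dist z z₀ : ℝ) : ℂ) ≠ 0 := by exact_mod_cast hd.ne'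
      push_cast
      field_simp
      ring
    rw [dist_eq_norm, e, norm_mul, Complex.norm_real, norm_div, Real.norm_eq_abs, Real.norm_of_nonneg hd.le, ← dist_eq_norm z z₀, div_mul_cancel₀ _ hd.ne']
    exact hz

/-- the point of the circle -/
private theorem fl_pt {z₀ : ℂ} {r : ℝ} (hr : 0 ≤ r) : dist (z₀ + (r : ℂ)) z₀ = r := by
  rw [dist_eq_norm, add_sub_cancel_left, Complex.norm_real, Real.norm_of_nonneg hr]

/-- an uncountable set -/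
private theorem fl_unc {s₀ δ : ℝ} (hδ : 0 < δ) : ¬ ((fun t : ℝ => (t : ℂ)) '' ball s₀ δ).Countable := by
  intro h
  have h1 : (ball s₀ δ).Countable := Set.countable_of_injective_of_countable_image Complex.ofReal_injective.injOn h
  have h2 := h1.dense_compl ℝ
  obtain ⟨x, hx1, hx2⟩ := h2.inter_open_nonempty _ isOpen_ball ⟨s₀, mem_ball_self hδ⟩
  exact hx2 hx1

/-- open sets are uncountable -/
private theorem fl_unc' {O : Set ℂ} (hO : IsOpen O) (hne : O.Nonempty) : ¬ O.Countable := by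
  intro h
  have h2 := h.dense_compl ℝ
  obtain ⟨x, hx1, hx2⟩ := h2.inter_open_nonempty _ hO hne
  exact hx2 hx1

private theorem fl_congr {W W' : ℂ → MN N} {z : ℂ} (h : LL W' z) (he : ∀ᶠ w in 𝓝 z, W w = W' w) : LL W z := by
  obtain ⟨G, h1, h2, h3⟩ := h
  refine ⟨G, h1, h2, ?_⟩
  filter_upwards [h3, he] with w h4 h5
  rw [h5, h4]

private theorem fl_open (z₀ : ℂ) (a b : ℝ) : IsOpen {z : ℂ | a < dist z z₀ ∧ dist z z₀ < b} := by
  have h1 : IsOpen {z : ℂ | a < dist z z₀} := isOpen_lt continuous_const (by fun_prop)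
  have h2 : IsOpen {z : ℂ | dist z z₀ < b} := isOpen_lt (by fun_prop) continuous_const
  exact h1.inter h2

/-- the extension near the circle -/
private theorem fl_V {Φ : ℝ → ℂ → MN N} {s₀ : ℝ} {z₀ : ℂ} {r ε : ℝ} (hr : 0 < r) (hε : 0 < ε) (hE : ∀ z, dist z z₀ = r → EAt Φ s₀ z ε) :
    ∃ V : ℂ → ℂ → MN N, (∀ ζ ∈ ball (s₀ : ℂ) ε, ∀ z, |dist z z₀ - r| < min ε r → ∃ G : ℂ × ℂ → EN N, AnalyticAt ℂ G (ζ, z) ∧ G (ζ, z) ≠ 0 ∧
        ∀ᶠ p in 𝓝 (ζ, z), V p.1 p.2 = pr (G p)) ∧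
      ∀ s : ℝ, (s : ℂ) ∈ ball (s₀ : ℂ) ε → ∀ z, |dist z z₀ - r| < min ε r → V s z = Φ s z := by
  classical
  have hE' : ∀ z, dist z z₀ = r → ∃ F : ℂ × ℂ → EN N, DifferentiableOn ℂ F (ball ((s₀ : ℂ), z) ε) ∧ (∀ p ∈ ball ((s₀ : ℂ), z) ε, F p ≠ 0) ∧
      ∀ (s : ℝ) (w : ℂ), ((s : ℂ), w) ∈ ball ((s₀ : ℂ), z) ε → Φ s w = pr (F (s, w)) := hE
  choose! F hF h0 hrr using hE'
  have hw : ∀ z, |dist z z₀ - r| < min ε r → ∃ w, dist w z₀ = r ∧ dist z w < ε := by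
    intro z hz
    obtain ⟨w, h1, h2⟩ := fl_near hr hz (min_le_right _ _)
    exact ⟨w, h1, h2.trans_le (min_le_left _ _)⟩
  choose! w hw1 hw2 using hw
  have hmem : ∀ {ζ z y : ℂ}, ζ ∈ ball (s₀ : ℂ) ε → dist z y < ε → (ζ, z) ∈ ball ((s₀ : ℂ), y) ε := by
    intro ζ z y h1 h2
    rw [← ball_prod_same]
    exact ⟨h1, h2⟩
  have key : ∀ ζ ∈ ball (s₀ : ℂ) ε, ∀ z y y' : ℂ, dist y z₀ = r → dist y' z₀ = r → dist z y < ε → dist z y' < ε → pr (F y (ζ, z)) = pr (F y' (ζ, z)) := by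
    intro ζ hζ z y y' hy hy' hzy hzy'
    have hd : ∀ {x : ℂ}, dist x z₀ = r → dist z x < ε → ∀ i, DifferentiableOn ℂ (fun t => F x (t, z) i) (ball (s₀ : ℂ) ε) := by
      intro x hx hzx i t ht
      have h1 : DifferentiableAt ℂ (F x) (t, z) := (hF x hx).differentiableAt (isOpen_ball.mem_nhds (hmem ht hzx))
      have h2 : DifferentiableAt ℂ (fun t => F x (t, z)) t := h1.comp t (differentiableAt_id.prodMk (differentiableAt_const z))
      exact ((EuclideanSpace.proj (𝕜 := ℂ) i : EN N →L[ℂ] ℂ).differentiableAt.comp t h2).differentiableWithinAt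
    rw [pr_iff_minors (h0 y hy _ (hmem hζ hzy)) (h0 y' hy' _ (hmem hζ hzy'))]
    intro i j
    have han : AnalyticOnNhd ℂ (fun t => F y (t, z) i * F y' (t, z) j - F y (t, z) j * F y' (t, z) i) (ball (s₀ : ℂ) ε) :=
      (((hd hy hzy i).mul (hd hy' hzy' j)).sub ((hd hy hzy j).mul (hd hy' hzy' i))).analyticOnNhd isOpen_ball
    refine han.eqOn_zero_of_preconnected_of_frequently_eq_zero (convex_ball _ _).isPreconnected (mem_ball_self hε)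
      (real_freq (P := fun t => F y (t, z) i * F y' (t, z) j - F y (t, z) j * F y' (t, z) i = 0) ?_) hζ
    have h1 : ∀ᶠ t : ℝ in 𝓝 s₀, (t : ℂ) ∈ ball (s₀ : ℂ) ε := Complex.continuous_ofReal.continuousAt.eventually_mem (ball_mem_nhds _ hε)
    filter_upwards [h1] with t ht
    have h2 := (hrr y hy t z (hmem ht hzy)).symm.trans (hrr y' hy' t z (hmem ht hzy'))
    exact (pr_iff_minors (h0 y hy _ (hmem ht hzy)) (h0 y' hy' _ (hmem ht hzy'))).1 h2 i j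
  refine ⟨fun ζ z => pr (F (w z) (ζ, z)), ?_, ?_⟩
  · intro ζ hζ z hz
    have hm := hmem hζ (hw2 z hz)
    refine ⟨F (w z), fl_an isOpen_ball (hF (w z) (hw1 z hz)) hm, h0 _ (hw1 z hz) _ hm, ?_⟩
    have h1 : ∀ᶠ p in 𝓝 (ζ, z), p ∈ ball ((s₀ : ℂ), w z) ε := isOpen_ball.mem_nhds hm
    have h2 : ∀ᶠ p : ℂ × ℂ in 𝓝 (ζ, z), |dist p.2 z₀ - r| < min ε r := by
      have hc : ContinuousAt (fun p : ℂ × ℂ => |dist p.2 z₀ - r|) (ζ, z) := by fun_prop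
      exact hc.eventually_lt continuousAt_const hz
    filter_upwards [h1, h2] with p hp1 hp2
    rw [← ball_prod_same] at hp1
    exact key p.1 hp1.1 p.2 _ _ (hw1 _ hp2) (hw1 z hz) (hw2 _ hp2) hp1.2
  · intro s hs z hz
    exact (hrr _ (hw1 z hz) s z (hmem hs (hw2 z hz))).symm

/-- the normalised vector of a value -/
private theorem fl_nv {V : ℂ → MN N} {z : ℂ} (h : LL V z) {v : EN N} (hv : nd v (V z) ≠ 0) : nv v (V z) ≠ 0 ∧ pr (nv v (V z)) = V z := by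
  obtain ⟨G, -, h2, h3⟩ := h
  have h4 := h3.self_of_nhds
  rw [h4] at hv
  have h5 := (nd_pr_ne h2).1 hv
  rw [h4]
  refine ⟨?_, pr_nv h5⟩
  rw [nv_pr h5]
  exact smul_ne_zero (inv_ne_zero h5) h2

/-- a point of the annulus near which a polynomial has no zeros -/
private theorem fl_root {z₀ : ℂ} {a b : ℝ} (ha : 0 ≤ a) (hab : a < b) {q : Polynomial ℂ} (hq : q ≠ 0) :
    ∃ z₁, a < dist z₁ z₀ ∧ dist z₁ z₀ < b ∧ ∀ᶠ z in 𝓝 z₁, q.eval z ≠ 0 ∧ a < dist z z₀ ∧ dist z z₀ < b := by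
  classical
  obtain ⟨ρ, hρ, hρ'⟩ := (Set.Ioo_infinite hab).exists_notMem_finite (q.roots.toFinset.finite_toSet.image fun z => dist z z₀)
  have hd : dist (z₀ + (ρ : ℂ)) z₀ = ρ := fl_pt (ha.trans hρ.1.le)
  have h1 : a < dist (z₀ + (ρ : ℂ)) z₀ := by rw [hd]; exact hρ.1
  have h2 : dist (z₀ + (ρ : ℂ)) z₀ < b := by rw [hd]; exact hρ.2
  have h3 : q.eval (z₀ + (ρ : ℂ)) ≠ 0 := by
    intro h4
    apply hρ'
    refine ⟨z₀ + (ρ : ℂ), ?_, hd⟩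
    rw [Finset.mem_coe, Multiset.mem_toFinset, Polynomial.mem_roots hq]
    exact h4
  refine ⟨z₀ + (ρ : ℂ), h1, h2, ?_⟩
  have h4 : ∀ᶠ z in 𝓝 (z₀ + (ρ : ℂ)), q.eval z ≠ 0 := q.continuous.continuousAt.eventually_ne h3
  have h5 : ∀ᶠ z in 𝓝 (z₀ + (ρ : ℂ)), a < dist z z₀ ∧ dist z z₀ < b := (fl_open z₀ a b).mem_nhds ⟨h1, h2⟩
  exact h4.and h5

/-- from a multiple with zeros to the map -/
private theorem fl_of {V : ℂ → MN N} {z₀ : ℂ} {c a b d : ℝ} (hc : 0 ≤ c) (hca : c ≤ a) (hab : a < b) (hbd : b ≤ d) (hV : ∀ z, c < dist z z₀ → dist z z₀ < d → LL V z) {v : EN N}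
    (hv : ∀ z, a < dist z z₀ → dist z z₀ < b → nd v (V z) ≠ 0) {g : ℂ → EN N} (hg : DifferentiableOn ℂ g (ball z₀ b)) {q : Polynomial ℂ} (hq : q ≠ 0)
    (hgq : ∀ z, a < dist z z₀ → dist z z₀ < b → g z = q.eval z • nv v (V z)) :
    (∃ z₁, a < dist z₁ z₀ ∧ dist z₁ z₀ < b ∧ g z₁ ≠ 0) ∧
    ∃ W : ℂ → MN N, (∀ z ∈ ball z₀ d, LL W z) ∧ (∀ z, c < dist z z₀ → dist z z₀ < d → W z = V z) ∧ ∀ z ∈ ball z₀ b, g z ≠ 0 → W z = pr (g z) := by
  classical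
  obtain ⟨z₁, hz₁a, hz₁b, hz₁⟩ := fl_root (z₀ := z₀) (hc.trans hca) hab hq
  have hgne : ∀ z, a < dist z z₀ → dist z z₀ < b → q.eval z ≠ 0 → g z ≠ 0 ∧ pr (g z) = V z := by
    intro z h1 h2 h3
    obtain ⟨h4, h5⟩ := fl_nv (hV z (hca.trans_lt h1) (h2.trans_le hbd)) (hv z h1 h2)
    rw [hgq z h1 h2]
    exact ⟨smul_ne_zero h3 h4, by rw [Pool.Agent.H62.EF.pr_smul _ h3, h5]⟩
  have hg₁ := (hgne z₁ hz₁a hz₁b hz₁.self_of_nhds.1).1
  refine ⟨⟨z₁, hz₁a, hz₁b, hg₁⟩, ?_⟩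
  obtain ⟨W', hW', hW'g⟩ := LL.of_zeros isOpen_ball (convex_ball z₀ b).isPreconnected hg (mem_ball.2 hz₁b) hg₁
  have hid := LL.ident (W := W') (W' := V) (fl_open z₀ c b) (isPreconnected_annulus z₀ hc) (fun z hz => hW' z (mem_ball.2 hz.2))
    (fun z hz => hV z hz.1 (hz.2.trans_le hbd)) (z₁ := z₁) ⟨hca.trans_lt hz₁a, hz₁b⟩ (by
    filter_upwards [hz₁] with z hz
    obtain ⟨h1, h2⟩ := hgne z hz.2.1 hz.2.2 hz.1
    rw [hW'g z (mem_ball.2 hz.2.2) h1, h2])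
  have hWV : ∀ z, c < dist z z₀ → (if dist z z₀ < b then W' z else V z) = V z := by
    intro z hz
    split_ifs with h1
    · exact hid z ⟨hz, h1⟩
    · rfl
  refine ⟨fun z => if dist z z₀ < b then W' z else V z, ?_, ?_, ?_⟩
  · intro z hz
    by_cases h1 : dist z z₀ < b
    · refine fl_congr (hW' z (mem_ball.2 h1)) ?_
      filter_upwards [isOpen_ball.mem_nhds (mem_ball.2 h1)] with w hw
      exact if_pos (mem_ball.1 hw)
    · have h2 : c < dist z z₀ := (hca.trans_lt hab).trans_le (not_lt.1 h1)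
      refine fl_congr (hV z h2 (mem_ball.1 hz)) ?_
      have hc1 : ContinuousAt (fun w => dist w z₀) z := by fun_prop
      filter_upwards [continuousAt_const.eventually_lt hc1 h2] with w hw
      exact hWV w hw
  · intro z h1 _
    exact hWV z h1
  · intro z hz hne
    have h1 : (if dist z z₀ < b then W' z else V z) = W' z := if_pos (mem_ball.1 hz)
    rw [← hW'g z hz hne]
    exact h1

/-- from the map to a multiple with zeros -/
private theorem fl_to {W : ℂ → MN N} {z₀ : ℂ} {a b d : ℝ} (ha : 0 ≤ a) (hab : a < b) (hbd : b < d) (hW : ∀ z ∈ ball z₀ d, LL W z) {v : EN N}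
    (hv : ∀ z, a < dist z z₀ → dist z z₀ < b → nd v (W z) ≠ 0) :
    ∃ q : Polynomial ℂ, q ≠ 0 ∧ ∃ g : ℂ → Fin (N + 1) → ℂ, DifferentiableOn ℂ g (ball z₀ b) ∧
      ∀ z, a < dist z z₀ → dist z z₀ < b → g z = q.eval z • (fun i => nv v (W z) i) := by
  classical
  obtain ⟨ρ, hρa, hρb⟩ := exists_between hab
  have hd : dist (z₀ + (ρ : ℂ)) z₀ = ρ := fl_pt (ha.trans hρa.le)
  have hiso := LL.nonvan isOpen_ball (convex_ball z₀ d).isPreconnected hW (v := v) (z₁ := z₀ + (ρ : ℂ)) (by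
    rw [mem_ball, hd]
    exact hρb.trans hbd) (hv _ (by rw [hd]; exact hρa) (by rw [hd]; exact hρb))
  have hsub : closedBall z₀ b ⊆ ball z₀ d := closedBall_subset_ball hbd
  have hfin := finite_of_isolated (isCompact_closedBall z₀ b) (P := fun z => nd v (W z) = 0) (fun z hz => hiso z (hsub hz))
  -- local descriptions
  have hinn : ∀ {G : ℂ → EN N} {z : ℂ}, AnalyticAt ℂ G z → AnalyticAt ℂ (fun w => (inner ℂ v (G w) : ℂ)) z := fun hG =>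
    ((innerSL ℂ v).analyticAt _).comp hG
  have hco : ∀ {G : ℂ → EN N} {z : ℂ}, AnalyticAt ℂ G z → ∀ i, AnalyticAt ℂ (fun w => G w i) z := fun hG i =>
    ((EuclideanSpace.proj (𝕜 := ℂ) i : EN N →L[ℂ] ℂ).analyticAt _).comp hG
  obtain ⟨q, hq0, g, hg, hgq⟩ := mero_poly (E := Fin (N + 1) → ℂ) (U := ball z₀ b) isOpen_ball hfin.toFinset (φ := fun z i => nv v (W z) i) (by
    intro z hz hzZ
    have h1 : nd v (W z) ≠ 0 := by
      intro h2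
      apply hzZ
      rw [Set.Finite.mem_toFinset]
      exact ⟨ball_subset_closedBall hz, h2⟩
    obtain ⟨G, hG, hG0, hGe⟩ := hW z (hsub (ball_subset_closedBall hz))
    have h2 := hGe.self_of_nhds
    rw [h2] at h1
    have h3 := (nd_pr_ne hG0).1 h1
    rw [differentiableAt_pi]
    intro i
    have h4 : DifferentiableAt ℂ (fun w => (inner ℂ v (G w) : ℂ)⁻¹ * G w i) z := (((hinn hG).inv h3).mul (hco hG i)).differentiableAt
    refine h4.congr_of_eventuallyEq ?_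
    filter_upwards [hGe, (hinn hG).continuousAt.eventually_ne h3] with w h5 h6
    rw [h5, nv_pr h6]
    rfl) (by
    intro z hz hzU
    obtain ⟨G, hG, hG0, hGe⟩ := hW z (hsub (ball_subset_closedBall hzU))
    have hev0 : ∀ᶠ w in 𝓝[≠] z, (inner ℂ v (G w) : ℂ) ≠ 0 := by
      filter_upwards [hiso z (hsub (ball_subset_closedBall hzU)), hGe.filter_mono nhdsWithin_le_nhds,
        (hG.continuousAt.eventually_ne hG0).filter_mono nhdsWithin_le_nhds] with w h5 h6 h7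
      rw [h6] at h5
      exact (nd_pr_ne h7).1 h5
    have hne : ¬ ∀ᶠ w in 𝓝 z, (inner ℂ v (G w) : ℂ) = 0 := by
      intro h2
      obtain ⟨w, hw1, hw2⟩ := (hev0.and (h2.filter_mono nhdsWithin_le_nhds)).exists
      exact hw1 hw2
    obtain ⟨n, e, he, he0, hev⟩ := ((hinn hG).exists_eventuallyEq_pow_smul_nonzero_iff).2 hne
    refine ⟨n, fun w i => (e w)⁻¹ * G w i, ?_, ?_⟩
    · rw [analyticAt_pi_iff]
      intro i
      exact (he.inv he0).mul (hco hG i)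
    · filter_upwards [hev.filter_mono nhdsWithin_le_nhds, self_mem_nhdsWithin, (he.continuousAt.eventually_ne he0).filter_mono nhdsWithin_le_nhds, hev0,
        hGe.filter_mono nhdsWithin_le_nhds] with w hw1 hw2 hw3 hw4 hw5
      have h3 : (w - z) ^ n ≠ 0 := pow_ne_zero _ (sub_ne_zero.2 hw2)
      funext i
      simp only [Pi.smul_apply, smul_eq_mul]
      rw [hw5, nv_pr hw4]
      simp only [PiLp.smul_apply, smul_eq_mul]
      rw [hw1, smul_eq_mul]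
      field_simp)
  refine ⟨q, hq0, g, hg, fun z hz1 hz2 => ?_⟩
  have hzZ : z ∉ hfin.toFinset := by
    rw [Set.Finite.mem_toFinset]
    exact fun h2 => hv z hz1 hz2 h2.2
  exact hgq z (mem_ball.2 hz2) hzZ

/-- the good parameters -/
private def Gdp (V : ℂ → ℂ → MN N) (z₀ : ℂ) (c d : ℝ) (ζ : ℂ) : Prop :=
  ∃ W : ℂ → MN N, (∀ z ∈ ball z₀ d, LL W z) ∧ ∀ z, c < dist z z₀ → dist z z₀ < d → W z = V ζ z

/-- two maps with local lifts which agree on the annulus -/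
private theorem fl_uniq {W W' V : ℂ → MN N} {z₀ : ℂ} {c d : ℝ} (hc : 0 ≤ c) (hcd : c < d) (hW : ∀ z ∈ ball z₀ d, LL W z) (hW' : ∀ z ∈ ball z₀ d, LL W' z)
    (h : ∀ z, c < dist z z₀ → dist z z₀ < d → W z = V z) (h' : ∀ z, c < dist z z₀ → dist z z₀ < d → W' z = V z) : ∀ z ∈ ball z₀ d, W z = W' z := by
  obtain ⟨z₁, h1, h2, h3⟩ := fl_root (z₀ := z₀) hc hcd (q := 1) one_ne_zero
  refine LL.ident isOpen_ball (convex_ball z₀ d).isPreconnected hW hW' (mem_ball.2 h2) ?_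
  filter_upwards [h3] with z hz
  rw [h z hz.2.1 hz.2.2, h' z hz.2.1 hz.2.2]

private theorem fl_nvd {G : ℂ × ℂ → EN N} {v : EN N} {p : ℂ × ℂ} (hG : AnalyticAt ℂ G p) (hv : (inner ℂ v (G p) : ℂ) ≠ 0) :
    DifferentiableAt ℂ (fun q => (inner ℂ v (G q) : ℂ)⁻¹ • G q) p := by
  have h1 : DifferentiableAt ℂ (fun q => (inner ℂ v (G q) : ℂ)) p := (innerSL ℂ v).differentiableAt.comp p hG.differentiableAt
  exact (h1.inv hv).smul hG.differentiableAt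

/-- the local step -/
private theorem fl_step {V : ℂ → ℂ → MN N} {s₀ z₀ : ℂ} {c d ε : ℝ} (hc : 0 ≤ c) (hcd : c < d)
    (hV : ∀ ζ ∈ ball s₀ ε, ∀ z, c < dist z z₀ → dist z z₀ < d → ∃ G : ℂ × ℂ → EN N, AnalyticAt ℂ G (ζ, z) ∧ G (ζ, z) ≠ 0 ∧ ∀ᶠ p in 𝓝 (ζ, z), V p.1 p.2 = pr (G p))
    {ζ₁ : ℂ} (hζ₁ : ζ₁ ∈ ball s₀ ε) :
    ∃ δ : ℝ, 0 < δ ∧ (¬ {ζ | ζ ∈ ball ζ₁ δ ∧ Gdp V z₀ c d ζ}.Countable → (∀ ζ ∈ ball ζ₁ δ, Gdp V z₀ c d ζ) ∧
      ∀ z, dist z z₀ ≤ c → ∃ G : ℂ × ℂ → EN N, AnalyticAt ℂ G (ζ₁, z) ∧ (¬ ∀ᶠ w in 𝓝 z, G (ζ₁, w) = 0) ∧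
        ∀ᶠ p in 𝓝 (ζ₁, z), G p ≠ 0 → ∀ W : ℂ → MN N, (∀ w ∈ ball z₀ d, LL W w) → (∀ w, c < dist w z₀ → dist w z₀ < d → W w = V p.1 w) → W p.2 = pr (G p)) := by
  classical
  have hVL : ∀ ζ ∈ ball s₀ ε, ∀ z, c < dist z z₀ → dist z z₀ < d → LL (V ζ) z := by
    intro ζ hζ z h1 h2
    obtain ⟨G, hG, hG0, hGe⟩ := hV ζ hζ z h1 h2
    have hcw : ContinuousAt (fun w : ℂ => (ζ, w)) z := by fun_prop
    refine ⟨fun w => G (ζ, w), AnalyticAt.fun_comp hG (analyticAt_const.prod analyticAt_id), hG0, ?_⟩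
    filter_upwards [hcw.eventually hGe] with w hw
    exact hw
  -- the vector
  obtain ⟨ρ, hρc, hρd⟩ := exists_between hcd
  have hdρ : dist (z₀ + (ρ : ℂ)) z₀ = ρ := fl_pt (hc.trans hρc.le)
  obtain ⟨G₁, hG₁, hG₁0, hG₁e⟩ := hV ζ₁ hζ₁ (z₀ + (ρ : ℂ)) (by rw [hdρ]; exact hρc) (by rw [hdρ]; exact hρd)
  obtain ⟨v, hv⟩ : ∃ v, v = G₁ (ζ₁, z₀ + (ρ : ℂ)) := ⟨_, rfl⟩
  have hiso := LL.nonvan (fl_open z₀ c d) (isPreconnected_annulus z₀ hc) (fun z hz => hVL ζ₁ hζ₁ z hz.1 hz.2) (v := v) (z₁ := z₀ + (ρ : ℂ))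
    ⟨by rw [hdρ]; exact hρc, by rw [hdρ]; exact hρd⟩ (by
    have h1 := hG₁e.self_of_nhds
    simp only at h1
    rw [h1, nd_pr_ne hG₁0, hv]
    exact inner_self_ne_zero.2 hG₁0)
  -- the circle
  obtain ⟨c', hc'1, hc'2⟩ := exists_between hρc
  obtain ⟨d', hd'1, hd'2⟩ := exists_between hρd
  have hK : IsCompact {z : ℂ | c' ≤ dist z z₀ ∧ dist z z₀ ≤ d'} := by
    refine (isCompact_closedBall z₀ d').of_isClosed_subset ?_ fun z hz => mem_closedBall.2 hz.2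
    have h1 : IsClosed {z : ℂ | c' ≤ dist z z₀} := isClosed_le continuous_const (by fun_prop)
    have h2 : IsClosed {z : ℂ | dist z z₀ ≤ d'} := isClosed_le (by fun_prop) continuous_const
    exact h1.inter h2
  have hfin := finite_of_isolated hK (P := fun z => nd v (V ζ₁ z) = 0) (fun z hz => hiso z ⟨hc'1.trans_le hz.1, hz.2.trans_lt hd'2⟩)
  obtain ⟨r', hr'1, hr'2⟩ := (Set.Ioo_infinite (hc'2.trans hd'1)).exists_notMem_finite (hfin.image fun z => dist z z₀)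
  have hcr : c < r' := hc'1.trans hr'1.1
  have hrd : r' < d := hr'1.2.trans hd'2
  have hr'0 : 0 < r' := hc.trans_lt hcr
  have hsph : ∀ z, dist z z₀ = r' → nd v (V ζ₁ z) ≠ 0 := by
    intro z hz h1
    refine hr'2 ⟨z, ⟨⟨?_, ?_⟩, h1⟩, hz⟩
    · rw [hz]; exact hr'1.1.le
    · rw [hz]; exact hr'1.2.le
  -- joint nonvanishing near the circle
  obtain ⟨O', hO'⟩ : ∃ O' : Set (ℂ × ℂ), O' = {p | ∀ᶠ q in 𝓝 p, q.1 ∈ ball s₀ ε ∧ (c < dist q.2 z₀ ∧ dist q.2 z₀ < d) ∧ nd v (V q.1 q.2) ≠ 0} := ⟨_, rfl⟩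
  have hO'o : IsOpen O' := by
    rw [hO']
    exact isOpen_setOfPred_eventually_nhds
  have hKO : ({ζ₁} : Set ℂ) ×ˢ sphere z₀ r' ⊆ O' := by
    rintro ⟨ζ, z⟩ ⟨hζ, hz⟩
    simp only [Set.mem_singleton_iff] at hζ
    subst hζ
    have hz' : dist z z₀ = r' := hz
    have hz1 : c < dist z z₀ := by rw [hz']; exact hcr
    have hz2 : dist z z₀ < d := by rw [hz']; exact hrd
    obtain ⟨G, hG, hG0, hGev⟩ := hV ζ hζ₁ z hz1 hz2
    have hnd : nd v (pr (G (ζ, z))) ≠ 0 := by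
      have h1 := hGev.self_of_nhds
      simp only at h1
      rw [← h1]
      exact hsph z hz'
    have hcc : ContinuousAt (fun p => nd v (pr (G p))) (ζ, z) :=
      ContinuousAt.comp (g := nd v) (nd_cont v).continuousAt (ContinuousAt.comp (g := pr) (Pool.Agent.H62.EF.continuousAt_pr hG0) hG.continuousAt)
    rw [hO']
    have h2 : ∀ᶠ p : ℂ × ℂ in 𝓝 (ζ, z), p.1 ∈ ball s₀ ε := by
      have hc1 : ContinuousAt (fun p : ℂ × ℂ => p.1) (ζ, z) := by fun_prop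
      exact hc1.eventually_mem (isOpen_ball.mem_nhds hζ₁)
    have h3 : ∀ᶠ p : ℂ × ℂ in 𝓝 (ζ, z), c < dist p.2 z₀ ∧ dist p.2 z₀ < d := by
      have hc1 : ContinuousAt (fun p : ℂ × ℂ => p.2) (ζ, z) := by fun_prop
      exact hc1.eventually_mem ((fl_open z₀ c d).mem_nhds ⟨hz1, hz2⟩)
    filter_upwards [h2, h3, hGev, hcc.eventually_ne hnd] with p hp1 hp2 hp3 hp4
    refine ⟨hp1, hp2, ?_⟩
    rw [hp3]
    exact hp4
  obtain ⟨δ₁, hδ₁, hthick⟩ := (isCompact_singleton.prod (isCompact_sphere z₀ r')).exists_thickening_subset_open hO'o hKO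
  obtain ⟨δ, hδ, hδδ₁, hδ1, hδ2, hδ3⟩ : ∃ δ : ℝ, 0 < δ ∧ δ ≤ δ₁ ∧ δ ≤ r' / 2 ∧ δ ≤ (d - r') / 2 ∧ δ ≤ r' - c := by
    refine ⟨min δ₁ (min (r' / 2) (min ((d - r') / 2) (r' - c))), ?_, min_le_left _ _, (min_le_right _ _).trans (min_le_left _ _),
      (min_le_right _ _).trans ((min_le_right _ _).trans (min_le_left _ _)), (min_le_right _ _).trans ((min_le_right _ _).trans (min_le_right _ _))⟩
    exact lt_min hδ₁ (lt_min (by linarith) (lt_min (by linarith) (by linarith)))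
  have hmem : ∀ ζ ∈ ball ζ₁ δ, ∀ z, |dist z z₀ - r'| < δ → (ζ, z) ∈ O' := by
    intro ζ hζ z hz
    obtain ⟨w, hw, hzw⟩ := fl_near hr'0 hz (by linarith)
    apply hthick
    rw [mem_thickening_iff]
    refine ⟨(ζ₁, w), ⟨rfl, hw⟩, ?_⟩
    rw [Prod.dist_eq]
    exact max_lt ((mem_ball.1 hζ).trans_le hδδ₁) (hzw.trans_le hδδ₁)
  obtain ⟨a, ha⟩ : ∃ a, a = r' - δ := ⟨_, rfl⟩
  obtain ⟨b, hb⟩ : ∃ b, b = r' + δ := ⟨_, rfl⟩
  have ha0 : 0 < a := by rw [ha]; linarith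
  have hca : c ≤ a := by rw [ha]; linarith
  have hab : a < b := by rw [ha, hb]; linarith
  have hbd : b < d := by rw [hb]; linarith
  have hmem' : ∀ ζ ∈ ball ζ₁ δ, ∀ z, a < dist z z₀ → dist z z₀ < b →
      ∀ᶠ q in 𝓝 (ζ, z), q.1 ∈ ball s₀ ε ∧ (c < dist q.2 z₀ ∧ dist q.2 z₀ < d) ∧ nd v (V q.1 q.2) ≠ 0 := by
    intro ζ hζ z h1 h2
    have h3 : (ζ, z) ∈ O' := by
      apply hmem ζ hζ z
      rw [ha] at h1
      rw [hb] at h2
      rw [abs_lt]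
      constructor <;> linarith
    rw [hO'] at h3
    exact h3
  obtain ⟨z₁, hz₁a, hz₁b, -⟩ := fl_root (z₀ := z₀) ha0.le hab (q := 1) one_ne_zero
  have hsub : ∀ ζ ∈ ball ζ₁ δ, ζ ∈ ball s₀ ε := fun ζ hζ => (hmem' ζ hζ z₁ hz₁a hz₁b).self_of_nhds.1
  have hndv : ∀ ζ ∈ ball ζ₁ δ, ∀ z, a < dist z z₀ → dist z z₀ < b → nd v (V ζ z) ≠ 0 := fun ζ hζ z h1 h2 => (hmem' ζ hζ z h1 h2).self_of_nhds.2.2
  -- the functions on the annulus
  obtain ⟨f, hf⟩ : ∃ f : ℂ × ℂ → Fin (N + 1) → ℂ, ∀ p i, f p i = nv v (V p.1 p.2) i := ⟨fun p i => nv v (V p.1 p.2) i, fun _ _ => rfl⟩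
  have hfd : DifferentiableOn ℂ f (ball ζ₁ δ ×ˢ {z | a < dist z z₀ ∧ dist z z₀ < b}) := by
    rintro ⟨ζ, z⟩ ⟨hζ, hz1, hz2⟩
    have h1 := hmem' ζ hζ z hz1 hz2
    obtain ⟨G, hG, hG0, hGev⟩ := hV ζ (hsub ζ hζ) z (hca.trans_lt hz1) (hz2.trans hbd)
    have h2 : DifferentiableAt ℂ (fun q => (inner ℂ v (G q) : ℂ)⁻¹ • G q) (ζ, z) := by
      refine fl_nvd hG ?_
      have h3 := hndv ζ hζ z hz1 hz2
      have h4 := hGev.self_of_nhds
      simp only at h4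
      rw [h4] at h3
      exact (nd_pr_ne hG0).1 h3
    refine DifferentiableAt.differentiableWithinAt ?_
    rw [differentiableAt_pi]
    intro i
    have h3 : DifferentiableAt ℂ (fun q => ((inner ℂ v (G q) : ℂ)⁻¹ • G q) i) (ζ, z) :=
      (EuclideanSpace.proj (𝕜 := ℂ) i : EN N →L[ℂ] ℂ).differentiableAt.comp (ζ, z) h2
    refine h3.congr_of_eventuallyEq ?_
    filter_upwards [h1, hGev, hG.continuousAt.eventually_ne hG0] with q hq1 hq2 hq3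
    have h5 := hq1.2.2
    rw [hq2] at h5
    rw [hf, hq2, nv_pr ((nd_pr_ne hq3).1 h5)]
  refine ⟨δ, hδ, fun hunc => ?_⟩
  have hq : ∀ ζ ∈ {ζ | ζ ∈ ball ζ₁ δ ∧ Gdp V z₀ c d ζ}, ∃ q : Polynomial ℂ, q ≠ 0 ∧ ∃ g : ℂ → Fin (N + 1) → ℂ, DifferentiableOn ℂ g (ball z₀ b) ∧
      ∀ z, a < dist z z₀ → dist z z₀ < b → g z = q.eval z • f (ζ, z) := by
    rintro ζ ⟨hζ, W, hW, hWV⟩
    have hWV' : ∀ z, a < dist z z₀ → dist z z₀ < b → W z = V ζ z := fun z h1 h2 => hWV z (hca.trans_lt h1) (h2.trans hbd)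
    obtain ⟨q, hq0, g, hg, hgq⟩ := fl_to ha0.le hab hbd hW (v := v) (fun z h1 h2 => by
      rw [hWV' z h1 h2]
      exact hndv ζ hζ z h1 h2)
    refine ⟨q, hq0, g, hg, fun z h1 h2 => ?_⟩
    rw [hgq z h1 h2, hWV' z h1 h2]
    congr 1
    funext i
    rw [hf]
  have hTsub : {ζ | ζ ∈ ball ζ₁ δ ∧ Gdp V z₀ c d ζ} ⊆ ball ζ₁ δ := fun ζ hζ => hζ.1
  refine ⟨?_, ?_⟩
  · intro ζ hζ
    obtain ⟨q, hq0, g, hg, hgq⟩ := hankel_fill_unc hδ ha0 hab hfd hTsub hunc hq ζ hζ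
    obtain ⟨F, hF⟩ : ∃ F : ℂ → EN N, ∀ z i, F z i = g z i := ⟨fun z => WithLp.toLp 2 (g z), fun _ _ => rfl⟩
    have hFd : DifferentiableOn ℂ F (ball z₀ b) := by
      rw [differentiableOn_piLp]
      intro i
      simp only [hF]
      exact (differentiableOn_pi.1 hg) i
    obtain ⟨-, W, hW, hWV, -⟩ := fl_of hc hca hab hbd.le (hVL ζ (hsub ζ hζ)) (hndv ζ hζ) hFd hq0 (fun z h1 h2 => by
      ext i
      rw [hF, hgq z h1 h2, Pi.smul_apply, hf]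
      rfl)
    exact ⟨W, hW, hWV⟩
  · obtain ⟨e, he, heδ, Q, G, -, hQp, hG, hGQ⟩ := hankel_joint hδ ha0 hab hfd hTsub hunc hq
    obtain ⟨F, hF⟩ : ∃ F : ℂ × ℂ → EN N, ∀ p i, F p i = G p i := ⟨fun p => WithLp.toLp 2 (G p), fun _ _ => rfl⟩
    have hFd : DifferentiableOn ℂ F (ball ζ₁ e ×ˢ ball z₀ b) := by
      rw [differentiableOn_piLp]
      intro i
      simp only [hF]
      exact (differentiableOn_pi.1 hG) i
    have hopen : IsOpen (ball ζ₁ e ×ˢ ball z₀ b) := isOpen_ball.prod isOpen_ball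
    have hFz : ∀ ζ ∈ ball ζ₁ e, DifferentiableOn ℂ (fun z => F (ζ, z)) (ball z₀ b) := by
      intro ζ hζ z hz
      have h1 : DifferentiableAt ℂ F (ζ, z) := hFd.differentiableAt (hopen.mem_nhds ⟨hζ, hz⟩)
      exact (h1.comp z ((differentiableAt_const ζ).prodMk differentiableAt_id)).differentiableWithinAt
    have hof : ∀ ζ ∈ ball ζ₁ e, (∃ z₁, a < dist z₁ z₀ ∧ dist z₁ z₀ < b ∧ F (ζ, z₁) ≠ 0) ∧
        ∃ W : ℂ → MN N, (∀ z ∈ ball z₀ d, LL W z) ∧ (∀ z, c < dist z z₀ → dist z z₀ < d → W z = V ζ z) ∧ ∀ z ∈ ball z₀ b, F (ζ, z) ≠ 0 → W z = pr (F (ζ, z)) := by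
      intro ζ hζ
      have hζδ := ball_subset_ball heδ hζ
      obtain ⟨q, hq0, hqe⟩ := hQp ζ hζ
      refine fl_of hc hca hab hbd.le (hVL ζ (hsub ζ hζδ)) (hndv ζ hζδ) (hFz ζ hζ) hq0 (fun z h1 h2 => ?_)
      ext i
      rw [hF, hGQ ζ hζ z h1 h2, Pi.smul_apply, hf, hqe]
      rfl
    intro z hz
    have hzb : z ∈ ball z₀ b := mem_ball.2 (hz.trans_lt (hca.trans_lt hab))
    refine ⟨F, fl_an hopen hFd ⟨mem_ball_self he, hzb⟩, ?_, ?_⟩
    · intro hcon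
      obtain ⟨⟨z₂, -, hz₂, hne⟩, -⟩ := hof ζ₁ (mem_ball_self he)
      have han : AnalyticOnNhd ℂ (fun z => F (ζ₁, z)) (ball z₀ b) := (hFz ζ₁ (mem_ball_self he)).analyticOnNhd isOpen_ball
      exact hne (han.eqOn_zero_of_preconnected_of_eventuallyEq_zero (convex_ball _ _).isPreconnected hzb hcon (mem_ball.2 hz₂))
    · have h1 : ∀ᶠ p in 𝓝 (ζ₁, z), p ∈ ball ζ₁ e ×ˢ ball z₀ b := hopen.mem_nhds ⟨mem_ball_self he, hzb⟩
      filter_upwards [h1] with p hp hne W hW hWV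
      obtain ⟨-, W', hW', hW'V, hW'F⟩ := hof p.1 hp.1
      rw [fl_uniq hc hcd hW hW' hWV hW'V p.2 (ball_subset_ball hbd.le hp.2)]
      exact hW'F p.2 hp.2 hne

theorem fill {Φ : ℝ → ℂ → MN N} (hl : ∀ s : ℝ, ∃ F : ℂ → EN N, Differentiable ℂ F ∧ (∀ z, F z ≠ 0) ∧ ∀ z, Φ s z = pr (F z)) {s₀ : ℝ} {z₀ : ℂ} {r ε : ℝ} (hr : 0 < r) (hε : 0 < ε)
    (hE : ∀ z, dist z z₀ = r → EAt Φ s₀ z ε) :
    ∃ (W : ℂ → ℂ → MN N) (r₂ : ℝ), r < r₂ ∧ FDq W (ball (s₀ : ℂ) ε ×ˢ ball z₀ r₂) ∧ ∀ s : ℝ, (s : ℂ) ∈ ball (s₀ : ℂ) ε → ∀ z ∈ ball z₀ r₂, W s z = Φ s z := by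
  classical
  obtain ⟨V, hV, hVr⟩ := fl_V hr hε hE
  obtain ⟨c, hc⟩ : ∃ c, c = r - min ε r := ⟨_, rfl⟩
  obtain ⟨d, hd⟩ : ∃ d, d = r + min ε r := ⟨_, rfl⟩
  have hm0 : 0 < min ε r := lt_min hε hr
  have hmr : min ε r ≤ r := min_le_right _ _
  have hc0 : 0 ≤ c := by rw [hc]; linarith
  have hcd : c < d := by rw [hc, hd]; linarith
  have hrd : r < d := by rw [hd]; linarith
  have habs : ∀ z, c < dist z z₀ → dist z z₀ < d → |dist z z₀ - r| < min ε r := by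
    intro z h1 h2
    rw [hc] at h1
    rw [hd] at h2
    rw [abs_lt]
    constructor <;> linarith
  have hV' : ∀ ζ ∈ ball (s₀ : ℂ) ε, ∀ z, c < dist z z₀ → dist z z₀ < d →
      ∃ G : ℂ × ℂ → EN N, AnalyticAt ℂ G (ζ, z) ∧ G (ζ, z) ≠ 0 ∧ ∀ᶠ p in 𝓝 (ζ, z), V p.1 p.2 = pr (G p) := fun ζ hζ z h1 h2 => hV ζ hζ z (habs z h1 h2)
  have hΦL : ∀ (s : ℝ) (z : ℂ), LL (Φ s) z := by
    intro s z
    obtain ⟨F, hF, hF0, hFΦ⟩ := hl s
    exact ⟨F, hF.analyticAt z, hF0 z, Eventually.of_forall hFΦ⟩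
  have hreal : ∀ s : ℝ, (s : ℂ) ∈ ball (s₀ : ℂ) ε → Gdp V z₀ c d s := by
    intro s hs
    exact ⟨Φ s, fun z _ => hΦL s z, fun z h1 h2 => (hVr s hs z (habs z h1 h2)).symm⟩
  have hcl : ∀ ζ₁ ∈ ball (s₀ : ℂ) ε, (∀ δ : ℝ, 0 < δ → ¬ {ζ | ζ ∈ ball ζ₁ δ ∧ Gdp V z₀ c d ζ}.Countable) → ∀ᶠ ζ in 𝓝 ζ₁, Gdp V z₀ c d ζ := by
    intro ζ₁ hζ₁ h
    obtain ⟨δ, hδ, h1⟩ := fl_step hc0 hcd hV' hζ₁
    filter_upwards [ball_mem_nhds ζ₁ hδ] with ζ hζ
    exact (h1 (h δ hδ)).1 ζ hζ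
  have hsub : ball (s₀ : ℂ) ε ⊆ {ζ | ∀ᶠ ζ' in 𝓝 ζ, Gdp V z₀ c d ζ'} := by
    refine (convex_ball (s₀ : ℂ) ε).isPreconnected.subset_of_closure_inter_subset isOpen_setOfPred_eventually_nhds ⟨(s₀ : ℂ), mem_ball_self hε, ?_⟩ ?_
    · refine hcl _ (mem_ball_self hε) fun δ hδ h => ?_
      refine fl_unc (s₀ := s₀) (δ := min δ ε) (lt_min hδ hε) (h.mono ?_)
      rintro _ ⟨t, ht, rfl⟩
      have h2 : dist (t : ℂ) (s₀ : ℂ) < min δ ε := by
        rw [dist_eq_norm, ← Complex.ofReal_sub, Complex.norm_real, ← dist_eq_norm]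
        exact ht
      exact ⟨mem_ball.2 (h2.trans_le (min_le_left _ _)), hreal t (mem_ball.2 (h2.trans_le (min_le_right _ _)))⟩
    · rintro ζ₁ ⟨hζ₁, hζ₁b⟩
      refine hcl ζ₁ hζ₁b fun δ hδ h => ?_
      obtain ⟨ζ₂, hζ₂, hζ₂'⟩ := mem_closure_iff.1 hζ₁ (ball ζ₁ δ) isOpen_ball (mem_ball_self hδ)
      have hζ₂'' : ∀ᶠ ζ' in 𝓝 ζ₂, Gdp V z₀ c d ζ' := hζ₂'
      obtain ⟨O, hO, hOo, hζO⟩ := _root_.mem_nhds_iff.1 (hζ₂''.and (isOpen_ball.mem_nhds hζ₂ : ∀ᶠ ζ' in 𝓝 ζ₂, ζ' ∈ ball ζ₁ δ))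
      exact fl_unc' hOo ⟨ζ₂, hζO⟩ (h.mono fun ζ hζ => (⟨(hO hζ).2, (hO hζ).1⟩ : ζ ∈ ball ζ₁ δ ∧ Gdp V z₀ c d ζ))
  have hgood : ∀ ζ, ∃ W : ℂ → MN N, ζ ∈ ball (s₀ : ℂ) ε → (∀ z ∈ ball z₀ d, LL W z) ∧ ∀ z, c < dist z z₀ → dist z z₀ < d → W z = V ζ z := by
    intro ζ
    by_cases h : ζ ∈ ball (s₀ : ℂ) ε
    · obtain ⟨W, h1, h2⟩ := (hsub h).self_of_nhds
      exact ⟨W, fun _ => ⟨h1, h2⟩⟩
    · exact ⟨0, fun h' => absurd h' h⟩
  choose W hW using hgood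
  refine ⟨W, d, hrd, ?_, ?_⟩
  · rintro ζ z ⟨hζ, hz⟩
    simp only at hζ hz
    refine ⟨(hW ζ hζ).1 z hz, ?_⟩
    by_cases h1 : c < dist z z₀
    · obtain ⟨G, hG, hG0, hGe⟩ := hV' ζ hζ z h1 (mem_ball.1 hz)
      refine ⟨G, hG, ?_, ?_⟩
      · intro h2
        exact hG0 h2.self_of_nhds
      · have h2 : ∀ᶠ p : ℂ × ℂ in 𝓝 (ζ, z), p.1 ∈ ball (s₀ : ℂ) ε := by
          have hc1 : ContinuousAt (fun p : ℂ × ℂ => p.1) (ζ, z) := by fun_prop
          exact hc1.eventually_mem (isOpen_ball.mem_nhds hζ)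
        have h3 : ∀ᶠ p : ℂ × ℂ in 𝓝 (ζ, z), c < dist p.2 z₀ ∧ dist p.2 z₀ < d := by
          have hc1 : ContinuousAt (fun p : ℂ × ℂ => p.2) (ζ, z) := by fun_prop
          exact hc1.eventually_mem ((fl_open z₀ c d).mem_nhds ⟨h1, mem_ball.1 hz⟩)
        filter_upwards [hGe, h2, h3] with p hp1 hp2 hp3 _
        rw [(hW p.1 hp2).2 p.2 hp3.1 hp3.2, hp1]
    · obtain ⟨δ, hδ, h2⟩ := fl_step hc0 hcd hV' hζ
      have h3 : ¬ {ζ' | ζ' ∈ ball ζ δ ∧ Gdp V z₀ c d ζ'}.Countable := by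
        intro h
        obtain ⟨O, hO, hOo, hζO⟩ := _root_.mem_nhds_iff.1 ((hsub hζ : ∀ᶠ ζ' in 𝓝 ζ, Gdp V z₀ c d ζ').and (ball_mem_nhds ζ hδ : ∀ᶠ ζ' in 𝓝 ζ, ζ' ∈ ball ζ δ))
        exact fl_unc' hOo ⟨ζ, hζO⟩ (h.mono fun ζ' hζ' => (⟨(hO hζ').2, (hO hζ').1⟩ : ζ' ∈ ball ζ δ ∧ Gdp V z₀ c d ζ'))
      obtain ⟨G, hG, hG0, hGe⟩ := (h2 h3).2 z (not_lt.1 h1)
      refine ⟨G, hG, hG0, ?_⟩
      have h4 : ∀ᶠ p : ℂ × ℂ in 𝓝 (ζ, z), p.1 ∈ ball (s₀ : ℂ) ε := by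
        have hc1 : ContinuousAt (fun p : ℂ × ℂ => p.1) (ζ, z) := by fun_prop
        exact hc1.eventually_mem (isOpen_ball.mem_nhds hζ)
      filter_upwards [hGe, h4] with p hp1 hp2 hne
      exact hp1 hne (W p.1) (hW p.1 hp2).1 (hW p.1 hp2).2
  · intro s hs z hz
    exact fl_uniq hc0 hcd (hW s hs).1 (fun z _ => hΦL s z) (hW s hs).2 (fun z h1 h2 => (hVr s hs z (habs z h1 h2)).symm) z hz

end Pool.Agent.G4.C
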