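import Pool.Agent.G4.C.GCs
import Pool.Agent.H62.EF.PrLip

/-!
# G4 C GCa: at a point which is not bad the family is smooth for an open dense set of parameters

`window`: `dt_iso` at `(s₀, z₀)` gives `r`, the closed sets `Dt`, `Bd` and compactness give `δ`.
`baire`: `K n = {s ∈ J | Φ s is n-Lipschitz on closedBall z₀ r}`, `J = Ioo (s₀ - δ) (s₀ + δ)`.  `K n ∪ Jᶜ` is closed: for `z`, `z'` off `Dt` on the leaf `s` the family is continuous at
`(s, z)`, `(s, z')` (`smo`), these `z` are dense (`dt_iso`) and `Φ s` is continuous.  Every `Φ s = pr ∘ F` is Lipschitz on the compact convex set `closedBall z₀ r`.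
`dense_iUnion_interior_of_closed`.
`good_dense`: `baire` in every small interval, `smo_of_lip` in the open ball; the points of the sphere are off `Dt` (`smo`).
-/

set_option autoImplicit false

open Topology Filter Metric

namespace Pool.Agent.G4.C

open Pool.Agent.H36.BP (EN fs wd)
open Pool.Agent.H14.PP (IsCone)
open Pool.Agent.H62.EF (MN pr)
open Pool.Agent.AD (Vd Chart Charts)
open Pool.Agent.TG (TMap Lat Str ms tl)
open Pool.Agent.G3.C

variable {N k : ℕ} {X : Set (EN N)} {Λ : AddSubgroup (Vd (k + 1))} {u : EN N → Vd (k + 1)} {ν a b c : Vd (k + 1)} {m : ℕ} {ρ : ℝ}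
  {Dt Bd : Set (ℂ × ℂ)} {Φ : ℝ → ℂ → MN N}

theorem window (D : SDat X Λ u a ν b Dt Bd Φ) {s₀ : ℝ} {z₀ : ℂ} (h : ((s₀ : ℂ), z₀) ∉ Bd) :
    ∃ r δ : ℝ, 0 < r ∧ 0 < δ ∧ (∀ s : ℝ, |s - s₀| ≤ δ → ∀ z ∈ sphere z₀ r, ((s : ℂ), z) ∉ Dt) ∧
      ∀ s : ℝ, |s - s₀| ≤ δ → ∀ z ∈ closedBall z₀ r, ((s : ℂ), z) ∉ Bd := by
  have hc : Continuous fun q : ℝ × ℂ => ((q.1 : ℂ), q.2) := (Complex.continuous_ofReal.comp continuous_fst).prodMk continuous_snd
  obtain ⟨ε, hε, hεB⟩ := Metric.isOpen_iff.1 D.bd_closed.isOpen_compl ((s₀ : ℂ), z₀) h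
  obtain ⟨ε₂, hε₂, hD⟩ := Metric.eventually_nhds_iff.1 (eventually_nhdsWithin_iff.1 (D.dt_iso s₀ z₀))
  have hm : 0 < min ε ε₂ := lt_min hε hε₂
  have h1 := min_le_left ε ε₂
  have h2 := min_le_right ε ε₂
  have hS : ∀ᶠ s : ℝ in 𝓝 s₀, ∀ z ∈ sphere z₀ (min ε ε₂ / 2), ((s : ℂ), z) ∉ Dt := by
    refine (isCompact_sphere z₀ (min ε ε₂ / 2)).eventually_forall_of_forall_eventually fun z hz => ?_
    have hz1 : dist z z₀ = min ε ε₂ / 2 := hz
    have hne : z ∈ ({z₀}ᶜ : Set ℂ) := by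
      intro h0
      rw [Set.mem_singleton_iff] at h0
      rw [h0, dist_self] at hz1
      linarith
    have h3 : ((s₀ : ℂ), z) ∉ Dt := hD (by linarith) hne
    have h4 : (fun q : ℝ × ℂ => ((q.1 : ℂ), q.2)) (s₀, z) ∈ Dtᶜ := h3
    exact hc.continuousAt.eventually (D.dt_closed.isOpen_compl.mem_nhds h4)
  obtain ⟨δ, hδ, hδS⟩ := Metric.eventually_nhds_iff.1 hS
  refine ⟨min ε ε₂ / 2, min (δ / 2) (ε / 2), by positivity, lt_min (by positivity) (by positivity), fun s hs z hz => ?_, fun s hs z hz => ?_⟩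
  · refine hδS ?_ z hz
    rw [Real.dist_eq]
    linarith [hs.trans (min_le_left _ _)]
  · have h5 : ((s : ℂ), z) ∈ ball ((s₀ : ℂ), z₀) ε := by
      rw [mem_ball, Prod.dist_eq]
      refine max_lt ?_ ?_
      · have h6 : dist (s : ℂ) (s₀ : ℂ) = |s - s₀| := by
          rw [dist_eq_norm, ← Complex.ofReal_sub, Complex.norm_real, Real.norm_eq_abs]
        show dist (s : ℂ) (s₀ : ℂ) < ε
        rw [h6]
        linarith [hs.trans (min_le_right _ _)]
      · have h7 : dist z z₀ ≤ min ε ε₂ / 2 := hz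
        show dist z z₀ < ε
        linarith
    exact hεB h5

/-- the curves are Lipschitz on discs -/
private theorem lip_of_curve (hX : IsCone X) {y : Vd (k + 1)} {F : ℂ → EN N} (hF : F ∈ Gc X Λ u a y) (z₀ : ℂ) (r : ℝ) :
    ∃ n : ℕ, ∀ z ∈ closedBall z₀ r, ∀ z' ∈ closedBall z₀ r, dist (pr (F z)) (pr (F z')) ≤ n * ‖z - z'‖ := by
  have h0 : ∀ z, F z ≠ 0 := fun z h => hX.zero_notMem (h ▸ hF.2.1 z)
  have hFd : Differentiable ℂ F := hF.1
  have hFc : Continuous F := hFd.continuous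
  have hd : Continuous (deriv F) := (hFd.contDiff (n := 1)).continuous_deriv le_rfl
  obtain ⟨g, hg⟩ : ∃ g : ℂ → ℝ, g = fun z => fs (F z) (deriv F z) := ⟨_, rfl⟩
  have hfs : Continuous g := by
    have hp : Continuous fun z => ((F z, deriv F z) : EN N × EN N) := hFc.prodMk hd
    have h1 : Continuous ((fun p : EN N × EN N => wd p.1 p.2) ∘ fun z => ((F z, deriv F z) : EN N × EN N)) :=
      (Pool.Agent.H36.BP.wd_cont (N := N)).comp hp
    have h2 : Continuous fun z => ‖F z‖ ^ 2 := hFc.norm.pow 2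
    have h3 : Continuous fun z => wd (F z) (deriv F z) / ‖F z‖ ^ 2 := h1.div h2 fun z => pow_ne_zero 2 (norm_ne_zero_iff.2 (h0 z))
    rw [hg]
    exact h3
  obtain ⟨L, hL⟩ := (isCompact_closedBall z₀ (r + 1)).exists_bound_of_continuousOn hfs.continuousOn
  obtain ⟨n, hn⟩ := exists_nat_ge (2 * L)
  have hsub : closedBall z₀ r ⊆ ball z₀ (r + 1) := closedBall_subset_ball (by linarith)
  have hb : ∀ w ∈ ball z₀ (r + 1), fs (F w) (deriv F w) ≤ L := by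
    intro w hw
    have h4 := hL w (ball_subset_closedBall hw)
    rw [hg] at h4
    exact (le_abs_self _).trans h4
  refine ⟨n, fun z hz z' hz' => ?_⟩
  have h5 := Pool.Agent.H62.EF.pr_lipschitz isOpen_ball (convex_ball z₀ (r + 1)) hFd.differentiableOn (fun z _ => h0 z) hb z (hsub hz) z' (hsub hz')
  exact h5.trans (mul_le_mul_of_nonneg_right hn (norm_nonneg _))

theorem baire (D : SDat X Λ u a ν b Dt Bd Φ) (z₀ : ℂ) (r : ℝ) {V : Set ℝ} (hV : IsOpen V) (hVn : V.Nonempty) :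
    ∃ (n : ℝ) (V' : Set ℝ), IsOpen V' ∧ V'.Nonempty ∧ V' ⊆ V ∧ ∀ s ∈ V', ∀ z ∈ closedBall z₀ r, ∀ z' ∈ closedBall z₀ r, dist (Φ s z) (Φ s z') ≤ n * ‖z - z'‖ := by
  obtain ⟨K, hK⟩ : ∃ K : ℕ → Set ℝ, K = fun n : ℕ => {s : ℝ | ∀ z ∈ closedBall z₀ r, ∀ z' ∈ closedBall z₀ r, dist (Φ s z) (Φ s z') ≤ n * ‖z - z'‖} := ⟨_, rfl⟩
  have hcl : ∀ n, IsClosed (K n) := by
    intro n
    refine isClosed_of_closure_subset fun s hs => ?_
    have hfr : ∃ᶠ s' in 𝓝 s, s' ∈ K n := mem_closure_iff_frequently.1 hs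
    -- the points off `Dt`
    have hoff : ∀ z ∈ closedBall z₀ r, ((s : ℂ), z) ∉ Dt → ∀ z' ∈ closedBall z₀ r, ((s : ℂ), z') ∉ Dt → dist (Φ s z) (Φ s z') ≤ n * ‖z - z'‖ := by
      intro z hz hzD z' hz' hzD'
      have hct : ∀ w : ℂ, ((s : ℂ), w) ∉ Dt → Tendsto (fun s' : ℝ => Φ s' w) (𝓝 s) (𝓝 (Φ s w)) := by
        intro w hw
        have h1 := smo_cont D.cone (D.smo s w hw)
        have h2 : ContinuousAt (fun s' : ℝ => ((s', w) : ℝ × ℂ)) s := (continuous_id.prodMk continuous_const).continuousAt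
        exact (ContinuousAt.comp (g := fun q : ℝ × ℂ => Φ q.1 q.2) (f := fun s' : ℝ => ((s', w) : ℝ × ℂ)) h1 h2)
      refine le_of_tendsto_of_frequently ((hct z hzD).dist (hct z' hzD')) (hfr.mono fun s' hs' => ?_)
      rw [hK] at hs'
      exact hs' z hz z' hz'
    rw [hK]
    intro z hz z' hz'
    by_cases hzz : z = z'
    · rw [hzz, dist_self, sub_self, norm_zero, mul_zero]
    obtain ⟨F, hF, hΦF⟩ := D.lift s
    have hcont : Continuous (Φ s) := by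
      have h0 : ∀ z, F z ≠ 0 := fun z h => D.cone.zero_notMem (h ▸ hF.2.1 z)
      have h1 : Φ s = fun z => pr (F z) := funext hΦF
      rw [h1, continuous_iff_continuousAt]
      exact fun z => ContinuousAt.comp (g := pr) (f := F) (Pool.Agent.H62.EF.continuousAt_pr (h0 z)) hF.1.continuous.continuousAt
    -- the points of the segment
    have hmv : ∀ w w' : ℂ, w ≠ w' → w ∈ closedBall z₀ r → w' ∈ closedBall z₀ r →
        Tendsto (fun t : ℝ => w + (t : ℂ) * (w' - w)) (𝓝[>] 0) (𝓝 w) ∧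
          ∀ᶠ t : ℝ in 𝓝[>] 0, w + (t : ℂ) * (w' - w) ∈ closedBall z₀ r ∧ ((s : ℂ), w + (t : ℂ) * (w' - w)) ∉ Dt := by
      intro w w' hww hw hw'
      have h1 : Continuous fun t : ℝ => w + (t : ℂ) * (w' - w) := by fun_prop
      have h2 : Tendsto (fun t : ℝ => w + (t : ℂ) * (w' - w)) (𝓝 0) (𝓝 w) := by
        have := h1.tendsto 0
        simpa using this
      have h3 : Tendsto (fun t : ℝ => w + (t : ℂ) * (w' - w)) (𝓝[>] 0) (𝓝 w) := h2.mono_left nhdsWithin_le_nhds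
      have h4 : Tendsto (fun t : ℝ => w + (t : ℂ) * (w' - w)) (𝓝[>] 0) (𝓝[≠] w) := by
        refine tendsto_nhdsWithin_iff.2 ⟨h3, ?_⟩
        filter_upwards [self_mem_nhdsWithin] with t ht h5
        have ht0 : (t : ℂ) ≠ 0 := by exact_mod_cast (ne_of_gt (show (0 : ℝ) < t from ht))
        have h6 : (t : ℂ) * (w' - w) = 0 := by
          rw [Set.mem_singleton_iff] at h5
          linear_combination h5
        rcases mul_eq_zero.1 h6 with h7 | h7
        · exact ht0 h7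
        · exact hww (sub_eq_zero.1 h7).symm
      refine ⟨h3, ?_⟩
      filter_upwards [h4.eventually (D.dt_iso s w), Ioo_mem_nhdsGT (show (0 : ℝ) < 1 by norm_num)] with t ht ht1
      refine ⟨?_, ht⟩
      have h8 := (convex_closedBall z₀ r) hw hw' (show 0 ≤ 1 - t by linarith [ht1.2]) ht1.1.le (by ring)
      have h9 : w + (t : ℂ) * (w' - w) = (1 - t) • w + t • w' := by
        simp only [Complex.real_smul]
        push_cast
        ring
      rw [h9]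
      exact h8
    obtain ⟨ha1, ha2⟩ := hmv z z' hzz hz hz'
    obtain ⟨hb1, hb2⟩ := hmv z' z (Ne.symm hzz) hz' hz
    have hl1 : Tendsto (fun t : ℝ => dist (Φ s (z + (t : ℂ) * (z' - z))) (Φ s (z' + (t : ℂ) * (z - z')))) (𝓝[>] 0) (𝓝 (dist (Φ s z) (Φ s z'))) :=
      ((hcont.tendsto z).comp ha1).dist ((hcont.tendsto z').comp hb1)
    have hl2 : Tendsto (fun t : ℝ => (n : ℝ) * ‖(z + (t : ℂ) * (z' - z)) - (z' + (t : ℂ) * (z - z'))‖) (𝓝[>] 0) (𝓝 ((n : ℝ) * ‖z - z'‖)) :=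
      ((ha1.sub hb1).norm).const_mul _
    refine le_of_tendsto_of_tendsto hl1 hl2 ?_
    filter_upwards [ha2, hb2] with t h1 h2
    exact hoff _ h1.1 h1.2 _ h2.1 h2.2
  have hun : ⋃ n, K n = Set.univ := by
    refine Set.eq_univ_of_forall fun s => ?_
    obtain ⟨F, hF, hΦF⟩ := D.lift s
    obtain ⟨n, hn⟩ := lip_of_curve D.cone hF z₀ r
    rw [Set.mem_iUnion]
    refine ⟨n, ?_⟩
    rw [hK]
    intro z hz z' hz'
    rw [hΦF, hΦF]
    exact hn z hz z' hz'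
  obtain ⟨s, hsV, hs⟩ := (dense_iUnion_interior_of_closed hcl hun).inter_open_nonempty V hV hVn
  obtain ⟨n, hn⟩ := Set.mem_iUnion.1 hs
  refine ⟨n, V ∩ interior (K n), hV.inter isOpen_interior, ⟨s, hsV, hn⟩, Set.inter_subset_left, fun s' hs' => ?_⟩
  have h1 := interior_subset hs'.2
  rw [hK] at h1
  exact h1

/-- the good parameters are dense -/
theorem good_dense (D : SDat X Λ u a ν b Dt Bd Φ) {s₀ : ℝ} {z₀ : ℂ} {r δ : ℝ} (h1 : ∀ s : ℝ, |s - s₀| ≤ δ → ∀ z ∈ sphere z₀ r, ((s : ℂ), z) ∉ Dt)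
    (h2 : ∀ s : ℝ, |s - s₀| ≤ δ → ∀ z ∈ closedBall z₀ r, ((s : ℂ), z) ∉ Bd) :
    ∀ s : ℝ, |s - s₀| < δ → ∀ ε : ℝ, 0 < ε → ∃ s' : ℝ, |s' - s| < ε ∧ |s' - s₀| < δ ∧ ∀ z ∈ closedBall z₀ r, Smo X Λ u a ν b Φ s' z := by
  intro s hs ε hε
  have hV : IsOpen (Set.Ioo (s - ε) (s + ε) ∩ Set.Ioo (s₀ - δ) (s₀ + δ)) := isOpen_Ioo.inter isOpen_Ioo
  have hsV : s ∈ Set.Ioo (s - ε) (s + ε) ∩ Set.Ioo (s₀ - δ) (s₀ + δ) := by
    obtain ⟨h3, h4⟩ := abs_lt.1 hs
    exact ⟨⟨by linarith, by linarith⟩, ⟨by linarith, by linarith⟩⟩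
  obtain ⟨n, V', hV', ⟨s', hs'⟩, hsub, hl⟩ := baire D z₀ r hV ⟨s, hsV⟩
  have h5 := hsub hs'
  have h6 : |s' - s₀| < δ := abs_lt.2 ⟨by linarith [h5.2.1], by linarith [h5.2.2]⟩
  refine ⟨s', abs_lt.2 ⟨by linarith [h5.1.1], by linarith [h5.1.2]⟩, h6, fun z hz => ?_⟩
  rcases (mem_closedBall.1 hz).lt_or_eq with h7 | h7
  · exact smo_of_lip D hV' hl hs' (mem_ball.2 h7) (h2 s' h6.le z hz)
  · exact D.smo s' z (h1 s' h6.le z (mem_sphere.2 h7))

end Pool.Agent.G4.C
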