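import Pool.Agent.G4.C.GCa
import Pool.Agent.G3.C.PVd

/-!
# G4 C GCb: a bound for the jet form on the boundary of a box without bad points holds in the box

For a good `s'` the function `z ↦ pval P a b Φ s' z (F z) • F z` is holomorphic near `closedBall z₀ r` (`pval_hol`), so bounded by `C` (`Complex.norm_le_of_forall_mem_frontier_norm_le`).  For
arbitrary `s`, `|s - s₀| < δ`, and `z` off `Dt`: `pval_normCont` at `(s, z)` and good `s' → s` (`good_dense`).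
-/

set_option autoImplicit false

open Topology Filter Metric

namespace Pool.Agent.G4.C

open Pool.Agent.H36.BP (EN fs wd)
open Pool.Agent.H14.PP (IsCone)
open Pool.Agent.H62.EF (MN pr)
open Pool.Agent.AD (Vd Chart Charts)
open Pool.Agent.TG (TMap Lat Str ms tl)
open Pool.Agent.G3.C

variable {N k : ℕ} {X : Set (EN N)} {Λ : AddSubgroup (Vd (k + 1))} {u : EN N → Vd (k + 1)} {ν a b c : Vd (k + 1)} {m : ℕ} {ρ : ℝ}
  {Dt Bd : Set (ℂ × ℂ)} {Φ : ℝ → ℂ → MN N}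

/-- the bound in the disc, for a good parameter -/
private theorem gcb_disc (D : SDat X Λ u a ν b Dt Bd Φ) (P : JForm X Λ u ν m) {s : ℝ} {z₀ : ℂ} {r C : ℝ}
    (hr : 0 < r) (hS : ∀ z ∈ closedBall z₀ r, Smo X Λ u a ν b Φ s z)
    (hC : ∀ z ∈ sphere z₀ r, ∀ x : EN N, x ≠ 0 → Φ s z = pr x → ‖pval P a b Φ s z x‖ * ‖x‖ ≤ C) :
    ∀ z ∈ closedBall z₀ r, ∃ x : EN N, x ≠ 0 ∧ Φ s z = pr x ∧ ‖pval P a b Φ s z x‖ * ‖x‖ ≤ C := by
  obtain ⟨F, ⟨hFd, hFX, -⟩, hF⟩ := D.lift s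
  have hF0 : ∀ z, F z ≠ 0 := fun z h0 => D.cone.zero_notMem (h0 ▸ hFX z)
  have hg : ∀ z ∈ closedBall z₀ r, DifferentiableAt ℂ (fun z => pval P a b Φ s z (F z) • F z) z := by
    intro z hz
    exact (pval_hol D.cone hFd hF0 hF (hS z hz) P).differentiableAt.smul (hFd z)
  have hd : DiffContOnCl ℂ (fun z => pval P a b Φ s z (F z) • F z) (ball z₀ r) := by
    refine DifferentiableOn.diffContOnCl fun z hz => ?_
    rw [closure_ball z₀ hr.ne'] at hz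
    exact (hg z hz).differentiableWithinAt
  intro z hz
  refine ⟨F z, hF0 z, hF z, ?_⟩
  have h1 := Complex.norm_le_of_forall_mem_frontier_norm_le isBounded_ball hd (C := C) (fun y hy => ?_) (z := z) (by rwa [closure_ball z₀ hr.ne'])
  · rwa [norm_smul] at h1
  · rw [frontier_ball z₀ hr.ne'] at hy
    rw [norm_smul]
    exact hC y hy (F y) (hF0 y) (hF y)

/-- the bound on the boundary of a box without bad points holds in the box -/
theorem pval_box (D : SDat X Λ u a ν b Dt Bd Φ) (P : JForm X Λ u ν m) {s₀ : ℝ} {z₀ : ℂ} {r δ C : ℝ} (hr : 0 < r)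
    (hsph : ∀ s : ℝ, |s - s₀| ≤ δ → ∀ z ∈ sphere z₀ r, ((s : ℂ), z) ∉ Dt) (hbd : ∀ s : ℝ, |s - s₀| ≤ δ → ∀ z ∈ closedBall z₀ r, ((s : ℂ), z) ∉ Bd)
    (hC : ∀ s : ℝ, |s - s₀| ≤ δ → ∀ z ∈ sphere z₀ r, ∀ x : EN N, x ≠ 0 → Φ s z = pr x → ‖pval P a b Φ s z x‖ * ‖x‖ ≤ C) :
    ∀ s : ℝ, |s - s₀| < δ → ∀ z ∈ ball z₀ r, ((s : ℂ), z) ∉ Dt → ∀ x : EN N, x ≠ 0 → Φ s z = pr x → ‖pval P a b Φ s z x‖ * ‖x‖ ≤ C := by
  have hden := good_dense D hsph hbd
  intro s hs z hz hqD x hx hΦx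
  have hS := D.smo s z hqD
  refine le_of_forall_pos_le_add fun ε hε => ?_
  have hev := pval_normCont D.cone hS P hx hΦx hε
  have hev2 : ∀ᶠ s' in 𝓝 s, ∀ x' : EN N, x' ≠ 0 → Φ s' z = pr x' → |‖pval P a b Φ s' z x'‖ * ‖x'‖ - ‖pval P a b Φ s z x‖ * ‖x‖| < ε := by
    have hc : Tendsto (fun s' : ℝ => ((s', z) : ℝ × ℂ)) (𝓝 s) (𝓝 (s, z)) := by
      have : Continuous fun s' : ℝ => ((s', z) : ℝ × ℂ) := by fun_prop
      exact this.tendsto s
    exact hc.eventually hev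
  obtain ⟨η, hη, hball⟩ := Metric.eventually_nhds_iff_ball.1 hev2
  obtain ⟨s', hs'1, hs'2, hs'3⟩ := hden s hs η hη
  obtain ⟨x', hx'0, hx', hx'C⟩ := gcb_disc D P hr hs'3 (fun z hz => hC s' hs'2.le z hz) z (ball_subset_closedBall hz)
  have h1 := abs_lt.1 (hball s' (by simpa [Real.dist_eq] using hs'1) x' hx'0 hx')
  linarith [h1.1]

end Pool.Agent.G4.C
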