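import Pool.Agent.G4.C.FDi
import Pool.Agent.G3.C.Glue

/-!
# G4 C Glue: the local families give entire curves for the complex parameters

`Ψ ζ z = W ζ z` for the family `W` of `hF` at `s₀ = Re ζ`, `z₀ = z`.  Two of the families, `W` (centre `(s₀, z₀)`) and `W'` (centre `(s₁, z₁)`), agree on `(ball s₀ ε ∩ ball s₁ ε) ×ˢ (ball z₀ r ∩ ball z₁ r')`:
`FDq.ident` (`ball s₀ ε ∩ ball s₁ ε` is convex, and if it is nonempty it contains a real number: the real part of any of its points).  So near `(ζ, z)`, `|Im ζ| < ε`, `Ψ` is the family of the centre `(Re ζ, z)`: this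
gives the last clause, and `Ψ ζ` has local lifts (`LL`).  `Ψ s = Φ s` for real `s`.  The entire lift of `Ψ ζ`: `LL.lift`; it lies in `X` over the line by `xu_LL` (`G3/C/Glue`) with `B = univ`, if near one `z` the
points `Ψ ζ w` are `pr x`, `x ∈ X`, `u x - (b + ζ • ν + w • a) ∈ Λ`.  For this take `z` such that the joint lift `G` at `(s, z)` is not `0` at `(s, z)` … : the set of the `ζ` (with `|Im ζ| < ε`) such that `Ψ ζ` is a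
curve in `X` over the line contains the reals; at a point `(ζ₂, z₂)` where the joint lift `G` is not `0` use `xu_local` (`G3/C/XU`) for the curves `ζ ↦ G (ζ, z)` for fixed `z` near `z₂` (as in `ext_mem`): if for
`ζ` frequently near `ζ₂` the points are in `X` over `b + ζ ν + z a`, then for all `ζ` near `ζ₂`.  Open and closed in the strip.
-/

set_option autoImplicit false

open Topology Filter Metric

namespace Pool.Agent.G4.C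

open Pool.Agent.H36.BP (EN)
open Pool.Agent.H14.PP (IsCone)
open Pool.Agent.H62.EF (MN pr)
open Pool.Agent.AD (Vd Chart Charts)
open Pool.Agent.TG (TMap Lat mem_of_pr)
open Pool.Agent.G3.C

variable {N k : ℕ} {X : Set (EN N)} {Λ : AddSubgroup (Vd (k + 1))} {u : EN N → Vd (k + 1)}

private theorem gl4_re_self (ζ : ℂ) : dist ζ (ζ.re : ℂ) = |ζ.im| := by
  rw [dist_eq_norm]
  have : ζ - (ζ.re : ℂ) = (ζ.im : ℂ) * Complex.I := by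
    apply Complex.ext <;> simp
  rw [this, norm_mul, Complex.norm_I, mul_one, Complex.norm_real, Real.norm_eq_abs]

private theorem gl4_re_le (ζ : ℂ) (s : ℝ) : dist (ζ.re : ℂ) (s : ℂ) ≤ dist ζ s := by
  rw [dist_eq_norm, ← Complex.ofReal_sub, Complex.norm_real, Real.norm_eq_abs, dist_eq_norm]
  have := Complex.abs_re_le_norm (ζ - s)
  simpa using this

/-- a box in which the joint lift is analytic, without zeros and a lift -/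
private theorem gl4_box {Ψ : ℂ → ℂ → MN N} {ξ z : ℂ} {G : ℂ × ℂ → EN N} (hG : AnalyticAt ℂ G (ξ, z)) (hG0 : ¬ ∀ᶠ w in 𝓝 z, G (ξ, w) = 0)
    (hGe : ∀ᶠ p in 𝓝 (ξ, z), G p ≠ 0 → Ψ p.1 p.2 = pr (G p)) :
    ∃ (z₂ : ℂ) (δ : ℝ), 0 < δ ∧ ∀ x ∈ ball ξ δ, ∀ y ∈ ball z₂ δ, AnalyticAt ℂ G (x, y) ∧ G (x, y) ≠ 0 ∧ Ψ x y = pr (G (x, y)) := by
  have h1 : ∀ᶠ p in 𝓝 (ξ, z), AnalyticAt ℂ G p ∧ ∀ᶠ q in 𝓝 p, (G q ≠ 0 → Ψ q.1 q.2 = pr (G q)) := hG.eventually_analyticAt.and hGe.eventually_nhds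
  have hc : Tendsto (fun w : ℂ => (ξ, w)) (𝓝 z) (𝓝 (ξ, z)) := (continuous_const.prodMk continuous_id).tendsto z
  obtain ⟨z₂, hz₂0, hz₂1, hz₂2⟩ := ((not_eventually.1 hG0).and_eventually (hc.eventually h1)).exists
  have h2 : ∀ᶠ p in 𝓝 (ξ, z₂), AnalyticAt ℂ G p ∧ G p ≠ 0 ∧ Ψ p.1 p.2 = pr (G p) := by
    filter_upwards [hz₂1.eventually_analyticAt, hz₂1.continuousAt.eventually_ne hz₂0, hz₂2] with p hp1 hp2 hp3
    exact ⟨hp1, hp2, hp3 hp2⟩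
  obtain ⟨δ, hδ, hball⟩ := Metric.eventually_nhds_iff_ball.1 h2
  refine ⟨z₂, δ, hδ, fun x hx y hy => hball (x, y) ?_⟩
  rw [← ball_prod_same]
  exact ⟨hx, hy⟩

theorem glue {d : ℕ} (hX : IsCone X) (hch : Charts d X) (ht : TMap X Λ u) (hl : Lat Λ) {a ν b : Vd (k + 1)} {Φ : ℝ → ℂ → MN N}
    (hΦ : ∀ s : ℝ, ∃ F ∈ Gc X Λ u a (b + (s : ℂ) • ν), ∀ z, Φ s z = pr (F z)) {ε : ℝ} (hε : 0 < ε)
    (hF : ∀ (s₀ : ℝ) (z₀ : ℂ), ∃ (W : ℂ → ℂ → MN N) (r : ℝ), 0 < r ∧ FDq W (ball (s₀ : ℂ) ε ×ˢ ball z₀ r) ∧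
      ∀ s : ℝ, (s : ℂ) ∈ ball (s₀ : ℂ) ε → ∀ z ∈ ball z₀ r, W s z = Φ s z) :
    ∃ Ψ : ℂ → ℂ → MN N, (∀ (s : ℝ) z, Ψ s z = Φ s z) ∧ (∀ ζ : ℂ, |ζ.im| < ε → ∃ F ∈ Gc X Λ u a (b + ζ • ν), ∀ z, Ψ ζ z = pr (F z)) ∧
      ∀ ζ z : ℂ, |ζ.im| < ε → ∃ G : ℂ × ℂ → EN N, AnalyticAt ℂ G (ζ, z) ∧ (¬ ∀ᶠ w in 𝓝 z, G (ζ, w) = 0) ∧
        ∀ᶠ p in 𝓝 (ζ, z), G p ≠ 0 → Ψ p.1 p.2 = pr (G p) := by
  classical
  choose W r hr hFD hre using hF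
  obtain ⟨Ψ, hΨ⟩ : ∃ Ψ : ℂ → ℂ → MN N, ∀ ζ z, Ψ ζ z = W ζ.re z ζ z := ⟨fun ζ z => W ζ.re z ζ z, fun _ _ => rfl⟩
  have hcen : ∀ ζ : ℂ, |ζ.im| < ε → ζ ∈ ball (ζ.re : ℂ) ε := fun ζ hζ => by
    rw [mem_ball, gl4_re_self]
    exact hζ
  have him : ∀ (s : ℝ) (ξ : ℂ), ξ ∈ ball (s : ℂ) ε → |ξ.im| < ε := by
    intro s ξ hξ
    rw [mem_ball, dist_eq_norm] at hξ
    have h1 := Complex.abs_im_le_norm (ξ - s)
    have h2 : (ξ - (s : ℂ)).im = ξ.im := by simp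
    rw [h2] at h1
    exact h1.trans_lt hξ
  -- consistency
  have hcons : ∀ (ζ : ℂ) (s : ℝ) (z₀ z : ℂ), |ζ.im| < ε → ζ ∈ ball (s : ℂ) ε → z ∈ ball z₀ (r s z₀) → Ψ ζ z = W s z₀ ζ z := by
    intro ζ s z₀ z hζ hs hz
    rw [hΨ]
    have hUo : IsOpen (ball (ζ.re : ℂ) ε ∩ ball (s : ℂ) ε) := isOpen_ball.inter isOpen_ball
    have hreU : (ζ.re : ℂ) ∈ ball (ζ.re : ℂ) ε ∩ ball (s : ℂ) ε := ⟨mem_ball_self hε, (gl4_re_le ζ s).trans_lt hs⟩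
    refine FDq.ident (U := ball (ζ.re : ℂ) ε ∩ ball (s : ℂ) ε) (B := ball z (r ζ.re z) ∩ ball z₀ (r s z₀)) hUo
      ((convex_ball _ _).inter (convex_ball _ _)).isPreconnected (isOpen_ball.inter isOpen_ball) ((convex_ball _ _).inter (convex_ball _ _)).isPreconnected
      ((hFD ζ.re z).mono (Set.prod_mono Set.inter_subset_left Set.inter_subset_left))
      ((hFD s z₀).mono (Set.prod_mono Set.inter_subset_right Set.inter_subset_right)) (s₁ := ζ.re) hreU ?_ ζ ⟨hcen ζ hζ, hs⟩ z ⟨mem_ball_self (hr _ _), hz⟩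
    filter_upwards [Complex.continuous_ofReal.continuousAt.eventually_mem (hUo.mem_nhds hreU)] with t ht x hx
    rw [hre ζ.re z t ht.1 x hx.1, hre s z₀ t ht.2 x hx.2]
  -- the values for real parameters
  have hreal : ∀ (s : ℝ) z, Ψ s z = Φ s z := by
    intro s z
    have h1 : |((s : ℂ)).im| < ε := by rw [Complex.ofReal_im, abs_zero]; exact hε
    rw [hcons s s z z h1 (mem_ball_self hε) (mem_ball_self (hr _ _))]
    exact hre s z s (mem_ball_self hε) z (mem_ball_self (hr _ _))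
  -- joint lifts
  have hjoint : ∀ ζ z : ℂ, |ζ.im| < ε → ∃ G : ℂ × ℂ → EN N, AnalyticAt ℂ G (ζ, z) ∧ (¬ ∀ᶠ w in 𝓝 z, G (ζ, w) = 0) ∧
      ∀ᶠ p in 𝓝 (ζ, z), G p ≠ 0 → Ψ p.1 p.2 = pr (G p) := by
    intro ζ z hζ
    obtain ⟨-, G, hG, hG0, hGe⟩ := hFD ζ.re z ζ z ⟨hcen ζ hζ, mem_ball_self (hr _ _)⟩
    refine ⟨G, hG, hG0, ?_⟩
    have h1 : ∀ᶠ p : ℂ × ℂ in 𝓝 (ζ, z), p.1 ∈ ball (ζ.re : ℂ) ε ∧ p.2 ∈ ball z (r ζ.re z) := by
      have hopen : IsOpen (ball (ζ.re : ℂ) ε ×ˢ ball z (r ζ.re z)) := isOpen_ball.prod isOpen_ball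
      exact hopen.mem_nhds (⟨hcen ζ hζ, mem_ball_self (hr _ _)⟩ : (ζ, z) ∈ ball (ζ.re : ℂ) ε ×ˢ ball z (r ζ.re z))
    filter_upwards [hGe, h1] with p hp1 hp2 hp3
    rw [hcons p.1 ζ.re z p.2 (him _ _ hp2.1) hp2.1 hp2.2]
    exact hp1 hp3
  -- local lifts on the slices
  have hLL : ∀ ζ : ℂ, |ζ.im| < ε → ∀ z, LL (Ψ ζ) z := by
    intro ζ hζ z
    obtain ⟨⟨G, hG, hG0, hGe⟩, -⟩ := hFD ζ.re z ζ z ⟨hcen ζ hζ, mem_ball_self (hr _ _)⟩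
    refine ⟨G, hG, hG0, ?_⟩
    filter_upwards [hGe, ball_mem_nhds z (hr ζ.re z)] with w hw1 hw2
    rw [hcons ζ ζ.re z w hζ (hcen ζ hζ) hw2, hw1]
  -- curves in `X`
  obtain ⟨P, hP⟩ : ∃ P : ℂ → Prop, ∀ ξ, P ξ ↔ ∀ w, ∃ x ∈ X, Ψ ξ w = pr x ∧ u x - (b + ξ • ν + w • a) ∈ Λ :=
    ⟨fun ξ => ∀ w, ∃ x ∈ X, Ψ ξ w = pr x ∧ u x - (b + ξ • ν + w • a) ∈ Λ, fun _ => Iff.rfl⟩
  have hloc : ∀ ξ₀ : ℂ, |ξ₀.im| < ε → (∃ᶠ ξ in 𝓝[≠] ξ₀, P ξ) → ∀ᶠ ξ in 𝓝 ξ₀, P ξ := by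
    intro ξ₀ hξ₀ hfr
    obtain ⟨G, hG, hG0, hGe⟩ := hjoint ξ₀ 0 hξ₀
    obtain ⟨z₂, δ, hδ, hbox⟩ := gl4_box hG hG0 hGe
    have hnear : ∀ᶠ ξ : ℂ in 𝓝 ξ₀, |ξ.im| < ε := by
      have hc : ContinuousAt (fun ξ : ℂ => |ξ.im|) ξ₀ := by fun_prop
      exact hc.eventually_lt continuousAt_const hξ₀
    have hin : ∀ w ∈ ball z₂ δ, ∀ ξ ∈ ball ξ₀ δ, G (ξ, w) ∈ X ∧ u (G (ξ, w)) - (b + ξ • ν + w • a) ∈ Λ := by
      intro w hw
      refine xu_global hX hch ht hl (γ := fun ξ => G (ξ, w)) (υ := fun ξ => b + ξ • ν + w • a) isOpen_ball (convex_ball _ _).isPreconnected ?_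
        (fun ξ hξ => (hbox ξ hξ w hw).2.1) ?_ (mem_ball_self hδ) ?_
      · intro ξ hξ
        have h1 : DifferentiableAt ℂ G (ξ, w) := (hbox ξ hξ w hw).1.differentiableAt
        exact (h1.comp ξ (differentiableAt_id.prodMk (differentiableAt_const w))).differentiableWithinAt
      · exact (((differentiable_const _).add (differentiable_id.smul_const ν)).add (differentiable_const _)).differentiableOn
      · refine (hfr.and_eventually (mem_nhdsWithin_of_mem_nhds (ball_mem_nhds ξ₀ hδ))).mono fun ξ hξ => ?_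
        obtain ⟨hPξ, hξ1⟩ := hξ
        obtain ⟨x, hx, hx1, hx2⟩ := (hP ξ).1 hPξ w
        obtain ⟨-, h2, h3⟩ := hbox ξ hξ1 w hw
        exact mem_of_pr hX ht hx hx2 h2 (by rw [← h3, hx1])
    filter_upwards [hnear, ball_mem_nhds ξ₀ hδ] with ξ hξ1 hξ2
    obtain ⟨F, hF, hF0, hFΨ⟩ := LL.lift (hLL ξ hξ1)
    have hall := xu_global hX hch ht hl (γ := F) (υ := fun y => b + ξ • ν + y • a) isOpen_univ isPreconnected_univ hF.differentiableOn (fun z _ => hF0 z)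
      ((differentiable_const _).add (differentiable_id.smul_const a)).differentiableOn (Set.mem_univ z₂) (by
        have h1 : ∀ᶠ y in 𝓝 z₂, F y ∈ X ∧ u (F y) - (b + ξ • ν + y • a) ∈ Λ := by
          filter_upwards [ball_mem_nhds z₂ hδ] with y hy
          obtain ⟨h4, h5⟩ := hin y hy ξ hξ2
          obtain ⟨-, h2, h3⟩ := hbox ξ hξ2 y hy
          exact mem_of_pr hX ht h4 h5 (hF0 y) (by rw [← hFΨ, h3])
        exact (h1.filter_mono nhdsWithin_le_nhds).frequently)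
    refine (hP ξ).2 fun w => ⟨F w, (hall w (Set.mem_univ w)).1, hFΨ w, (hall w (Set.mem_univ w)).2⟩
  have hPall : ∀ ζ : ℂ, |ζ.im| < ε → P ζ := by
    intro ζ hζ
    obtain ⟨A, hA⟩ : ∃ A : Set ℂ, ∀ ξ, ξ ∈ A ↔ ∀ᶠ w in 𝓝 ξ, P w := ⟨{ξ | ∀ᶠ w in 𝓝 ξ, P w}, fun _ => Iff.rfl⟩
    have hAo : IsOpen A := by
      rw [isOpen_iff_mem_nhds]
      intro ξ hξ
      filter_upwards [((hA ξ).1 hξ).eventually_nhds] with w hw
      exact (hA w).2 hw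
    have hcl : closure A ∩ ball (ζ.re : ℂ) ε ⊆ A := by
      rintro ξ ⟨hξ, hξB⟩
      refine (hA ξ).2 (hloc ξ (him _ _ hξB) ?_)
      have h1 : ∃ᶠ w in 𝓝 ξ, w ∈ A := mem_closure_iff_frequently.1 hξ
      rw [Filter.frequently_iff] at h1 ⊢
      intro U hU
      rw [mem_nhdsWithin] at hU
      obtain ⟨V, hVo, hξV, hVU⟩ := hU
      obtain ⟨w, hwV, hwA⟩ := h1 (hVo.mem_nhds hξV)
      have h2 : ∀ᶠ x in 𝓝 w, x ∈ V ∧ P x := Filter.Eventually.and (hVo.mem_nhds hwV) ((hA w).1 hwA)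
      have h3 : ∃ᶠ x in 𝓝 w, x ≠ ξ := by
        have hd : Dense ({ξ}ᶜ : Set ℂ) := dense_compl_singleton ξ
        exact mem_closure_iff_frequently.1 (hd w)
      obtain ⟨x, hx1, hx2⟩ := (h3.and_eventually h2).exists
      exact ⟨x, hVU ⟨hx2.1, hx1⟩, hx2.2⟩
    have hre0 : (ζ.re : ℂ) ∈ ball (ζ.re : ℂ) ε := mem_ball_self hε
    have hstart : (ζ.re : ℂ) ∈ A := by
      refine (hA _).2 (hloc _ (him _ _ hre0) (real_freq (Eventually.of_forall fun t => (hP _).2 fun w => ?_)))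
      obtain ⟨F, hF, hFΦ⟩ := hΦ t
      exact ⟨F w, hF.2.1 w, by rw [hreal, hFΦ], hF.2.2 w⟩
    have h := (convex_ball (ζ.re : ℂ) ε).isPreconnected.subset_of_closure_inter_subset hAo ⟨_, hre0, hstart⟩ hcl
    exact ((hA ζ).1 (h (hcen ζ hζ))).self_of_nhds
  refine ⟨Ψ, hreal, ?_, hjoint⟩
  intro ζ hζ
  obtain ⟨F, hF, hF0, hFΨ⟩ := LL.lift (hLL ζ hζ)
  have h1 : ∀ z, F z ∈ X ∧ u (F z) - (b + ζ • ν + z • a) ∈ Λ := by
    intro z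
    obtain ⟨x, hx, hx1, hx2⟩ := (hP ζ).1 (hPall ζ hζ) z
    exact mem_of_pr hX ht hx hx2 (hF0 z) (by rw [← hFΨ, hx1])
  exact ⟨F, ⟨hF, fun z => (h1 z).1, fun z => (h1 z).2⟩, hFΨ⟩

end Pool.Agent.G4.C
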