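import Pool.Agent.G4.C.Bai

/-!
# G4 C LeafT: every line of direction `a` meets the set where the sheets extend

`sl_stab`: there is `n ≥ 1` with `φ (y + n l) = φ y` for all `φ ∈ SS`, `l ∈ Λ ∩ E`, `y ∈ T`.
-/

set_option autoImplicit false

open Topology Filter Metric

namespace Pool.Agent.G4.C

open Pool.Agent.H36.BP (EN fs wd)
open Pool.Agent.H14.PP (IsCone)
open Pool.Agent.H62.EF (MN pr)
open Pool.Agent.AD (Vd Chart Charts)
open Pool.Agent.TG (TMap Lat Str ms tl Gd)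
open Pool.Agent.G3.A (Tb Hc NL)
open Pool.Agent.G3.C

variable {N k : ℕ} {X : Set (EN N)} {Λ : AddSubgroup (Vd (k + 1))} {u : EN N → Vd (k + 1)} {ν a b : Vd (k + 1)} {m : ℕ} {E : Submodule ℝ (Vd (k + 1))}
  {D Bad Nν : Set (Vd (k + 1))} {SS : Set (Vd (k + 1) → MN N)} {φ : Vd (k + 1) → MN N}

theorem ue_exists (S : TDat X Λ u a ν b E D Bad SS) (ha : ‖a‖ = 1) {P : JForm X Λ u ν m} (hA : AlgP D P) (hP : ThP P a Nν) (hφ : φ ∈ SS) :
    ∃ y₁ ∈ Tb b E, y₁ ∉ D ∧ UE (𝓝[Tb b E] y₁) (fun y => sl φ a ν y) 0 0 := by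
  have hb : b ∈ Tb b E := by
    show b - b ∈ E
    rw [sub_self]
    exact E.zero_mem
  have hc : Continuous fun z : ℂ => b + z • a := by fun_prop
  obtain ⟨z₀, hz₀⟩ := hP.line b
  have h1 : ∀ᶠ z in 𝓝 z₀, b + z • a ∉ Nν := hc.continuousAt.eventually (hP.closed.isOpen_compl.mem_nhds hz₀)
  obtain ⟨z, hzN, hzD⟩ := ((h1.filter_mono nhdsWithin_le_nhds).and (S.iso b z₀)).exists
  obtain ⟨y₀, hy₀⟩ : ∃ y₀, y₀ = b + z • a := ⟨_, rfl⟩
  rw [← hy₀] at hzN hzD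
  have hy₀T : y₀ ∈ Tb b E := by
    rw [hy₀]
    exact S.add_mem hb (S.a_mem z)
  obtain ⟨r, hr, hball⟩ := Metric.isOpen_iff.1 (hP.closed.isOpen_compl.inter S.D_closed.isOpen_compl) y₀ ⟨hzN, hzD⟩
  refine ue_open S hφ hy₀T hzD hr fun y hy hyr δ hδ => ?_
  obtain ⟨hyN, hyD⟩ := hball (show y ∈ ball y₀ r by rwa [mem_ball, dist_eq_norm])
  have e0 : y + ((0 : ℝ) : ℂ) • ν + (0 : ℂ) • a = y := by simp
  obtain ⟨s₁, z₁, ε, h2, h3, h4, h5⟩ := near_EAt (S.sdat hφ hy) hP (pzs S ha hA hφ hy) (s₀ := 0) (z₀ := 0)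
    (show ¬ (y + ((0 : ℝ) : ℂ) • ν + (0 : ℂ) • a ∈ D) by rwa [e0]) (by rwa [e0]) hδ
  exact ⟨s₁, z₁, ε, by rwa [sub_zero] at h2, by rwa [sub_zero] at h3, h4, h5⟩

theorem sl_stab (S : TDat X Λ u a ν b E D Bad SS) : ∃ n : ℕ, 0 < n ∧ ∀ φ ∈ SS, ∀ l ∈ Λ, l ∈ E → ∀ y ∈ Tb b E, φ (y + n • l) = φ y := by
  refine ⟨S.fin.toFinset.card.factorial, Nat.factorial_pos _, fun φ hφ l hl hlE => ?_⟩
  have hmul : ∀ j : ℕ, j • l ∈ Λ ∧ j • l ∈ E := fun j => ⟨Λ.nsmul_mem hl j, E.nsmul_mem hlE j⟩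
  have hψ : ∀ j : ℕ, ∃ ψ ∈ SS, ∀ y ∈ Tb b E, ψ y = φ (y + j • l) := fun j => S.tr φ hφ _ (hmul j).1 (hmul j).2
  choose ψ hψS hψe using hψ
  obtain ⟨i, hi, j, hj, hne, hij⟩ := Finset.exists_ne_map_eq_of_card_lt_of_maps_to (s := Finset.range (S.fin.toFinset.card + 1)) (t := S.fin.toFinset) (f := ψ)
    (by rw [Finset.card_range]; exact Nat.lt_succ_self _) (fun j _ => by rw [Finset.mem_coe, Set.Finite.mem_toFinset]; exact hψS j)
  obtain ⟨p, hp0, hpn, hp⟩ : ∃ p : ℕ, 0 < p ∧ p ≤ S.fin.toFinset.card ∧ ∀ y ∈ Tb b E, φ (y + p • l) = φ y := by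
    have key : ∀ i j : ℕ, i < j → ψ i = ψ j → ∀ y ∈ Tb b E, φ (y + (j - i) • l) = φ y := by
      intro i j hlt he y hy
      have hy' : y - i • l ∈ Tb b E := by
        have h2 := S.add_mem hy (E.neg_mem (hmul i).2)
        rwa [← sub_eq_add_neg] at h2
      have h3 := hψe i _ hy'
      have h4 := hψe j _ hy'
      rw [he, h4, sub_add_cancel] at h3
      rw [← h3]
      congr 1
      have h5 : j • l = (j - i) • l + i • l := by rw [← add_smul, Nat.sub_add_cancel hlt.le]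
      rw [h5]
      abel
    rw [Finset.mem_range] at hi hj
    rcases lt_or_gt_of_ne hne with h | h
    · exact ⟨j - i, by omega, by omega, key i j h hij⟩
    · exact ⟨i - j, by omega, by omega, key j i h hij.symm⟩
  obtain ⟨q, hq⟩ : p ∣ S.fin.toFinset.card.factorial := Nat.dvd_factorial hp0 hpn
  have hrep : ∀ q : ℕ, ∀ y ∈ Tb b E, φ (y + (p * q) • l) = φ y := by
    intro q
    induction q with
    | zero => intro y _; rw [mul_zero, zero_smul, add_zero]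
    | succ q ih =>
      intro y hy
      have h1 : y + (p * (q + 1)) • l = (y + (p * q) • l) + p • l := by
        rw [mul_add, mul_one, add_smul]
        abel
      rw [h1, hp _ (S.add_mem hy (hmul _).2), ih y hy]
  intro y hy
  rw [hq]
  exact hrep q y hy

theorem EAtB.shift {v : EN N} {Φ Φ' : ℝ → ℂ → MN N} {s₀ : ℝ} {z₀ : ℂ} {ε M : ℝ} (h : EAtB v Φ' 0 0 ε M) (he : ∀ s z, Φ' s z = Φ (s₀ + s) (z₀ + z)) : EAtB v Φ s₀ z₀ ε M := by
  obtain ⟨F, hF, hF0, hFs⟩ := h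
  have hm : ∀ p : ℂ × ℂ, p ∈ ball ((s₀ : ℂ), z₀) ε → (p.1 - s₀, p.2 - z₀) ∈ ball (((0 : ℝ) : ℂ), (0 : ℂ)) ε := by
    intro p hp
    rw [mem_ball, Prod.dist_eq] at hp ⊢
    rw [Complex.ofReal_zero]
    simpa [dist_eq_norm] using hp
  refine ⟨fun p => F (p.1 - s₀, p.2 - z₀), ?_, fun p hp => hF0 _ (hm p hp), fun s z hp => ?_⟩
  · refine hF.comp ?_ hm
    have : Differentiable ℂ fun p : ℂ × ℂ => (p.1 - (s₀ : ℂ), p.2 - z₀) := by fun_prop
    exact this.differentiableOn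
  · have h1 := hFs (s - s₀) (z - z₀) (by
      have := hm _ hp
      push_cast
      exact this)
    rw [he, add_sub_cancel, add_sub_cancel] at h1
    rw [h1]
    push_cast
    rfl

theorem ue_line (S : TDat X Λ u a ν b E D Bad SS) (ha : ‖a‖ = 1) {P : JForm X Λ u ν m} (hA : AlgP D P) (hP : ThP P a Nν) (hφ : φ ∈ SS) {y : Vd (k + 1)} (hy : y ∈ Tb b E) :
    ∃ z : ℂ, y + z • a ∉ D ∧ UE (𝓝[Tb b E] y) (fun y' => sl φ a ν y') 0 z := by
  obtain ⟨y₁, hy₁, hy₁D, v, ε, M, hε, hev⟩ := ue_exists S ha hA hP hφ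
  obtain ⟨n, hn, hstab⟩ := sl_stab S
  obtain ⟨δ, hδ, hball⟩ := Metric.mem_nhdsWithin_iff.1 (hev.and (mem_nhdsWithin_of_mem_nhds (S.D_closed.isOpen_compl.mem_nhds hy₁D)))
  have hn' : (0 : ℝ) < n := by exact_mod_cast hn
  have hnC : (n : ℂ) ≠ 0 := by exact_mod_cast hn.ne'
  have hvE : ((n : ℝ)⁻¹) • (y₁ - y) ∈ E := by
    refine E.smul_mem _ ?_
    have e : y₁ - y = (y₁ - b) - (y - b) := by abel
    rw [e]
    exact E.sub_mem hy₁ hy
  obtain ⟨l, hl, hlE, z, hz⟩ := S.dns _ hvE (δ / (2 * n)) (by positivity)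
  have hnl : (n • l) ∈ Λ ∧ n • l ∈ E := ⟨Λ.nsmul_mem hl n, E.nsmul_mem hlE n⟩
  obtain ⟨z', hz'⟩ : ∃ z' : ℂ, z' = n * z := ⟨_, rfl⟩
  have hd : ‖y + z' • a + n • l - y₁‖ < δ := by
    have e : y + z' • a + n • l - y₁ = -((n : ℝ) • (((n : ℝ)⁻¹) • (y₁ - y) - (l + z • a))) := by
      rw [smul_sub, smul_smul, mul_inv_cancel₀ hn'.ne', one_smul, smul_add, hz', mul_smul]
      have e1 : (n : ℝ) • l = n • l := by rw [Nat.cast_smul_eq_nsmul]
      have e2 : (n : ℝ) • z • a = (n : ℂ) • z • a := by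
        rw [← Complex.coe_smul]
        push_cast
        rfl
      rw [e1, e2]
      abel
    rw [e, norm_neg, norm_smul, Real.norm_of_nonneg hn'.le]
    calc (n : ℝ) * ‖((n : ℝ)⁻¹) • (y₁ - y) - (l + z • a)‖ ≤ n * (δ / (2 * n)) := by gcongr
      _ = δ / 2 := by field_simp
      _ < δ := by linarith
  have hmem : ∀ y' ∈ Tb b E, y' + z' • a + n • l ∈ Tb b E := fun y' hy' => S.add_mem (S.add_mem hy' (S.a_mem z')) hnl.2
  have hc : Continuous fun y' : Vd (k + 1) => y' + z' • a + n • l := by fun_prop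
  refine ⟨z', fun hD => ?_, v, ε, M, hε, ?_⟩
  · have h1 := hball ⟨show y + z' • a + n • l ∈ ball y₁ δ by rwa [mem_ball, dist_eq_norm], hmem y hy⟩
    exact h1.2 (S.D_inv _ hD _ hnl.1)
  · have h2 : ∀ᶠ y' in 𝓝 y, y' + z' • a + n • l ∈ ball y₁ δ :=
      hc.continuousAt.eventually (isOpen_ball.mem_nhds (by rwa [mem_ball, dist_eq_norm]))
    filter_upwards [self_mem_nhdsWithin, h2.filter_mono nhdsWithin_le_nhds] with y' hy' hyb
    have h3 : EAtB v (sl φ a ν (y' + z' • a + n • l)) 0 0 ε M := (hball ⟨hyb, hmem y' hy'⟩).1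
    refine h3.shift fun s w => ?_
    rw [zero_add]
    show φ (y' + z' • a + n • l + (s : ℂ) • ν + w • a) = φ (y' + (s : ℂ) • ν + (z' + w) • a)
    have e : y' + z' • a + n • l + (s : ℂ) • ν + w • a = (y' + (s : ℂ) • ν + (z' + w) • a) + n • l := by
      rw [add_smul]
      abel
    rw [e]
    exact hstab φ hφ l hl hlE _ (S.tb hy' s (z' + w))

end Pool.Agent.G4.C
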