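import Pool.Agent.G4.C.UniT
import Pool.Agent.G4.C.Fill
import Pool.Agent.G4.C.Glue
import Pool.Agent.G3.E.Defs

/-!
# G4 C Main: block (C)
-/

set_option autoImplicit false

open Topology Filter Metric

namespace Pool.Agent.G4.C

open Pool.Agent.H36.BP (EN fs wd)
open Pool.Agent.H14.PP (IsCone)
open Pool.Agent.H62.EF (MN pr)
open Pool.Agent.AD (Vd Chart Charts)
open Pool.Agent.TG (TMap Lat Str ms tl Gd)
open Pool.Agent.G3.A (Tb Hc NL)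
open Pool.Agent.G3.C

variable {N k : ℕ} {X : Set (EN N)} {Λ : AddSubgroup (Vd (k + 1))} {u : EN N → Vd (k + 1)} {ν a b : Vd (k + 1)} {m : ℕ} {E : Submodule ℝ (Vd (k + 1))}
  {D Bad Nν : Set (Vd (k + 1))} {SS : Set (Vd (k + 1) → MN N)} {φ : Vd (k + 1) → MN N}

private theorem mc_eat (y : Vd (k + 1)) {s₀ : ℝ} {z₀ : ℂ} {ε : ℝ} (h : EAt (sl φ a ν (y + (s₀ : ℂ) • ν + z₀ • a)) 0 0 ε) : EAt (sl φ a ν y) s₀ z₀ ε := by
  obtain ⟨F, hF, hF0, hFs⟩ := h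
  have hm : ∀ p : ℂ × ℂ, p ∈ ball ((s₀ : ℂ), z₀) ε → (p.1 - s₀, p.2 - z₀) ∈ ball (((0 : ℝ) : ℂ), (0 : ℂ)) ε := by
    intro p hp
    rw [mem_ball, Prod.dist_eq] at hp ⊢
    rw [Complex.ofReal_zero]
    simpa [dist_eq_norm] using hp
  refine ⟨fun p => F (p.1 - s₀, p.2 - z₀), ?_, fun p hp => hF0 _ (hm p hp), fun s z hp => ?_⟩
  · refine hF.comp ?_ hm
    have : Differentiable ℂ fun p : ℂ × ℂ => (p.1 - (s₀ : ℂ), p.2 - z₀) := by fun_prop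
    exact this.differentiableOn
  · have h1 := hFs (s - s₀) (z - z₀) (by
      have := hm _ hp
      push_cast
      exact this)
    have h2 := sl_add (φ := φ) (ν := ν) (a := a) y s₀ (s - s₀) z₀ (z - z₀)
    rw [add_sub_cancel, add_sub_cancel] at h2
    rw [h2, h1]
    push_cast
    rfl

theorem bc {d : ℕ} (S : TDat X Λ u a ν b E D Bad SS) (ha : ‖a‖ = 1) (hch : Charts d X) {P : JForm X Λ u ν m} (hA : AlgP D P) (hP : ThP P a Nν)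
    (hex : ∀ f ∈ Hc X Λ u a b, ∃ φ ∈ SS, ∀ z : ℂ, f z = φ (b + z • a)) : Pool.Agent.G3.E.BC X Λ u a ν b := by
  obtain ⟨δ, hδ, hcirc⟩ := S.circ ha (η := 1) one_pos
  obtain ⟨ε, hε, hE⟩ := eat_unif S ha hA hP hδ
  have hb : b ∈ Tb b E := by
    show b - b ∈ E
    rw [sub_self]
    exact E.zero_mem
  refine ⟨ε, hε, fun f hf => ?_⟩
  obtain ⟨φ, hφ, hφf⟩ := hex f hf
  have SD := S.sdat hφ hb
  have hΦ : ∀ s : ℝ, ∃ F ∈ Gc X Λ u a (b + (s : ℂ) • ν), ∀ z, sl φ a ν b s z = pr (F z) := SD.lift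
  have hl : ∀ s : ℝ, ∃ F : ℂ → EN N, Differentiable ℂ F ∧ (∀ z, F z ≠ 0) ∧ ∀ z, sl φ a ν b s z = pr (F z) := fun s => by
    obtain ⟨F, hF, hFs⟩ := hΦ s
    exact ⟨F, hF.1, fun z h0 => S.cone.zero_notMem (h0 ▸ hF.2.1 z), hFs⟩
  obtain ⟨Ψ, h1, h2, h3⟩ := glue S.cone hch S.tor S.lat hΦ hε (fun s₀ z₀ => by
    obtain ⟨r, hr, -, hcr⟩ := hcirc (b + (s₀ : ℂ) • ν + z₀ • a)
    obtain ⟨W, r₂, hr₂, hW, hWr⟩ := fill hl (s₀ := s₀) (z₀ := z₀) hr hε (fun z hz => by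
      refine mc_eat b (hE φ hφ _ (S.tb hb s₀ z) ?_)
      have h4 := hcr (z - z₀) (by rw [← dist_eq_norm]; exact hz)
      have e : b + (s₀ : ℂ) • ν + z₀ • a + (z - z₀) • a = b + (s₀ : ℂ) • ν + z • a := by
        rw [sub_smul]
        abel
      rwa [e] at h4)
    exact ⟨W, r₂, hr.trans hr₂, hW, hWr⟩)
  refine ⟨Ψ, fun z => ?_, fun ζ hζ => ?_, h3⟩
  · have h4 := h1 0 z
    rw [Complex.ofReal_zero] at h4
    rw [h4, hφf]
    show φ (b + ((0 : ℝ) : ℂ) • ν + z • a) = φ (b + z • a)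
    congr 1
    simp
  · obtain ⟨F, hF, hFz⟩ := h2 ζ hζ
    exact ⟨F, hF, funext hFz⟩

end Pool.Agent.G4.C
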