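import Pool.Agent.G4.C.QFt
import Pool.Agent.G3.C.GenB
import Pool.Agent.G3.C.GenC

/-!
# G4 C Near: in every open set of a slice there is a point where the family extends to complex parameters

`near_EAt` as in `G3/C/Leaf`, for one slice (`SDat`), if the jet form vanishes on the family (`PZs`) and the point is not over `Nν`.
-/

set_option autoImplicit false

open Topology Filter Metric

namespace Pool.Agent.G4.C

open Pool.Agent.H36.BP (EN fs wd)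
open Pool.Agent.H14.PP (IsCone)
open Pool.Agent.H62.EF (MN pr)
open Pool.Agent.AD (Vd Chart Charts)
open Pool.Agent.TG (TMap Lat Str ms tl)
open Pool.Agent.G3.C

variable {N k : ℕ} {X : Set (EN N)} {Λ : AddSubgroup (Vd (k + 1))} {u : EN N → Vd (k + 1)} {ν a b c : Vd (k + 1)} {m : ℕ} {ρ : ℝ}
  {Dt Bd : Set (ℂ × ℂ)} {Φ : ℝ → ℂ → MN N} {Nν : Set (Vd (k + 1))}

/-- the jet form vanishes on the family -/
def PZs (P : JForm X Λ u ν m) (a b : Vd (k + 1)) (Dt : Set (ℂ × ℂ)) (Φ : ℝ → ℂ → MN N) : Prop :=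
  ∀ (s : ℝ) (z : ℂ), ((s : ℂ), z) ∉ Dt → ∀ x : EN N, x ≠ 0 → Φ s z = pr x → pval P a b Φ s z x = 0

private theorem Near_QF (D : SDat X Λ u a ν b Dt Bd Φ) {P : JForm X Λ u ν m} (hZ : PZs P a b Dt Φ) {χ : Chart (k + 2) X} {ρ' : ℝ}
    {w : ℕ → ℝ → ℂ → ℂ} {s : ℝ} {z : ℂ} {r : ℝ} (B : Box X Λ u a ν b Φ χ c ρ' w s z r) (h : ((s : ℂ), z) ∉ Dt) : QF P b a χ c ρ' (Jt m w s z) = 0 := by
  have hs : s ∈ Set.Ioo (s - r) (s + r) := ⟨by linarith [B.pos], by linarith [B.pos]⟩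
  have hz : z ∈ ball z r := mem_ball_self B.pos
  have h1 := pval_eq D.cone B P (x := χ.σ (cz b ν a c ρ' (w 0 s z) s z)) (α := 1) (one_smul _ _).symm one_ne_zero
  rw [mul_one] at h1
  rw [← h1]
  exact hZ s z h _ (fun h0 => D.cone.zero_notMem (h0 ▸ (χ.σ_mem _ (B.mem s hs z hz)).1)) (B.eq s hs z hz)

/-- no point over `D` in a small ball with a good centre -/
private theorem Leaf_good (D : SDat X Λ u a ν b Dt Bd Φ) {p : ℂ × ℂ} (hp : p ∉ Dt) : ∃ r : ℝ, 0 < r ∧ ∀ q ∈ ball p r, q ∉ Dt := by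
  obtain ⟨r, hr, h⟩ := Metric.isOpen_iff.1 D.dt_closed.isOpen_compl p hp
  exact ⟨r, hr, fun q hq => h hq⟩

private theorem Leaf_ball {s s₀ r : ℝ} {z z₀ : ℂ} (hr : 0 < r) (hs : |s - s₀| < r) (hz : dist z z₀ < r) :
    ((s : ℂ), z) ∈ ball ((s₀ : ℂ), z₀) r := by
  rw [mem_ball, Prod.dist_eq]
  refine max_lt ?_ hz
  rwa [dist_eq_norm, ← Complex.ofReal_sub, Complex.norm_real, Real.norm_eq_abs]

private theorem Leaf_cz {ρ' : ℝ} {W : ℂ × ℂ → ℂ} {p : ℂ × ℂ} (hW : DifferentiableAt ℂ W p) :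
    DifferentiableAt ℂ (fun p : ℂ × ℂ => cz b ν a c ρ' (W p) p.1 p.2) p := by
  rw [differentiableAt_pi]
  intro i
  refine Fin.cases ?_ (fun j => ?_) i
  · simpa [cz] using hW
  · have h1 : DifferentiableAt ℂ (fun p : ℂ × ℂ => (ρ' : ℂ)⁻¹ * (b j + p.1 * ν j + p.2 * a j - c j)) p := by
      fun_prop
    simpa [cz, tz] using h1

theorem near_EAt (D : SDat X Λ u a ν b Dt Bd Φ) {P : JForm X Λ u ν m} (hP : ThP P a Nν) (hZ : PZs P a b Dt Φ) {s₀ : ℝ} {z₀ : ℂ}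
    (h : ((s₀ : ℂ), z₀) ∉ Dt) (hN : b + (s₀ : ℂ) • ν + z₀ • a ∉ Nν) {δ : ℝ} (hδ : 0 < δ) : ∃ (s₁ : ℝ) (z₁ : ℂ) (ε : ℝ), |s₁ - s₀| < δ ∧ ‖z₁ - z₀‖ < δ ∧ 0 < ε ∧ EAt Φ s₁ z₁ ε := by
  obtain ⟨χ, c, ρ', w, r, B⟩ := D.smo s₀ z₀ h
  obtain ⟨r₀, hr₀, hgood⟩ := Leaf_good D h
  obtain ⟨r', hr'⟩ : ∃ r' : ℝ, r' = min (min r δ) r₀ := ⟨_, rfl⟩
  have hr'0 : 0 < r' := by
    rw [hr']
    exact lt_min (lt_min B.pos hδ) hr₀
  have hr'r : r' ≤ r := by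
    rw [hr']
    exact (min_le_left _ _).trans (min_le_left _ _)
  have hr'δ : r' ≤ δ := by
    rw [hr']
    exact (min_le_left _ _).trans (min_le_right _ _)
  have hr'r₀ : r' ≤ r₀ := by
    rw [hr']
    exact min_le_right _ _
  have hI : ∀ s ∈ Set.Ioo (s₀ - r') (s₀ + r'), s ∈ Set.Ioo (s₀ - r) (s₀ + r) := fun s hs =>
    ⟨by linarith [hs.1], by linarith [hs.2]⟩
  have hD : ball z₀ r' ⊆ ball z₀ r := ball_subset_ball hr'r
  have hJ : JetFam w (Set.Ioo (s₀ - r') (s₀ + r')) (ball z₀ r') :=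
    ⟨fun j s hs z hz => B.jet.der j s (hI s hs) z (hD hz),
      fun j => (B.jet.cont j).mono (Set.prod_mono (fun s hs => hI s hs) hD),
      fun j s hs => (B.jet.hol j s (hI s hs)).mono hD⟩
  have hnot : ∀ s ∈ Set.Ioo (s₀ - r') (s₀ + r'), ∀ z ∈ ball z₀ r', ((s : ℂ), z) ∉ Dt := by
    intro s hs z hz
    apply hgood
    refine ball_subset_ball hr'r₀ (Leaf_ball hr'0 ?_ (mem_ball.1 hz))
    rw [abs_lt]
    exact ⟨by linarith [hs.1], by linarith [hs.2]⟩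
  obtain ⟨s₁, hs₁, z₁, hz₁, hE⟩ := gen_analytic m (O := OD b ν a c ρ' m) OD_open OD_convex OD_dep (Q := QF P b a χ c ρ')
    (QF_analytic P B.str) (QF_ne D.cone D.tor D.lat hP B.str (B.mem s₀ ⟨by linarith [B.pos], by linarith [B.pos]⟩ z₀ (mem_ball_self B.pos)) hN) (w := w) (I := Set.Ioo (s₀ - r') (s₀ + r')) (D := ball z₀ r')
    isOpen_Ioo isOpen_ball ⟨s₀, by linarith, by linarith⟩ ⟨z₀, mem_ball_self hr'0⟩ hJ
    (fun s hs z hz => B.mem s (hI s hs) z (hD hz))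
    (fun s hs z hz => by
      obtain ⟨r'', B'⟩ := B.move (hI s hs) (hD hz)
      exact Near_QF D hZ B' (hnot s hs z hz))
  obtain ⟨ε, W, hε, hW, hsI, hzD, hWw⟩ := Ext.joint hJ hE
  have hself : ((s₁ : ℂ), z₁) ∈ ball ((s₁ : ℂ), z₁) ε := mem_ball_self hε
  have hWat : ∀ p ∈ ball ((s₁ : ℂ), z₁) ε, DifferentiableAt ℂ W p := fun p hp => hW.differentiableAt (isOpen_ball.mem_nhds hp)
  have hcz : ∀ p ∈ ball ((s₁ : ℂ), z₁) ε, DifferentiableAt ℂ (fun p : ℂ × ℂ => cz b ν a c ρ' (W p) p.1 p.2) p := fun p hp =>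
    Leaf_cz (hWat p hp)
  have hm : cz b ν a c ρ' (W ((s₁ : ℂ), z₁)) (s₁ : ℂ) z₁ ∈ ball (0 : Vd (k + 2)) 2 := by
    rw [hWw s₁ z₁ hself]
    exact B.mem s₁ (hI s₁ hs₁) z₁ (hD hz₁)
  have hev : ∀ᶠ p in 𝓝 ((s₁ : ℂ), z₁), cz b ν a c ρ' (W p) p.1 p.2 ∈ ball (0 : Vd (k + 2)) 2 :=
    (hcz _ hself).continuousAt.eventually_mem (isOpen_ball.mem_nhds hm)
  obtain ⟨ε₁, hε₁, hin⟩ := Metric.eventually_nhds_iff_ball.mp hev
  refine ⟨s₁, z₁, min ε ε₁, ?_, ?_, lt_min hε hε₁, fun p => χ.σ (cz b ν a c ρ' (W p) p.1 p.2), ?_, ?_, ?_⟩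
  · rw [abs_lt]
    exact ⟨by linarith [hs₁.1], by linarith [hs₁.2]⟩
  · rw [← dist_eq_norm]
    exact lt_of_lt_of_le (mem_ball.1 hz₁) hr'δ
  · intro p hp
    have h1 := χ.σ_an _ (hin p (ball_subset_ball (min_le_right _ _) hp))
    exact (h1.differentiableAt.comp p (hcz p (ball_subset_ball (min_le_left _ _) hp))).differentiableWithinAt
  · intro p hp h0
    have h1 := (χ.σ_mem _ (hin p (ball_subset_ball (min_le_right _ _) hp))).1
    have h0' : χ.σ (cz b ν a c ρ' (W p) p.1 p.2) = 0 := h0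
    rw [h0'] at h1
    exact D.cone.zero_notMem h1
  · intro s z hp
    have hp' := ball_subset_ball (min_le_left ε ε₁) hp
    have h1 : s ∈ Set.Ioo (s₀ - r') (s₀ + r') := by
      apply hsI
      rw [mem_ball, Prod.dist_eq] at hp'
      have h2 := (le_max_left _ _).trans_lt hp'
      simp only at h2
      rwa [dist_eq_norm, ← Complex.ofReal_sub, Complex.norm_real, Real.norm_eq_abs] at h2
    have h2 : z ∈ ball z₀ r' := by
      apply hzD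
      rw [mem_ball, Prod.dist_eq] at hp'
      exact (le_max_right _ _).trans_lt hp'
    rw [B.eq s (hI s h1) z (hD h2)]
    simp only
    rw [hWw s z hp']

end Pool.Agent.G4.C
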