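import Pool.Agent.G4.C.PT
import Pool.Agent.G4.C.GCb
import Pool.Agent.TG.Gd

/-!
# G4 C PVc: the bound for the jet form on the sheets, off the bad points

`pT_loc0`: near a point off `D` by continuity (`BoxT.pT_norm`).  `pT_loc`: near a point of `D` which is not bad by `pval_box`.  `pT_bound`: compactness of `T` modulo `Λ ∩ E`.
-/

set_option autoImplicit false

open Topology Filter Metric

namespace Pool.Agent.G4.C

open Pool.Agent.H36.BP (EN fs wd)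
open Pool.Agent.H14.PP (IsCone)
open Pool.Agent.H62.EF (MN pr)
open Pool.Agent.AD (Vd Chart Charts)
open Pool.Agent.TG (TMap Lat Str ms tl Gd gd_mono gd_notMem gd_closed gd_near)
open Pool.Agent.G3.A (Tb)
open Pool.Agent.G3.C

variable {N k : ℕ} {X : Set (EN N)} {Λ : AddSubgroup (Vd (k + 1))} {u : EN N → Vd (k + 1)} {ν a b c : Vd (k + 1)} {m : ℕ} {ρ : ℝ} {E : Submodule ℝ (Vd (k + 1))}
  {D Bad T : Set (Vd (k + 1))} {SS : Set (Vd (k + 1) → MN N)} {φ : Vd (k + 1) → MN N} {χ : Chart (k + 2) X} {w : ℕ → Vd (k + 1) → ℂ} {y₀ : Vd (k + 1)} {r : ℝ}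

/-- the bound `C` for the jet form at the point `y` -/
def BdAt (P : JForm X Λ u ν m) (a : Vd (k + 1)) (φ : Vd (k + 1) → MN N) (C : ℝ) (y : Vd (k + 1)) : Prop := ∀ x : EN N, x ≠ 0 → φ y = pr x → ‖pT P a φ y x‖ * ‖x‖ ≤ C

theorem BdAt.mono {P : JForm X Λ u ν m} {C C' : ℝ} {y : Vd (k + 1)} (h : BdAt P a φ C y) (hC : C ≤ C') : BdAt P a φ C' y := fun x hx hφ => (h x hx hφ).trans hC

theorem TDat.add_mem (S : TDat X Λ u a ν b E D Bad SS) {y v : Vd (k + 1)} (hy : y ∈ Tb b E) (hv : v ∈ E) : y + v ∈ Tb b E := by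
  show y + v - b ∈ E
  have e : y + v - b = (y - b) + v := by abel
  rw [e]
  exact E.add_mem hy hv

theorem tb_closed (b : Vd (k + 1)) (E : Submodule ℝ (Vd (k + 1))) : IsClosed (Tb b E) := by
  have h1 : IsClosed (E : Set (Vd (k + 1))) := E.closed_of_finiteDimensional
  exact h1.preimage (continuous_id.sub continuous_const)

private theorem pT_loc0 (S : TDat X Λ u a ν b E D Bad SS) (P : JForm X Λ u ν m) (hφ : φ ∈ SS) (hy₀ : y₀ ∈ Tb b E) (hD : y₀ ∉ D) :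
    ∃ C : ℝ, ∀ᶠ y in 𝓝[Tb b E] y₀, BdAt P a φ C y := by
  obtain ⟨χ, c, ρ, w, r, B⟩ := S.smo φ hφ y₀ hy₀ hD
  have hT : Tb b E ∩ ball y₀ r ∈ 𝓝[Tb b E] y₀ := inter_mem self_mem_nhdsWithin (mem_nhdsWithin_of_mem_nhds (ball_mem_nhds y₀ B.pos))
  have hy₀' : y₀ ∈ Tb b E ∩ ball y₀ r := ⟨hy₀, mem_ball_self B.pos⟩
  have hw : ∀ j, ContinuousWithinAt (w j) (Tb b E) y₀ := fun j => by
    have h1 := (B.cont j) y₀ hy₀'
    rwa [ContinuousWithinAt, nhdsWithin_inter_of_mem' (mem_nhdsWithin_of_mem_nhds (ball_mem_nhds y₀ B.pos))] at h1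
  have hq : cy c ρ (w 0 y₀) y₀ ∈ ball (0 : Vd (k + 2)) 2 := B.mem y₀ hy₀'
  have hv : ContinuousWithinAt (fun y => ((y, fun j : Fin (m + 1) => w j y) : Vd (k + 1) × (Fin (m + 1) → ℂ))) (Tb b E) y₀ :=
    continuousWithinAt_id.prodMk (continuousWithinAt_pi.2 fun j => hw j)
  have hQ : ContinuousWithinAt (fun y => QY P χ c ρ (y, fun j : Fin (m + 1) => w j y)) (Tb b E) y₀ := by
    have h1 : ContinuousAt (QY P χ c ρ) (y₀, fun j : Fin (m + 1) => w j y₀) := (QY_analytic P B.str hq).continuousAt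
    exact ContinuousAt.comp_continuousWithinAt (g := QY P χ c ρ) (f := fun y => ((y, fun j : Fin (m + 1) => w j y) : Vd (k + 1) × (Fin (m + 1) → ℂ))) h1 hv
  have hcy : ContinuousAt (fun p : ℂ × Vd (k + 1) => cy c ρ p.1 p.2) (w 0 y₀, y₀) := (cy_analytic analyticAt_fst analyticAt_snd).continuousAt
  have hcy' : ContinuousWithinAt (fun y => cy c ρ (w 0 y) y) (Tb b E) y₀ :=
    ContinuousAt.comp_continuousWithinAt (g := fun p : ℂ × Vd (k + 1) => cy c ρ p.1 p.2) (f := fun y => ((w 0 y, y) : ℂ × Vd (k + 1))) hcy ((hw 0).prodMk continuousWithinAt_id)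
  have hσ : ContinuousWithinAt (fun y => χ.σ (cy c ρ (w 0 y) y)) (Tb b E) y₀ :=
    ContinuousAt.comp_continuousWithinAt (g := χ.σ) (f := fun y => cy c ρ (w 0 y) y) (χ.σ_an _ hq).continuousAt hcy'
  have hG : ContinuousWithinAt (fun y => ‖QY P χ c ρ (y, fun j : Fin (m + 1) => w j y)‖ * ‖χ.σ (cy c ρ (w 0 y) y)‖) (Tb b E) y₀ := hQ.norm.mul hσ.norm
  obtain ⟨C, hC⟩ := exists_gt (‖QY P χ c ρ (y₀, fun j : Fin (m + 1) => w j y₀)‖ * ‖χ.σ (cy c ρ (w 0 y₀) y₀)‖)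
  refine ⟨C, ?_⟩
  filter_upwards [hT, hG.eventually_lt_const hC] with y hy hyC x hx hφx
  rw [B.pT_norm S.cone P (fun s z => S.tb hy.1 s z) hy.2 hx hφx]
  exact hyC.le

theorem pT_loc (S : TDat X Λ u a ν b E D Bad SS) (P : JForm X Λ u ν m) (hφ : φ ∈ SS) (hy₀ : y₀ ∈ Tb b E) (hB : y₀ ∉ Bad) :
    ∃ C : ℝ, ∀ᶠ y in 𝓝[Tb b E] y₀, y ∉ D → BdAt P a φ C y := by
  -- the radius
  have hc : Continuous fun p : Vd (k + 1) × ℂ => p.1 + p.2 • a := by fun_prop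
  obtain ⟨r, hr, hrD, hrB⟩ : ∃ r : ℝ, 0 < r ∧ (∀ z ∈ sphere (0 : ℂ) r, y₀ + z • a ∉ D) ∧ ∀ z ∈ closedBall (0 : ℂ) r, y₀ + z • a ∉ Bad := by
    obtain ⟨ε₁, hε₁, h1⟩ := Metric.eventually_nhds_iff_ball.1 (eventually_nhdsWithin_iff.1 (S.iso y₀ 0))
    have h2 : ∀ᶠ z in 𝓝 (0 : ℂ), y₀ + z • a ∉ Bad := by
      have hc0 : Continuous fun z : ℂ => y₀ + z • a := by fun_prop
      have h3 : (fun z : ℂ => y₀ + z • a) 0 ∈ Badᶜ := by
        show y₀ + (0 : ℂ) • a ∉ Bad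
        rwa [zero_smul, add_zero]
      exact hc0.continuousAt.eventually (S.bad_closed.isOpen_compl.mem_nhds h3)
    obtain ⟨ε₂, hε₂, h2⟩ := Metric.eventually_nhds_iff_ball.1 h2
    have hm : 0 < min ε₁ ε₂ := lt_min hε₁ hε₂
    refine ⟨min ε₁ ε₂ / 2, by positivity, fun z hz => ?_, fun z hz => ?_⟩
    · rw [mem_sphere] at hz
      refine h1 z (mem_ball.2 (by rw [hz]; linarith [min_le_left ε₁ ε₂])) ?_
      rintro rfl
      rw [dist_self] at hz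
      linarith
    · rw [mem_closedBall] at hz
      exact h2 z (mem_ball.2 (by linarith [min_le_right ε₁ ε₂]))
  -- the bound on the sphere
  obtain ⟨C, hC⟩ : ∃ C : ℝ, ∀ᶠ y in 𝓝[Tb b E] y₀, ∀ z ∈ sphere (0 : ℂ) r, y + z • a ∉ D ∧ BdAt P a φ C (y + z • a) := by
    refine (isCompact_sphere (0 : ℂ) r).induction_on (p := fun Z : Set ℂ => ∃ C : ℝ, ∀ᶠ y in 𝓝[Tb b E] y₀, ∀ z ∈ Z, y + z • a ∉ D ∧ BdAt P a φ C (y + z • a)) ?_ ?_ ?_ ?_
    · exact ⟨0, Eventually.of_forall fun y z hz => absurd hz (Set.notMem_empty z)⟩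
    · rintro Z Z' hZ ⟨C, hC⟩
      exact ⟨C, hC.mono fun y hy z hz => hy z (hZ hz)⟩
    · rintro Z Z' ⟨C, hC⟩ ⟨C', hC'⟩
      refine ⟨max C C', ?_⟩
      filter_upwards [hC, hC'] with y h1 h2 z hz
      rcases hz with hz | hz
      · exact ⟨(h1 z hz).1, (h1 z hz).2.mono (le_max_left _ _)⟩
      · exact ⟨(h2 z hz).1, (h2 z hz).2.mono (le_max_right _ _)⟩
    · intro z hz
      obtain ⟨C, hC⟩ := pT_loc0 S P hφ (S.add_mem hy₀ (S.a_mem z)) (hrD z hz)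
      have hD' : ∀ᶠ y in 𝓝[Tb b E] (y₀ + z • a), y ∉ D := mem_nhdsWithin_of_mem_nhds (S.D_closed.isOpen_compl.mem_nhds (hrD z hz))
      have ht : Tendsto (fun p : Vd (k + 1) × ℂ => p.1 + p.2 • a) (𝓝[Tb b E] y₀ ×ˢ 𝓝 z) (𝓝[Tb b E] (y₀ + z • a)) := by
        refine tendsto_nhdsWithin_iff.2 ⟨?_, ?_⟩
        · have h1 := hc.tendsto (y₀, z)
          rw [nhds_prod_eq] at h1
          exact h1.mono_left (Filter.prod_mono nhdsWithin_le_nhds le_rfl)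
        · have h2 : ∀ᶠ p : Vd (k + 1) × ℂ in 𝓝[Tb b E] y₀ ×ˢ 𝓝 z, p.1 ∈ Tb b E := tendsto_fst.eventually self_mem_nhdsWithin
          exact h2.mono fun p hp => S.add_mem hp (S.a_mem p.2)
      obtain ⟨p1, hp1, p2, hp2, hp⟩ := Filter.eventually_prod_iff.1 (ht.eventually (hD'.and hC))
      refine ⟨{z' | p2 z'}, mem_nhdsWithin_of_mem_nhds hp2, C, ?_⟩
      filter_upwards [hp1] with y hy z' hz'
      exact hp hy hz'
  have hB' : ∀ᶠ y in 𝓝 y₀, ∀ z ∈ closedBall (0 : ℂ) r, y + z • a ∉ Bad := by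
    refine (isCompact_closedBall (0 : ℂ) r).eventually_forall_of_forall_eventually fun z hz => ?_
    have h1 : (fun p : Vd (k + 1) × ℂ => p.1 + p.2 • a) (y₀, z) ∈ Badᶜ := hrB z hz
    exact hc.continuousAt.eventually (S.bad_closed.isOpen_compl.mem_nhds h1)
  obtain ⟨η, hη, hηP⟩ := Metric.mem_nhdsWithin_iff.1 (hC.and (mem_nhdsWithin_of_mem_nhds hB'))
  have hηP : ∀ y ∈ Tb b E, ‖y - y₀‖ < η → (∀ z ∈ sphere (0 : ℂ) r, y + z • a ∉ D ∧ BdAt P a φ C (y + z • a)) ∧ ∀ z ∈ closedBall (0 : ℂ) r, y + z • a ∉ Bad :=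
    fun y hy hd => hηP ⟨by rw [mem_ball, dist_eq_norm]; exact hd, hy⟩
  refine ⟨C, ?_⟩
  have hn : 0 < ‖ν‖ + 1 := by positivity
  filter_upwards [self_mem_nhdsWithin, mem_nhdsWithin_of_mem_nhds (ball_mem_nhds y₀ (half_pos hη))] with y hyT hy hyD x hx hφx
  rw [mem_ball, dist_eq_norm] at hy
  have hsl : ∀ s : ℝ, |s| ≤ η / (2 * (‖ν‖ + 1)) → ‖y + (s : ℂ) • ν - y₀‖ < η := by
    intro s hs
    have h1 : ‖(s : ℂ) • ν‖ ≤ η / 2 := by
      rw [norm_smul, Complex.norm_real, Real.norm_eq_abs]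
      calc |s| * ‖ν‖ ≤ η / (2 * (‖ν‖ + 1)) * (‖ν‖ + 1) := by gcongr; linarith
        _ = η / 2 := by field_simp
    have h2 : y + (s : ℂ) • ν - y₀ = (y - y₀) + (s : ℂ) • ν := by abel
    rw [h2]
    exact (norm_add_le _ _).trans_lt (by linarith)
  have hslT : ∀ s : ℝ, y + (s : ℂ) • ν ∈ Tb b E := fun s => by
    have h1 := S.tb hyT s 0
    rwa [zero_smul, add_zero] at h1
  have h0 : |(0 : ℝ) - 0| < η / (2 * (‖ν‖ + 1)) := by
    rw [sub_zero, abs_zero]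
    positivity
  have e0 : y + ((0 : ℝ) : ℂ) • ν + (0 : ℂ) • a = y := by simp
  refine pval_box (S.sdat hφ hyT) P (s₀ := 0) (z₀ := 0) hr (δ := η / (2 * (‖ν‖ + 1))) (C := C) ?_ ?_ ?_ 0 h0 0 (mem_ball_self hr) ?_ x hx ?_
  · intro s hs z hz
    rw [sub_zero] at hs
    exact ((hηP _ (hslT s) (hsl s hs)).1 z hz).1
  · intro s hs z hz
    rw [sub_zero] at hs
    exact (hηP _ (hslT s) (hsl s hs)).2 z hz
  · intro s hs z hz x' hx' hφx'
    rw [sub_zero] at hs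
    obtain ⟨h1, h2⟩ := (hηP _ (hslT s) (hsl s hs)).1 z hz
    rw [pval_pT S.cone P ((S.sdat hφ hyT).smo s z h1) (S.smoS hφ (S.tb hyT s z) h1) hx' hφx']
    exact h2 x' hx' hφx'
  · show ¬ (y + ((0 : ℝ) : ℂ) • ν + (0 : ℂ) • a ∈ D)
    rwa [e0]
  · show φ (y + ((0 : ℝ) : ℂ) • ν + (0 : ℂ) • a) = pr x
    rwa [e0]

theorem gdB_add (S : TDat X Λ u a ν b E D Bad SS) {η : ℝ} {y l : Vd (k + 1)} (hl : l ∈ Λ) (h : y ∈ Gd Bad η) : y + l ∈ Gd Bad η := by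
  intro β hβ
  have h1 := h _ (S.bad_inv β hβ (-l) (Λ.neg_mem hl))
  have h2 : y - (β + -l) = y + l - β := by abel
  rwa [h2] at h1

theorem pT_bound (S : TDat X Λ u a ν b E D Bad SS) (P : JForm X Λ u ν m) {η : ℝ} (hη : 0 < η) :
    ∃ C : ℝ, ∀ φ ∈ SS, ∀ y ∈ Tb b E, y ∈ Gd Bad η → y ∉ D → BdAt P a φ C y := by
  obtain ⟨R, hR, hRl⟩ := S.cpt
  obtain ⟨K, hKd⟩ : ∃ K : Set (Vd (k + 1)), K = (Tb b E ∩ Gd Bad η) ∩ closedBall b R := ⟨_, rfl⟩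
  have hK : IsCompact K := by
    rw [hKd]
    exact (isCompact_closedBall b R).inter_left ((tb_closed b E).inter (gd_closed Bad η))
  have h1 : ∀ φ ∈ SS, ∃ C : ℝ, ∀ y ∈ K, y ∉ D → BdAt P a φ C y := by
    intro φ hφ
    refine hK.induction_on (p := fun Z => ∃ C : ℝ, ∀ y ∈ Z, y ∉ D → BdAt P a φ C y) ⟨0, fun y hy => absurd hy (Set.notMem_empty y)⟩ ?_ ?_ ?_
    · rintro Z Z' hZ ⟨C, h⟩
      exact ⟨C, fun y hy => h y (hZ hy)⟩
    · rintro Z Z' ⟨C, h⟩ ⟨C', h'⟩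
      refine ⟨max C C', fun y hy hyD => ?_⟩
      rcases hy with hy | hy
      · exact (h y hy hyD).mono (le_max_left _ _)
      · exact (h' y hy hyD).mono (le_max_right _ _)
    · intro y hy
      rw [hKd] at hy
      obtain ⟨C, hC⟩ := pT_loc S P hφ hy.1.1 (gd_notMem hη hy.1.2)
      refine ⟨{y | y ∉ D → BdAt P a φ C y}, ?_, C, fun y hy => hy⟩
      refine nhdsWithin_mono y ?_ hC
      rw [hKd]
      exact fun y hy => hy.1.1
  choose! C hC using h1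
  obtain ⟨M, hM⟩ : ∃ M : ℝ, ∀ φ ∈ SS, C φ ≤ M := by
    obtain ⟨M, hM⟩ := (S.fin.image C).bddAbove
    exact ⟨M, fun φ hφ => hM ⟨φ, hφ, rfl⟩⟩
  refine ⟨M, fun φ hφ y hy hyB hyD => ?_⟩
  obtain ⟨l, hl, hlE, hlR⟩ := hRl (y - b) hy
  obtain ⟨φ', hφ', hφ'e⟩ := S.tr φ hφ l hl hlE
  have hyl : y - l ∈ Tb b E := by
    have h2 := S.add_mem hy (E.neg_mem hlE)
    rwa [← sub_eq_add_neg] at h2
  have hylD : y - l ∉ D := fun h2 => hyD (by
    have h3 := S.D_inv _ h2 l hl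
    rwa [sub_add_cancel] at h3)
  have hylK : y - l ∈ K := by
    rw [hKd]
    refine ⟨⟨hyl, ?_⟩, ?_⟩
    · have h2 := gdB_add S (Λ.neg_mem hl) hyB
      rwa [← sub_eq_add_neg] at h2
    · rw [mem_closedBall, dist_eq_norm]
      have h3 : y - l - b = y - b - l := by abel
      rw [h3]
      exact hlR
  have h2 : BdAt P a φ' M (y - l) := (hC φ' hφ' _ hylK hylD).mono (hM φ' hφ')
  intro x hx hφx
  have e : y - l + l = y := sub_add_cancel y l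
  have h3 : φ' (y - l) = pr x := by rw [hφ'e _ hyl, e, hφx]
  have h4 := h2 x hx h3
  have h5 := pT_add S.cone P (y := y - l) (l := l) hl (φ := φ) (φ' := φ') (fun s z => hφ'e _ (S.tb hyl s z)) (by rw [e]; exact S.smoS hφ hy hyD) hx (by rw [e]; exact hφx)
  rw [e] at h5
  rwa [h5] at h4

end Pool.Agent.G4.C
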