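import Pool.Agent.G4.C.Slc
import Pool.Agent.G4.A.GeoC
import Pool.Agent.G4.C.PoA

/-!
# G4 C PoB: the zeros of the polynomials `R i` along the curves

`TDat.lg`: the geometry of the lines of direction `a` (`G4/A/Defs`, for `exists_lc`, i.e. `LC.circ`: small circles over `Gd D δ'`).
`alg_lb`: `R i` homogeneous of degree `e` without common zero outside `D`.  Let `F ∈ Gc y`, `z₀ : ℂ`; `LC.circ` with `η = 1/8` gives `δ'` (independent of `y`, `z₀`) and `z₁`, `‖z₁ - z₀‖ < 1/8`, `y + z₁ a ∈ Gd D δ'`.  Normalised lift `G` of the curve on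
`ball z₀ 2` (`S.nl`, in `Hc X Λ u a y`): `‖G‖ ≤ 1`, `c ≤ ‖G z₁‖`, `G z ∈ X`.  By compactness of `X ∩ sphere 0 1 ∩ {x | u x ∈ Gd D δ' + Λ}` (a sequence / `TG/Gd`: `compact_unit`; `u x - y' ∈ Λ`, `y'` in a compact set `closedBall 0 R ∩ Gd D δ'`
modulo `Λ`) some `R i` satisfies `c₁ ‖x‖ ^ e ≤ ‖R i x‖` for the `x ∈ X` over `Gd D δ'`; `‖R i‖ ≤ B` on `closedBall 0 1`.  So `ord_lb` (file `PoA`, here `ord_lb'` as a hypothesis free lemma: import `PoA` when it is there) for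
`f = R i ∘ G`: `c' ‖z - z₀‖ ^ M ≤ ‖R i (G z)‖`, and `F z = μ(z) • G z`, `‖R i (F z)‖ = ‖μ z‖ ^ e ‖R i (G z)‖ ≥ (‖F z‖ / ‖G z‖) ^ e … ≥ ‖F z‖ ^ e * …`, with `‖F z‖` bounded below near `z₀` (`‖G z‖ ≤ 1`).
-/

set_option autoImplicit false

open Topology Filter Metric

namespace Pool.Agent.G4.C

open Pool.Agent.H36.BP (EN fs wd)
open Pool.Agent.H14.PP (IsCone)
open Pool.Agent.H62.EF (MN pr)
open Pool.Agent.AD (Vd Chart Charts)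
open Pool.Agent.TG (TMap Lat Str ms tl Gd)
open Pool.Agent.G3.A (Tb Hc NL)
open Pool.Agent.G3.C

variable {N k : ℕ} {X : Set (EN N)} {Λ : AddSubgroup (Vd (k + 1))} {u : EN N → Vd (k + 1)} {ν a b : Vd (k + 1)} {E : Submodule ℝ (Vd (k + 1))}
  {D Bad : Set (Vd (k + 1))} {SS : Set (Vd (k + 1) → MN N)}

theorem TDat.lg (S : TDat X Λ u a ν b E D Bad SS) (ha : ‖a‖ = 1) : Pool.Agent.G4.A.LG Λ D Bad a where
  norm := ha
  lat := S.lat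
  D_closed := S.D_closed
  D_inv := S.D_inv
  bad_sub := S.bad_sub
  bad_inv := S.bad_inv
  iso := fun y => S.iso y 0
  few := S.few

/-- small circles at every scale -/
theorem TDat.circ (S : TDat X Λ u a ν b E D Bad SS) (ha : ‖a‖ = 1) {η : ℝ} (hη : 0 < η) :
    ∃ δ : ℝ, 0 < δ ∧ ∀ y : Vd (k + 1), ∃ r : ℝ, 0 < r ∧ r < η ∧ ∀ z : ℂ, ‖z‖ = r → y + z • a ∈ Gd D δ := by
  obtain ⟨δ₀, h0, h⟩ := Pool.Agent.G4.A.exists_lc (S.lg ha) (ρ := 1 / 8) (by norm_num) le_rfl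
  exact (h δ₀ h0 le_rfl).circ η hη

/-- compactness: over the points of distance at least `δ` from `D` one of the `R i` is bounded below on the unit sphere -/
private theorem PoB_cpt (hX : IsCone X) (hu : TMap X Λ u) (hΛ : Lat Λ) (hD : ∀ y ∈ D, ∀ l ∈ Λ, y + l ∈ D) {δ : ℝ} (hδ : 0 < δ) {r : ℕ} {R : Fin r → EN N → ℂ}
    (hR : ∀ i, Differentiable ℂ (R i)) (hz : ∀ y ∉ D, ∀ x ∈ X, u x - y ∈ Λ → ∃ i, R i x ≠ 0) :
    ∃ c : ℝ, 0 < c ∧ ∀ x ∈ X, ‖x‖ = 1 → ∀ y ∈ Gd D δ, u x - y ∈ Λ → ∃ i, c ≤ ‖R i x‖ := by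
  obtain ⟨Rb, hRb, hcov⟩ := hΛ.cpt
  by_contra hcon
  push Not at hcon
  have h1 : ∀ n : ℕ, ∃ p : EN N × Vd (k + 1), p ∈ (X ∩ sphere (0 : EN N) 1) ×ˢ (closedBall (0 : Vd (k + 1)) Rb) ∧ p.2 ∈ Gd D δ ∧ u p.1 - p.2 ∈ Λ ∧
      ∀ i, ‖R i p.1‖ < 1 / ((n : ℝ) + 1) := by
    intro n
    obtain ⟨x, hx, hx1, y, hy, hxy, hi⟩ := hcon (1 / ((n : ℝ) + 1)) (by positivity)
    obtain ⟨l, hl, hlR⟩ := hcov y
    refine ⟨(x, y - l), ⟨⟨hx, mem_sphere_zero_iff_norm.2 hx1⟩, by rwa [mem_closedBall, dist_zero_right]⟩, ?_, ?_, hi⟩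
    · intro b hb
      have h2 := hy _ (hD b hb l hl)
      have e : y - (b + l) = y - l - b := by abel
      rwa [e] at h2
    · have e : u x - (y - l) = u x - y + l := by abel
      show u x - (y - l) ∈ Λ
      rw [e]
      exact Λ.add_mem hxy hl
  choose p hp1 hp2 hp3 hp4 using h1
  have hK : IsCompact ((X ∩ sphere (0 : EN N) 1) ×ˢ (closedBall (0 : Vd (k + 1)) Rb)) := (Pool.Agent.TG.compact_unit hX).prod (isCompact_closedBall 0 Rb)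
  obtain ⟨q, hq, σ, hσ, hlim⟩ := hK.tendsto_subseq hp1
  have hl1 : Tendsto (fun n => (p (σ n)).1) atTop (𝓝 q.1) := (continuous_fst.tendsto q).comp hlim
  have hl2 : Tendsto (fun n => (p (σ n)).2) atTop (𝓝 q.2) := (continuous_snd.tendsto q).comp hlim
  have hq1 : q.1 ∈ X := hq.1.1
  have h2 : u q.1 - q.2 ∈ Λ := Pool.Agent.TG.lim_mem hΛ hu hq1 hl1 hl2 (Eventually.of_forall fun n => ⟨(hp1 (σ n)).1.1, hp3 (σ n)⟩)
  have h3 : q.2 ∉ D := by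
    intro h
    have h4 : δ ≤ ‖q.2 - q.2‖ := ge_of_tendsto (hl2.sub_const q.2).norm (Eventually.of_forall fun n => hp2 (σ n) _ h)
    rw [sub_self, norm_zero] at h4
    linarith
  obtain ⟨i, hi⟩ := hz q.2 h3 q.1 hq1 h2
  apply hi
  have h4 : Tendsto (fun n => ‖R i (p (σ n)).1‖) atTop (𝓝 ‖R i q.1‖) := (((hR i).continuous.tendsto q.1).comp hl1).norm
  have h5 : Tendsto (fun n => 1 / (((σ n : ℕ) : ℝ) + 1)) atTop (𝓝 0) := tendsto_one_div_add_atTop_nhds_zero_nat.comp hσ.tendsto_atTop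
  have h6 := le_of_tendsto_of_tendsto' h4 h5 fun n => (hp4 (σ n) i).le
  exact norm_le_zero_iff.1 h6

private theorem PoB_bd {r : ℕ} {R : Fin r → EN N → ℂ} (hR : ∀ i, Differentiable ℂ (R i)) : ∃ B : ℝ, 0 < B ∧ ∀ i, ∀ x : EN N, ‖x‖ ≤ 1 → ‖R i x‖ ≤ B := by
  have h : ∀ i, ∃ B : ℝ, ∀ x ∈ closedBall (0 : EN N) 1, ‖R i x‖ ≤ B := fun i => (isCompact_closedBall 0 1).exists_bound_of_continuousOn (hR i).continuous.continuousOn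
  choose B hB using h
  refine ⟨1 + ∑ i, |B i|, by positivity, fun i x hx => ?_⟩
  have h1 := hB i x (by rwa [mem_closedBall, dist_zero_right])
  have h2 : |B i| ≤ ∑ i, |B i| := Finset.single_le_sum (f := fun i => |B i|) (fun j _ => abs_nonneg _) (Finset.mem_univ i)
  linarith [le_abs_self (B i)]

theorem alg_lb (S : TDat X Λ u a ν b E D Bad SS) (ha : ‖a‖ = 1) {r e : ℕ} {R : Fin r → EN N → ℂ} (hR : ∀ i, Differentiable ℂ (R i)) (hh : ∀ i (c : ℂ) x, R i (c • x) = c ^ e * R i x)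
    (hz : ∀ y ∉ D, ∀ x ∈ X, u x - y ∈ Λ → ∃ i, R i x ≠ 0) :
    ∃ M : ℕ, ∀ (y : Vd (k + 1)), ∀ F ∈ Gc X Λ u a y, ∀ z₀ : ℂ, ∃ (i : Fin r) (c : ℝ), 0 < c ∧ ∀ᶠ z in 𝓝[≠] z₀, c * ‖z - z₀‖ ^ M ≤ ‖R i (F z)‖ := by
  obtain ⟨δ, hδ, hcirc⟩ := S.circ ha (η := 1 / 8) (by norm_num)
  obtain ⟨c₀, hc₀, hnl⟩ := S.nl δ hδ
  obtain ⟨c₁, hc₁, hcp⟩ := PoB_cpt S.cone S.tor S.lat S.D_inv hδ hR hz
  obtain ⟨B, hB, hBd⟩ := PoB_bd hR
  have hcc : 0 < c₁ * c₀ ^ e := by positivity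
  obtain ⟨M, hM⟩ : ∃ M : ℕ, B < c₁ * c₀ ^ e * 16 ^ (M + 1) := by
    obtain ⟨n, hn⟩ := pow_unbounded_of_one_lt (B / (c₁ * c₀ ^ e)) (show (1 : ℝ) < 16 by norm_num)
    refine ⟨n, ?_⟩
    rw [div_lt_iff₀ hcc] at hn
    have h1 : (16 : ℝ) ^ n ≤ 16 ^ (n + 1) := pow_le_pow_right₀ (by norm_num) (Nat.le_succ n)
    calc B < 16 ^ n * (c₁ * c₀ ^ e) := hn
      _ ≤ 16 ^ (n + 1) * (c₁ * c₀ ^ e) := mul_le_mul_of_nonneg_right h1 hcc.le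
      _ = _ := mul_comm _ _
  refine ⟨M, fun y F hF z₀ => ?_⟩
  obtain ⟨ρ, hρ, hρ8, hρc⟩ := hcirc (y + z₀ • a)
  obtain ⟨z₁, hz₁⟩ : ∃ z₁ : ℂ, z₁ = z₀ + (ρ : ℂ) := ⟨_, rfl⟩
  have hz1n : ‖z₁ - z₀‖ = ρ := by
    rw [hz₁, add_sub_cancel_left, Complex.norm_real, Real.norm_of_nonneg hρ.le]
  have hz1g : y + z₁ • a ∈ Gd D δ := by
    have h1 := hρc (ρ : ℂ) (by rw [Complex.norm_real, Real.norm_of_nonneg hρ.le])
    have e1 : y + z₀ • a + (ρ : ℂ) • a = y + z₁ • a := by rw [hz₁, add_smul, add_assoc]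
    rwa [e1] at h1
  obtain ⟨G, hGd, hG, hGc⟩ := hnl y (fun z => pr (F z)) ⟨F, hF, rfl⟩ z₀
  have hz1b : z₁ ∈ ball z₀ 2 := by
    rw [mem_ball, dist_eq_norm, hz1n]
    linarith
  have hG1 : c₀ ≤ ‖G z₁‖ := hGc z₁ (by
    rw [mem_closedBall, dist_eq_norm, hz1n]
    linarith) hz1g
  obtain ⟨hF1, hF2, hF3⟩ := hF
  -- the factor
  have hfac : ∀ z ∈ ball z₀ 2, ∃ μ : ℂ, μ ≠ 0 ∧ F z = μ • G z := by
    intro z hz
    obtain ⟨h1, h2, -⟩ := hG z hz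
    obtain ⟨c, hc, h3⟩ := (Pool.Agent.H62.EF.pr_eq_iff (Pool.Agent.TG.ne_zero S.cone h1) (Pool.Agent.TG.ne_zero S.cone (hF2 z))).1 h2.symm
    refine ⟨c⁻¹, inv_ne_zero hc, ?_⟩
    rw [h3, smul_smul, inv_mul_cancel₀ hc, one_smul]
  have hX1 : G z₁ ∈ X := (hG z₁ hz1b).1
  have hu1 : u (G z₁) - (y + z₁ • a) ∈ Λ := by
    obtain ⟨μ, hμ, h3⟩ := hfac z₁ hz1b
    have h4 : G z₁ = μ⁻¹ • F z₁ := by rw [h3, smul_smul, inv_mul_cancel₀ hμ, one_smul]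
    rw [h4]
    exact Pool.Agent.TG.smul_mem_lat S.tor (hF2 z₁) (hF3 z₁) (inv_ne_zero hμ)
  obtain ⟨c', hc', hc'X, hc'1⟩ := Pool.Agent.TG.exists_unit S.cone hX1
  rw [mem_sphere_zero_iff_norm] at hc'1
  obtain ⟨i, hi⟩ := hcp _ hc'X hc'1 _ hz1g (Pool.Agent.TG.smul_mem_lat S.tor hX1 hu1 hc')
  have hlow : c₁ * c₀ ^ e ≤ ‖R i (G z₁)‖ := by
    rw [hh, norm_mul, norm_pow] at hi
    rw [norm_smul] at hc'1
    have h5 : ‖G z₁‖ ^ e * (‖c'‖ ^ e * ‖R i (G z₁)‖) = ‖R i (G z₁)‖ := by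
      rw [← mul_assoc, ← mul_pow, mul_comm ‖G z₁‖, hc'1, one_pow, one_mul]
    rw [← h5, mul_comm c₁]
    exact mul_le_mul (pow_le_pow_left₀ hc₀.le hG1 _) hi hc₁.le (by positivity)
  obtain ⟨c₂, hc₂, hev⟩ := ord_lb (f := fun z => R i (G z)) (z₀ := z₀) (z₁ := z₁) (B := B) (c := c₁ * c₀ ^ e) (M := M)
    ((hR i).comp_differentiableOn hGd) (fun z hz => hBd i _ (hG z hz).2.2) (by
      rw [hz1n]
      exact hρ8.le) hcc hlow hM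
  have hF0 : 0 < ‖F z₀‖ := norm_pos_iff.2 (Pool.Agent.TG.ne_zero S.cone (hF2 z₀))
  refine ⟨i, (‖F z₀‖ / 2) ^ e * c₂, by positivity, ?_⟩
  have h6 : ∀ᶠ z in 𝓝[≠] z₀, ‖F z₀‖ / 2 < ‖F z‖ := nhdsWithin_le_nhds (hF1.continuous.norm.continuousAt.eventually_const_lt (half_lt_self hF0))
  filter_upwards [hev, h6, mem_nhdsWithin_of_mem_nhds (ball_mem_nhds z₀ two_pos)] with z h7 h8 h9
  obtain ⟨μ, hμ, h10⟩ := hfac z h9
  have h11 : ‖F z₀‖ / 2 ≤ ‖μ‖ := by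
    have h12 := (hG z h9).2.2
    have h13 : ‖F z‖ ≤ ‖μ‖ := by
      rw [h10, norm_smul]
      exact mul_le_of_le_one_right (norm_nonneg _) h12
    linarith
  calc (‖F z₀‖ / 2) ^ e * c₂ * ‖z - z₀‖ ^ M = (‖F z₀‖ / 2) ^ e * (c₂ * ‖z - z₀‖ ^ M) := by ring
    _ ≤ ‖μ‖ ^ e * ‖R i (G z)‖ := mul_le_mul (pow_le_pow_left₀ (by positivity) h11 _) h7 (by positivity) (by positivity)
    _ = ‖R i (F z)‖ := by rw [h10, hh, norm_mul, norm_pow]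

end Pool.Agent.G4.C
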