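import Pool.Agent.G4.C.PoA
import Pool.Agent.G4.C.PoB
import Pool.Agent.G4.C.PT

/-!
# G4 C PoC: the order of the poles of the jet form on the sheets

`pole`: `‖pT P a φ (y + z a) (F z)‖ * ‖z - z₀‖ ^ M` is bounded near `z₀`, `M` uniform.  `smn_box`: in a box the curves are smooth in the chart `nv v`.  `pval_nc`: the value of the jet form on the normalised curve.
-/

set_option autoImplicit false

open Topology Filter Metric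

namespace Pool.Agent.G4.C

open Pool.Agent.H36.BP (EN fs wd)
open Pool.Agent.H14.PP (IsCone)
open Pool.Agent.H62.EF (MN pr)
open Pool.Agent.AD (Vd Chart Charts)
open Pool.Agent.TG (TMap Lat Str ms tl Gd gd_near gd_mono gd_notMem)
open Pool.Agent.G3.A (Tb Hc NL)
open Pool.Agent.G3.C

variable {N k : ℕ} {X : Set (EN N)} {Λ : AddSubgroup (Vd (k + 1))} {u : EN N → Vd (k + 1)} {ν a b c : Vd (k + 1)} {m : ℕ} {ρ : ℝ} {E : Submodule ℝ (Vd (k + 1))}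
  {D Bad : Set (Vd (k + 1))} {SS : Set (Vd (k + 1) → MN N)}

theorem smn_box {Φ : ℝ → ℂ → MN N} {χ : Chart (k + 2) X} {w : ℕ → ℝ → ℂ → ℂ} {z : ℂ} {r : ℝ} (B : Box X Λ u a ν b Φ χ c ρ w 0 z r) {v : EN N}
    (hv : (inner ℂ v (χ.σ (cz b ν a c ρ (w 0 0 z) ((0 : ℝ) : ℂ) z)) : ℂ) ≠ 0) : SmN v Φ z := by
  have hs : (0 : ℝ) ∈ Set.Ioo (0 - r) (0 + r) := ⟨by linarith [B.pos], by linarith [B.pos]⟩
  have hz : z ∈ ball z r := mem_ball_self B.pos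
  have hnh : Set.Ioo (0 - r) (0 + r) ×ˢ ball z r ∈ 𝓝 ((0, z) : ℝ × ℂ) := (isOpen_Ioo.prod isOpen_ball).mem_nhds ⟨hs, hz⟩
  have hcz0 : cz b ν a c ρ (w 0 0 z) ((0 : ℝ) : ℂ) z ∈ ball (0 : Vd (k + 2)) 2 := B.mem 0 hs z hz
  have hσc : ContinuousAt (fun q : ℝ × ℂ => (inner ℂ v (χ.σ (cz b ν a c ρ (w 0 q.1 q.2) q.1 q.2)) : ℂ)) (0, z) := by
    have hw : ContinuousAt (fun q : ℝ × ℂ => w 0 q.1 q.2) (0, z) := (B.jet.cont 0).continuousAt hnh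
    have hre : ContinuousAt (fun q : ℝ × ℂ => (q.1 : ℂ)) (0, z) := by fun_prop
    have h1 : ContinuousAt (fun p : ℂ × ℂ × ℂ => cz b ν a c ρ p.1 p.2.1 p.2.2) (w 0 0 z, ((0 : ℝ) : ℂ), z) :=
      (cz_analytic analyticAt_fst (analyticAt_fst.fun_comp analyticAt_snd) (analyticAt_snd.fun_comp analyticAt_snd)).continuousAt
    have h2 : ContinuousAt (fun q : ℝ × ℂ => cz b ν a c ρ (w 0 q.1 q.2) q.1 q.2) (0, z) :=
      ContinuousAt.comp (g := fun p : ℂ × ℂ × ℂ => cz b ν a c ρ p.1 p.2.1 p.2.2) (f := fun q : ℝ × ℂ => (w 0 q.1 q.2, (q.1 : ℂ), q.2)) h1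
        (hw.prodMk (hre.prodMk continuousAt_snd))
    have h3 : ContinuousAt (fun q : ℝ × ℂ => χ.σ (cz b ν a c ρ (w 0 q.1 q.2) q.1 q.2)) (0, z) :=
      ContinuousAt.comp (g := χ.σ) (f := fun q : ℝ × ℂ => cz b ν a c ρ (w 0 q.1 q.2) q.1 q.2) (χ.σ_an _ hcz0).continuousAt h2
    exact ContinuousAt.comp (g := fun x : EN N => (inner ℂ v x : ℂ)) (f := fun q : ℝ × ℂ => χ.σ (cz b ν a c ρ (w 0 q.1 q.2) q.1 q.2))
      (innerSL ℂ v).continuous.continuousAt h3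
  obtain ⟨r₁, hr₁, hne⟩ := Metric.eventually_nhds_iff_ball.1 (hσc.eventually_ne hv)
  obtain ⟨r', hr'd⟩ : ∃ r', r' = min r r₁ := ⟨_, rfl⟩
  have hr' : 0 < r' := by rw [hr'd]; exact lt_min B.pos hr₁
  have hr'r : r' ≤ r := by rw [hr'd]; exact min_le_left _ _
  have hr'r₁ : r' ≤ r₁ := by rw [hr'd]; exact min_le_right _ _
  have hI : Set.Ioo (-r') r' ⊆ Set.Ioo (0 - r) (0 + r) := Set.Ioo_subset_Ioo (by linarith) (by linarith)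
  have hD : ball z r' ⊆ ball z r := ball_subset_ball hr'r
  have hJ : JetFam w (Set.Ioo (-r') r') (ball z r') :=
    ⟨fun j s hs z hz => B.jet.der j s (hI hs) z (hD hz), fun j => (B.jet.cont j).mono (Set.prod_mono hI hD), fun j s hs => (B.jet.hol j s (hI hs)).mono hD⟩
  have hne' : ∀ t ∈ Set.Ioo (-r') r', ∀ y ∈ ball z r', (inner ℂ v (χ.σ (cz b ν a c ρ (w 0 t y) t y)) : ℂ) ≠ 0 := by
    intro t ht y hy
    refine hne (t, y) ?_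
    rw [mem_ball, Prod.dist_eq]
    refine max_lt ?_ ((mem_ball.1 hy).trans_le hr'r₁)
    rw [Real.dist_eq, abs_lt]
    constructor <;> linarith [ht.1, ht.2]
  obtain ⟨O, hO⟩ : ∃ O : Set (ℂ × ℂ × (Unit → ℂ)), O = {p | cz b ν a c ρ (p.2.2 ()) p.1 p.2.1 ∈ ball (0 : Vd (k + 2)) 2 ∧
      (inner ℂ v (χ.σ (cz b ν a c ρ (p.2.2 ()) p.1 p.2.1)) : ℂ) ≠ 0} := ⟨_, rfl⟩
  have hV : ∀ i : Fin (N + 1), ∃ V : ℕ → ℝ → ℂ → ℂ, JetFam V (Set.Ioo (-r') r') (ball z r') ∧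
      ∀ t ∈ Set.Ioo (-r') r', ∀ y ∈ ball z r', V 0 t y = (inner ℂ v (χ.σ (cz b ν a c ρ (w 0 t y) t y)) : ℂ)⁻¹ * χ.σ (cz b ν a c ρ (w 0 t y) t y) i := by
    intro i
    refine JetFam.comp (ι := Unit) (f := fun _ => w) isOpen_Ioo isOpen_ball (fun _ => hJ) (O := O)
      (Q := fun p => (inner ℂ v (χ.σ (cz b ν a c ρ (p.2.2 ()) p.1 p.2.1)) : ℂ)⁻¹ * χ.σ (cz b ν a c ρ (p.2.2 ()) p.1 p.2.1) i) ?_ ?_
    · intro p hp
      rw [hO] at hp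
      have h1 : AnalyticAt ℂ (fun p : ℂ × ℂ × (Unit → ℂ) => cz b ν a c ρ (p.2.2 ()) p.1 p.2.1) p := by
        refine cz_analytic ?_ analyticAt_fst (AnalyticAt.fun_comp (g := Prod.fst) analyticAt_fst analyticAt_snd)
        have h2 : AnalyticAt ℂ (fun p : ℂ × ℂ × (Unit → ℂ) => p.2.2) p := AnalyticAt.fun_comp (g := Prod.snd) analyticAt_snd analyticAt_snd
        exact analyticAt_pi_iff.1 h2 ()
      have h2 : AnalyticAt ℂ (fun p : ℂ × ℂ × (Unit → ℂ) => χ.σ (cz b ν a c ρ (p.2.2 ()) p.1 p.2.1)) p :=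
        AnalyticAt.fun_comp (g := χ.σ) (f := fun p : ℂ × ℂ × (Unit → ℂ) => cz b ν a c ρ (p.2.2 ()) p.1 p.2.1) (χ.σ_an _ hp.1) h1
      have h3 : AnalyticAt ℂ (fun p : ℂ × ℂ × (Unit → ℂ) => (inner ℂ v (χ.σ (cz b ν a c ρ (p.2.2 ()) p.1 p.2.1)) : ℂ)) p :=
        AnalyticAt.fun_comp (g := fun x : EN N => (inner ℂ v x : ℂ)) ((innerSL ℂ v).analyticAt _) h2
      have h4 : AnalyticAt ℂ (fun p : ℂ × ℂ × (Unit → ℂ) => χ.σ (cz b ν a c ρ (p.2.2 ()) p.1 p.2.1) i) p :=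
        AnalyticAt.fun_comp (g := fun x : EN N => x i) ((EuclideanSpace.proj (𝕜 := ℂ) i : EN N →L[ℂ] ℂ).analyticAt _) h2
      exact (h3.inv hp.2).mul h4
    · intro t ht y hy
      rw [hO]
      exact ⟨B.mem t (hI ht) y (hD hy), hne' t ht y hy⟩
  choose V hVJ hV0 using hV
  refine ⟨fun j s z => WithLp.toLp 2 fun i => V i j s z, r', hr', fun j s hs z' hz' => ?_, fun j => ?_, fun s hs z' hz' => ?_⟩
  · have h1 : HasDerivAt (fun t : ℝ => (fun i => V i j t z' : Fin (N + 1) → ℂ)) (fun i => V i (j + 1) s z') s := by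
      rw [hasDerivAt_pi]
      intro i
      exact (hVJ i).der j s hs z' hz'
    exact ((PiLp.continuousLinearEquiv 2 ℝ (fun _ : Fin (N + 1) => ℂ)).symm : (Fin (N + 1) → ℂ) →L[ℝ] EN N).hasFDerivAt.comp_hasDerivAt s h1
  · exact (PiLp.continuous_toLp 2 _).comp_continuousOn (continuousOn_pi.2 fun i => (hVJ i).cont j)
  · have h0 := hne' s hs z' hz'
    have hx0 : χ.σ (cz b ν a c ρ (w 0 s z') s z') ≠ 0 := fun h => by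
      rw [h, inner_zero_right] at h0
      exact h0 rfl
    rw [B.eq s (hI hs) z' (hD hz')]
    refine ⟨(nd_pr_ne hx0).2 h0, ?_⟩
    rw [nv_pr h0]
    ext i
    show (inner ℂ v (χ.σ (cz b ν a c ρ (w 0 s z') s z')) : ℂ)⁻¹ * χ.σ (cz b ν a c ρ (w 0 s z') s z') i = V i 0 s z'
    rw [hV0 i s hs z' hz']

/-- the value of the jet form on the normalised curve -/
theorem pval_nc (hX : IsCone X) (ht : TMap X Λ u) {Φ : ℝ → ℂ → MN N} {χ : Chart (k + 2) X} {w : ℕ → ℝ → ℂ → ℂ} {z : ℂ} {r : ℝ} (B : Box X Λ u a ν b Φ χ c ρ w 0 z r)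
    (P : JForm X Λ u ν m) {v x : EN N} (hx : x ≠ 0) (hΦ : Φ 0 z = pr x) (hv : (inner ℂ v x : ℂ) ≠ 0) :
    ∃ ψ : ℂ → EN N, DirC X Λ u ν ψ ∧ ψ 0 = (inner ℂ v x : ℂ)⁻¹ • x ∧ (∀ j : Fin (m + 1), jt m ψ j = iteratedDeriv j (fun t : ℝ => nv v (Φ t z)) 0) ∧
      pval P a b Φ 0 z x = P.toFun (jt m ψ) * (inner ℂ v x : ℂ)⁻¹ := by
  have hs : (0 : ℝ) ∈ Set.Ioo (0 - r) (0 + r) := ⟨by linarith [B.pos], by linarith [B.pos]⟩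
  have hz : z ∈ ball z r := mem_ball_self B.pos
  have hm := B.mem 0 hs z hz
  have h1 := B.eq 0 hs z hz
  rw [hΦ] at h1
  have hσX := (χ.σ_mem _ hm).1
  have hσ0 : χ.σ (cz b ν a c ρ (w 0 0 z) ((0 : ℝ) : ℂ) z) ≠ 0 := fun h0 => hX.zero_notMem (h0 ▸ hσX)
  obtain ⟨α, hα0, hα⟩ := (Pool.Agent.H62.EF.pr_eq_iff hσ0 hx).1 h1.symm
  have hvσ : (inner ℂ v (χ.σ (cz b ν a c ρ (w 0 0 z) ((0 : ℝ) : ℂ) z)) : ℂ) = α * inner ℂ v x := by rw [hα, inner_smul_right]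
  have hvσ0 : (inner ℂ v (χ.σ (cz b ν a c ρ (w 0 0 z) ((0 : ℝ) : ℂ) z)) : ℂ) ≠ 0 := by
    rw [hvσ]
    exact mul_ne_zero hα0 hv
  have hq : Jt m w 0 z ∈ OD b ν a c ρ m := hm
  have hdir := crv_dir (m := m) B.str hq
  obtain ⟨γ, hγ⟩ : ∃ γ : ℂ → EN N, γ = crv b ν a χ c ρ (Jt m w 0 z) := ⟨_, rfl⟩
  rw [← hγ] at hdir
  have hγ0 : γ 0 = χ.σ (cz b ν a c ρ (w 0 0 z) ((0 : ℝ) : ℂ) z) := by
    rw [hγ]
    unfold crv
    rw [pol_zero, add_zero]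
    rfl
  have hin : AnalyticAt ℂ (fun t => (inner ℂ v (γ t) : ℂ)) 0 :=
    AnalyticAt.fun_comp (g := fun x : EN N => (inner ℂ v x : ℂ)) ((innerSL ℂ v).analyticAt _) hdir.1
  have hin0 : (inner ℂ v (γ 0) : ℂ) ≠ 0 := by
    rw [hγ0]
    exact hvσ0
  have hinv : AnalyticAt ℂ (fun t => (inner ℂ v (γ t) : ℂ)⁻¹) 0 := hin.inv hin0
  have hγX : γ 0 ∈ X := hdir.2.self_of_nhds.1
  refine ⟨fun t => (inner ℂ v (γ t) : ℂ)⁻¹ • γ t, ⟨hinv.smul hdir.1, ?_⟩, ?_, fun j => ?_, ?_⟩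
  · have hne : ∀ᶠ t in 𝓝 (0 : ℂ), (inner ℂ v (γ t) : ℂ) ≠ 0 := hin.continuousAt.eventually_ne hin0
    filter_upwards [hdir.2, hne] with t ht1 ht2
    refine ⟨hX.smul_mem _ ht1.1 _ (inv_ne_zero ht2), ?_⟩
    have h2 := ht.smul _ ht1.1 _ (inv_ne_zero ht2)
    have h3 := ht.smul _ hγX _ (inv_ne_zero hin0)
    have e : u ((inner ℂ v (γ t) : ℂ)⁻¹ • γ t) - (u ((inner ℂ v (γ 0) : ℂ)⁻¹ • γ 0) + t • ν) =
        (u ((inner ℂ v (γ t) : ℂ)⁻¹ • γ t) - u (γ t)) - (u ((inner ℂ v (γ 0) : ℂ)⁻¹ • γ 0) - u (γ 0)) + (u (γ t) - (u (γ 0) + t • ν)) := by abel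
    rw [e]
    exact Λ.add_mem (Λ.sub_mem h2 h3) ht1.2
  · show (inner ℂ v (γ 0) : ℂ)⁻¹ • γ 0 = (inner ℂ v x : ℂ)⁻¹ • x
    rw [hγ0, hvσ, hα, smul_smul]
    congr 1
    field_simp
  · have h4 := jet_nv B hvσ0 m j
    simp only [zero_add] at h4
    rw [← h4, hγ]
  · rw [P.scale γ hdir _ hinv (inv_ne_zero hin0), pval_eq hX B P hα hα0]
    unfold QF
    rw [← hγ, inv_inv, hγ0, hvσ]
    field_simp

theorem pole (S : TDat X Λ u a ν b E D Bad SS) (ha : ‖a‖ = 1) {P : JForm X Λ u ν m} (hA : AlgP D P) :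
    ∃ M : ℕ, ∀ φ ∈ SS, ∀ y ∈ Tb b E, ∀ F ∈ Gc X Λ u a y, (∀ z : ℂ, φ (y + z • a) = pr (F z)) → ∀ z₀ : ℂ,
      ∃ C : ℝ, ∀ᶠ z in 𝓝[≠] z₀, ‖pT P a φ (y + z • a) (F z)‖ * ‖z - z₀‖ ^ M ≤ C := by
  obtain ⟨r, e, R, Q, C, MQ, hR, hh, hz, hQ, hRQ⟩ := hA
  obtain ⟨M₁, hM₁⟩ := alg_lb S ha hR hh hz
  obtain ⟨δ, hδ, hcirc⟩ := S.circ ha (η := 1 / 8) (by norm_num)
  obtain ⟨c, hc, hnl⟩ := S.nl (δ / 2) (half_pos hδ)
  obtain ⟨M₀, hM₀⟩ : ∃ M₀ : ℕ, (N + 1 : ℝ) < c * 16 ^ (M₀ + 1) := by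
    obtain ⟨n, hn⟩ := pow_unbounded_of_one_lt ((N + 1 : ℝ) / c) (show (1 : ℝ) < 16 by norm_num)
    refine ⟨n, ?_⟩
    rw [div_lt_iff₀ hc] at hn
    have h1 : (16 : ℝ) ^ n ≤ 16 ^ (n + 1) := pow_le_pow_right₀ (by norm_num) (Nat.le_succ n)
    calc (N + 1 : ℝ) < 16 ^ n * c := hn
      _ ≤ 16 ^ (n + 1) * c := by gcongr
      _ = c * 16 ^ (n + 1) := mul_comm _ _
  refine ⟨(m + 1) * M₀ * MQ + M₁, fun φ hφ y hy F hF hFφ z₀ => ?_⟩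
  have hF0 : ∀ z, F z ≠ 0 := fun z h0 => S.cone.zero_notMem (h0 ▸ hF.2.1 z)
  obtain ⟨v, hv⟩ : ∃ v, v = F z₀ := ⟨_, rfl⟩
  have hv0 : (inner ℂ v (F z₀) : ℂ) ≠ 0 := by
    rw [hv]
    exact inner_self_ne_zero.2 (hF0 z₀)
  obtain ⟨Φ, hΦ⟩ : ∃ Φ, Φ = sl φ a ν y := ⟨_, rfl⟩
  have SD := S.sdat hφ hy
  rw [← hΦ] at SD
  have e0 : ∀ z : ℂ, y + ((0 : ℝ) : ℂ) • ν + z • a = y + z • a := fun z => by simp
  have hΦ0 : ∀ z, Φ 0 z = pr (F z) := fun z => by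
    rw [hΦ, ← hFφ z]
    show φ (y + ((0 : ℝ) : ℂ) • ν + z • a) = φ (y + z • a)
    rw [e0]
  -- the lower bounds for the normalised lifts
  obtain ⟨r₁, hr₁, hr₁8, hcr⟩ := hcirc (y + z₀ • a)
  obtain ⟨z₁, hz₁⟩ : ∃ z₁ : ℂ, z₁ = z₀ + r₁ := ⟨_, rfl⟩
  have hz₁8 : ‖z₁ - z₀‖ ≤ 1 / 8 := by
    rw [hz₁, add_sub_cancel_left, Complex.norm_real, Real.norm_of_nonneg hr₁.le]
    exact hr₁8.le
  have hz₁G : y + z₁ • a ∈ Gd D δ := by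
    have h1 := hcr (r₁ : ℂ) (by rw [Complex.norm_real, Real.norm_of_nonneg hr₁.le])
    rw [hz₁, add_smul, ← add_assoc]
    exact h1
  have hFs : ∀ᶠ s : ℝ in 𝓝 0, ∃ G : ℂ → EN N, DifferentiableOn ℂ G (ball z₀ 2) ∧ (∀ z ∈ ball z₀ 2, G z ≠ 0 ∧ Φ s z = pr (G z) ∧ ‖G z‖ ≤ 1) ∧ c ≤ ‖G z₁‖ := by
    have h1 : ∀ᶠ s : ℝ in 𝓝 0, ‖(s : ℂ) • ν‖ < δ / 2 := by
      have h3 : Continuous fun s : ℝ => ‖(s : ℂ) • ν‖ := by fun_prop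
      have h2 := h3.tendsto 0
      rw [Complex.ofReal_zero, zero_smul, norm_zero] at h2
      exact h2.eventually_lt_const (half_pos hδ)
    filter_upwards [h1] with s hs
    obtain ⟨Fs, hFs, hFsΦ⟩ := SD.lift s
    obtain ⟨G, hG1, hG2, hG3⟩ := hnl (y + (s : ℂ) • ν) (Φ s) ⟨Fs, hFs, funext hFsΦ⟩ z₀
    refine ⟨G, hG1, fun z hz => ?_, hG3 z₁ ?_ ?_⟩
    · obtain ⟨h2, h3, h4⟩ := hG2 z hz
      exact ⟨fun h0 => S.cone.zero_notMem (h0 ▸ h2), h3, h4⟩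
    · rw [mem_closedBall, dist_eq_norm]
      linarith
    · have h2 := gd_near hz₁G (w := y + (s : ℂ) • ν + z₁ • a) (r := δ / 2) (by
        have e1 : y + (s : ℂ) • ν + z₁ • a - (y + z₁ • a) = (s : ℂ) • ν := by abel
        rw [e1]
        exact hs.le)
      have e2 : δ - δ / 2 = δ / 2 := by ring
      rwa [e2] at h2
  have hjet := jet_pole (Φ := Φ) (z₀ := z₀) (z₁ := z₁) (S := {z | y + z • a ∈ D}) (v := v) (c := c) (M := M₀) hc hM₀ hz₁8 (S.iso y z₀) hFs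
    ⟨F, hF.1.continuous.continuousAt, hv0, Eventually.of_forall hΦ0⟩ (fun z hzD hnd => by
      obtain ⟨χ, c', ρ, w, r', B⟩ := SD.smo 0 z (show ¬ (y + ((0 : ℝ) : ℂ) • ν + z • a ∈ D) by rw [e0]; exact hzD)
      refine smn_box B ?_
      have h1 := B.eq 0 ⟨by linarith [B.pos], by linarith [B.pos]⟩ z (mem_ball_self B.pos)
      have h2 := (χ.σ_mem _ (B.mem 0 ⟨by linarith [B.pos], by linarith [B.pos]⟩ z (mem_ball_self B.pos))).1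
      rw [h1] at hnd
      exact (nd_pr_ne (fun h0 => S.cone.zero_notMem (h0 ▸ h2))).1 hnd)
  choose Cj hCj using hjet
  obtain ⟨i, c₁, hc₁, hi⟩ := hM₁ y F hF z₀
  -- the linear form
  have hWc : Continuous fun z => ‖(inner ℂ v (F z) : ℂ)‖ := ((innerSL ℂ v).continuous.comp hF.1.continuous).norm
  obtain ⟨κ, hκ⟩ : ∃ κ, κ = ‖(inner ℂ v (F z₀) : ℂ)‖ / 2 := ⟨_, rfl⟩
  have hκ0 : 0 < κ := by
    rw [hκ]
    exact half_pos (norm_pos_iff.2 hv0)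
  have hW1 : ∀ᶠ z in 𝓝 z₀, κ < ‖(inner ℂ v (F z) : ℂ)‖ := hWc.continuousAt.eventually_const_lt (by
    rw [hκ] at hκ0 ⊢
    linarith)
  have hW2 : ∀ᶠ z in 𝓝 z₀, ‖(inner ℂ v (F z) : ℂ)‖ < 4 * κ := hWc.continuousAt.eventually_lt_const (by
    rw [hκ] at hκ0 ⊢
    linarith)
  obtain ⟨B₀, hB₀⟩ : ∃ B₀, B₀ = 1 + ∑ j : Fin (m + 1), Cj j := ⟨_, rfl⟩
  refine ⟨|C| * B₀ ^ MQ * (4 * κ) ^ e * κ⁻¹ / c₁, ?_⟩
  have hjall : ∀ᶠ z in 𝓝[≠] z₀, ∀ j : Fin (m + 1), ‖iteratedDeriv j (fun s : ℝ => nv v (Φ s z)) 0‖ * ‖z - z₀‖ ^ (((j : ℕ) + 1) * M₀) ≤ Cj j :=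
    eventually_all.2 fun j => hCj j
  have hb1 : ∀ᶠ z in 𝓝 z₀, z ∈ ball z₀ 1 := ball_mem_nhds z₀ one_pos
  filter_upwards [hjall, hi, S.iso y z₀, hW1.filter_mono nhdsWithin_le_nhds, hW2.filter_mono nhdsWithin_le_nhds, hb1.filter_mono nhdsWithin_le_nhds] with z hj hiz hzD hz1 hz2 hz3
  have hvz : (inner ℂ v (F z) : ℂ) ≠ 0 := fun h => by
    rw [h, norm_zero] at hz1
    linarith
  obtain ⟨χ, c', ρ, w, r', B⟩ := SD.smo 0 z (show ¬ (y + ((0 : ℝ) : ℂ) • ν + z • a ∈ D) by rw [e0]; exact hzD)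
  obtain ⟨ψ, hψd, hψ0, hψj, hψv⟩ := pval_nc S.cone S.tor B P (hF0 z) (hΦ0 z) hvz
  have hpT : pT P a φ (y + z • a) (F z) = P.toFun (jt m ψ) * (inner ℂ v (F z) : ℂ)⁻¹ := by
    rw [← hψv, hΦ]
    have hyz : y + ((0 : ℝ) : ℂ) • ν + z • a ∉ D := by rw [e0]; exact hzD
    have h1 := pval_pT S.cone P (b := y) (φ := φ) (s := 0) (z := z) (x := F z) ((S.sdat hφ hy).smo 0 z hyz) (S.smoS hφ (S.tb hy 0 z) hyz) (hF0 z) (by rw [e0]; exact hFφ z)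
    rw [e0] at h1
    exact h1.symm
  have hψD : ∀ y' ∈ D, u (ψ 0) - y' ∉ Λ := by
    intro y' hy' hmem
    refine hzD ?_
    have h1 := hF.2.2 z
    have h2 := S.tor.smul _ (hF.2.1 z) _ (inv_ne_zero hvz)
    rw [hψ0] at hmem
    have h3 := S.D_inv y' hy' _ (Λ.sub_mem hmem (Λ.add_mem h2 h1))
    have e1 : y' + (u ((inner ℂ v (F z) : ℂ)⁻¹ • F z) - y' - (u ((inner ℂ v (F z) : ℂ)⁻¹ • F z) - u (F z) + (u (F z) - (y + z • a)))) = y + z • a := by abel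
    rwa [e1] at h3
  have hRQz := hRQ i ψ hψd hψD
  rw [hψ0, hh] at hRQz
  -- the norms
  obtain ⟨t, ht⟩ : ∃ t, t = ‖z - z₀‖ := ⟨_, rfl⟩
  have ht0 : 0 ≤ t := by rw [ht]; exact norm_nonneg _
  have ht1 : t ≤ 1 := by
    rw [ht, ← dist_eq_norm]
    exact (mem_ball.1 hz3).le
  obtain ⟨W, hW⟩ : ∃ W, W = ‖(inner ℂ v (F z) : ℂ)‖ := ⟨_, rfl⟩
  rw [← hW] at hz1 hz2
  have hW0 : 0 < W := hκ0.trans hz1
  rw [← ht] at hiz ⊢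
  obtain ⟨p, hp⟩ : ∃ p, p = ‖P.toFun (jt m ψ)‖ := ⟨_, rfl⟩
  obtain ⟨q, hq⟩ : ∃ q, q = ‖R i (F z)‖ := ⟨_, rfl⟩
  have hp0 : 0 ≤ p := by rw [hp]; exact norm_nonneg _
  have hq0 : 0 ≤ q := by rw [hq]; exact norm_nonneg _
  rw [← hq] at hiz
  have hQn : p * q = ‖Q i (jt m ψ)‖ * W ^ e := by
    have h1 := congrArg norm hRQz
    rw [norm_mul, norm_mul, norm_pow, norm_inv, ← hW, ← hq, ← hp] at h1
    rw [← h1]
    have h2 : W⁻¹ ^ e * W ^ e = 1 := by rw [← mul_pow, inv_mul_cancel₀ hW0.ne', one_pow]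
    calc p * q = (W⁻¹ ^ e * W ^ e) * (p * q) := by rw [h2, one_mul]
      _ = _ := by ring
  have hsum : (1 + ∑ j, ‖jt m ψ j‖) * t ^ ((m + 1) * M₀) ≤ B₀ := by
    rw [add_mul, one_mul, Finset.sum_mul, hB₀]
    refine add_le_add (pow_le_one₀ ht0 ht1) (Finset.sum_le_sum fun j _ => ?_)
    have h1 := hj j
    rw [← ht] at h1
    rw [hψj]
    refine le_trans (mul_le_mul_of_nonneg_left (pow_le_pow_of_le_one ht0 ht1 ?_) (norm_nonneg _)) h1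
    exact Nat.mul_le_mul_right _ (by omega)
  have hsum0 : 0 ≤ 1 + ∑ j, ‖jt m ψ j‖ := by positivity
  have hB0 : 0 ≤ B₀ := (mul_nonneg hsum0 (pow_nonneg ht0 _)).trans hsum
  have hQb : ‖Q i (jt m ψ)‖ * t ^ ((m + 1) * M₀ * MQ) ≤ |C| * B₀ ^ MQ := by
    calc ‖Q i (jt m ψ)‖ * t ^ ((m + 1) * M₀ * MQ) ≤ (|C| * (1 + ∑ j, ‖jt m ψ j‖) ^ MQ) * t ^ ((m + 1) * M₀ * MQ) := by
          refine mul_le_mul_of_nonneg_right ((hQ i (jt m ψ)).trans ?_) (pow_nonneg ht0 _)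
          exact mul_le_mul_of_nonneg_right (le_abs_self C) (pow_nonneg hsum0 _)
      _ = |C| * ((1 + ∑ j, ‖jt m ψ j‖) * t ^ ((m + 1) * M₀)) ^ MQ := by
          rw [mul_pow, ← pow_mul]
          ring
      _ ≤ |C| * B₀ ^ MQ := by
          refine mul_le_mul_of_nonneg_left ?_ (abs_nonneg C)
          exact pow_le_pow_left₀ (mul_nonneg hsum0 (pow_nonneg ht0 _)) hsum _
  rw [hpT, norm_mul, norm_inv, ← hp, ← hW, pow_add, le_div_iff₀ hc₁]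
  have hWi : W⁻¹ ≤ κ⁻¹ := inv_anti₀ hκ0 hz1.le
  have hWe : W ^ e ≤ (4 * κ) ^ e := pow_le_pow_left₀ hW0.le hz2.le _
  calc p * W⁻¹ * (t ^ ((m + 1) * M₀ * MQ) * t ^ M₁) * c₁ = p * W⁻¹ * t ^ ((m + 1) * M₀ * MQ) * (c₁ * t ^ M₁) := by ring
    _ ≤ p * W⁻¹ * t ^ ((m + 1) * M₀ * MQ) * q := by
        refine mul_le_mul_of_nonneg_left hiz (mul_nonneg (mul_nonneg hp0 (inv_nonneg.2 hW0.le)) (pow_nonneg ht0 _))
    _ = (p * q) * t ^ ((m + 1) * M₀ * MQ) * W⁻¹ := by ring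
    _ = (‖Q i (jt m ψ)‖ * t ^ ((m + 1) * M₀ * MQ)) * W ^ e * W⁻¹ := by rw [hQn]; ring
    _ ≤ (|C| * B₀ ^ MQ) * (4 * κ) ^ e * κ⁻¹ := by
        have h1 : 0 ≤ ‖Q i (jt m ψ)‖ * t ^ ((m + 1) * M₀ * MQ) := mul_nonneg (norm_nonneg _) (pow_nonneg ht0 _)
        have h2 : 0 ≤ |C| * B₀ ^ MQ := mul_nonneg (abs_nonneg C) (pow_nonneg hB0 _)
        refine mul_le_mul (mul_le_mul hQb hWe (pow_nonneg hW0.le _) h2) hWi (inv_nonneg.2 hW0.le) ?_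
        exact mul_nonneg h2 (pow_nonneg (by linarith) _)

end Pool.Agent.G4.C
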