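import Pool.Agent.G3.C.QFt
import Pool.Agent.G4.C.Defs

/-!
# G4 C QFt: the jet form in a straight chart is not identically `0`

As in `G3/C/QFt`, with the curve of `ThP.thin` near the point `χ.σ (cz b ν a c ρ x s₁ z₁)` over `b + s₁ ν + z₁ a ∉ Nν`: its base point is exactly this point (`Lat.disc`).
-/

set_option autoImplicit false

open Topology Filter Metric

namespace Pool.Agent.G4.C

open Pool.Agent.H36.BP (EN fs wd)
open Pool.Agent.H14.PP (IsCone)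
open Pool.Agent.H62.EF (MN pr)
open Pool.Agent.AD (Vd Chart Charts)
open Pool.Agent.TG (TMap Lat Str ms tl)
open Pool.Agent.G3.C

variable {N k : ℕ} {X : Set (EN N)} {Λ : AddSubgroup (Vd (k + 1))} {u : EN N → Vd (k + 1)} {ν a b c : Vd (k + 1)} {m : ℕ} {ρ : ℝ}

private theorem eq_cz (hρ : 0 < ρ) {p : Vd (k + 2)} {s z : ℂ} (h : ms c ρ p = b + s • ν + z • a) : p = cz b ν a c ρ (p 0) s z := by
  have h0 : (ρ : ℂ) ≠ 0 := by exact_mod_cast hρ.ne'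
  funext i
  refine Fin.cases rfl (fun j => ?_) i
  have h1 : c j + (ρ : ℂ) * p j.succ = b j + s * ν j + z * a j := congrFun h j
  change p j.succ = (ρ : ℂ)⁻¹ * (b j + s * ν j + z * a j - c j)
  rw [← h1]
  field_simp
  ring

private theorem cz_sub_le (x x' s z : ℂ) : ‖cz b ν a c ρ x s z - cz b ν a c ρ x' s z‖ ≤ ‖x - x'‖ := by
  rw [pi_norm_le_iff_of_nonneg (norm_nonneg _)]
  intro i
  refine Fin.cases le_rfl (fun j => ?_) i
  change ‖tz b ν a c ρ s z j - tz b ν a c ρ s z j‖ ≤ ‖x - x'‖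
  rw [sub_self, norm_zero]
  exact norm_nonneg _

theorem QF_ne (hX : IsCone X) (hu : TMap X Λ u) (hΛ : Lat Λ) {P : JForm X Λ u ν m} {Nν : Set (Vd (k + 1))} (hP : ThP P a Nν)
    {χ : Chart (k + 2) X} (hs : Str Λ u χ c ρ) {x s₁ z₁ : ℂ} (hx : cz b ν a c ρ x s₁ z₁ ∈ ball (0 : Vd (k + 2)) 2) (hy : b + s₁ • ν + z₁ • a ∉ Nν) :
    ∃ q ∈ OD b ν a c ρ m, QF P b a χ c ρ q ≠ 0 := by
  set p₁ := cz b ν a c ρ x s₁ z₁ with hp₁
  obtain ⟨hxX, hxU, hxq⟩ := χ.σ_mem p₁ hx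
  have hms1 : ms c ρ p₁ = b + s₁ • ν + z₁ • a := ms_cz hs.pos x s₁ z₁
  have hu1 : u (χ.σ p₁) - (b + s₁ • ν + z₁ • a) ∈ Λ := by
    rw [← hms1]
    exact hs.lift p₁ hx
  obtain ⟨δ₀, hδ₀, hdisc₀⟩ := hΛ.disc
  -- the neighbourhood
  have hnb : {x' : EN N | x' ∈ χ.U ∧ ‖ms c ρ (χ.q x') - ms c ρ p₁‖ < δ₀} ∈ 𝓝 (χ.σ p₁) := by
    have h1 : Continuous (fun p : Vd (k + 2) => ms c ρ p) := by
      unfold ms tl
      fun_prop
    have h2 : ContinuousAt (fun x' : EN N => ‖ms c ρ (χ.q x') - ms c ρ p₁‖) (χ.σ p₁) :=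
      ((ContinuousAt.comp (g := fun p : Vd (k + 2) => ms c ρ p) (f := χ.q) h1.continuousAt (χ.q_an _ hxU).continuousAt).sub continuousAt_const).norm
    have h3 : ∀ᶠ x' in 𝓝 (χ.σ p₁), ‖ms c ρ (χ.q x') - ms c ρ p₁‖ < δ₀ := by
      refine h2.eventually_lt_const ?_
      show ‖ms c ρ (χ.q (χ.σ p₁)) - ms c ρ p₁‖ < δ₀
      rw [hxq, sub_self, norm_zero]
      exact hδ₀
    filter_upwards [χ.isOpen_U.mem_nhds hxU, h3] with x' h4 h5
    exact ⟨h4, h5⟩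
  obtain ⟨φ, hφ, ⟨hφU, hφδ⟩, hφu, hne⟩ := hP.thin _ hy (χ.σ p₁) hxX hu1 _ hnb
  obtain ⟨hφan, hφev⟩ := hφ
  -- the coordinates of the curve
  set p : ℂ → Vd (k + 2) := fun t => χ.q (φ t) with hp
  have hpan : AnalyticAt ℂ p 0 := AnalyticAt.fun_comp (g := χ.q) (f := φ) (χ.q_an (φ 0) hφU) hφan
  have hφX : φ 0 ∈ X := hφev.self_of_nhds.1
  have hUev : ∀ᶠ t in 𝓝 (0 : ℂ), φ t ∈ χ.U := hφan.continuousAt.eventually (χ.isOpen_U.mem_nhds hφU)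
  have hp0 : p 0 ∈ ball (0 : Vd (k + 2)) 2 := (χ.surj _ hφX hφU).1
  have hψan : AnalyticAt ℂ (fun t => χ.σ (p t)) 0 := AnalyticAt.fun_comp (g := χ.σ) (f := p) (χ.σ_an _ hp0) hpan
  have hpball : ∀ᶠ t in 𝓝 (0 : ℂ), p t ∈ ball (0 : Vd (k + 2)) 2 := hpan.continuousAt.eventually (isOpen_ball.mem_nhds hp0)
  -- the factor
  have hφ0 : φ 0 ≠ 0 := fun h => hX.zero_notMem (h ▸ hφX)
  obtain ⟨ℓ, hℓ⟩ : ∃ ℓ : EN N →L[ℂ] ℂ, ℓ (φ 0) = 1 := by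
    have hne : inner ℂ (φ 0) (φ 0) ≠ (0 : ℂ) := inner_self_ne_zero.mpr hφ0
    refine ⟨(inner ℂ (φ 0) (φ 0) : ℂ)⁻¹ • innerSL ℂ (φ 0), ?_⟩
    simp only [_root_.smul_apply, innerSL_apply_apply, smul_eq_mul]
    exact inv_mul_cancel₀ hne
  obtain ⟨c0, hc0, hc0e⟩ := (χ.surj _ hφX hφU).2
  have hℓσ0 : ℓ (χ.σ (p 0)) ≠ 0 := by
    intro h
    have h1 : ℓ (φ 0) = c0 * ℓ (χ.σ (p 0)) := by
      conv_lhs => rw [hc0e]
      rw [map_smul, smul_eq_mul]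
    rw [hℓ, h, mul_zero] at h1
    exact one_ne_zero h1
  have hℓφan : AnalyticAt ℂ (fun t => ℓ (φ t)) 0 := AnalyticAt.fun_comp (g := fun x => ℓ x) (f := φ) (ℓ.analyticAt _) hφan
  have hℓψan : AnalyticAt ℂ (fun t => ℓ (χ.σ (p t))) 0 := AnalyticAt.fun_comp (g := fun x => ℓ x) (f := fun t => χ.σ (p t)) (ℓ.analyticAt _) hψan
  set α : ℂ → ℂ := fun t => ℓ (φ t) / ℓ (χ.σ (p t)) with hα
  have hαan : AnalyticAt ℂ α 0 := hℓφan.fun_div hℓψan hℓσ0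
  have hα0 : α 0 ≠ 0 := by
    simp only [hα, hℓ]
    exact div_ne_zero one_ne_zero hℓσ0
  have hαne : ∀ᶠ t in 𝓝 (0 : ℂ), α t ≠ 0 := hαan.continuousAt.eventually_ne hα0
  have hφα : ∀ᶠ t in 𝓝 (0 : ℂ), φ t = α t • χ.σ (p t) := by
    filter_upwards [hφev, hUev, hℓψan.continuousAt.eventually_ne hℓσ0] with t h1 h2 h3
    obtain ⟨c1, -, hc1⟩ := (χ.surj _ h1.1 h2).2
    have h4 : ℓ (φ t) = c1 * ℓ (χ.σ (p t)) := by
      conv_lhs => rw [hc1]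
      rw [map_smul, smul_eq_mul]
    have h5 : α t = c1 := by
      simp only [hα]
      rw [h4, mul_div_cancel_right₀ _ h3]
    rw [h5]
    exact hc1
  -- the curve in the chart
  have hψΛ : ∀ᶠ t in 𝓝 (0 : ℂ), u (φ t) - u (χ.σ (p t)) ∈ Λ := by
    filter_upwards [hφα, hαne, hpball] with t h1 h2 h3
    rw [h1]
    exact hu.smul _ (χ.σ_mem _ h3).1 _ h2
  have hψdir : DirC X Λ u ν (fun t => χ.σ (p t)) := by
    refine ⟨hψan, ?_⟩
    filter_upwards [hφev, hψΛ, hpball] with t h1 h2 h3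
    refine ⟨(χ.σ_mem _ h3).1, ?_⟩
    have h4 := hψΛ.self_of_nhds
    have h5 : u (χ.σ (p t)) - (u (χ.σ (p 0)) + t • ν) = (u (φ t) - (u (φ 0) + t • ν)) - (u (φ t) - u (χ.σ (p t))) + (u (φ 0) - u (χ.σ (p 0))) := by
      abel
    rw [h5]
    exact Λ.add_mem (Λ.sub_mem h1.2 h2) h4
  have hPψ : P.toFun (jt m fun t => χ.σ (p t)) ≠ 0 := by
    intro h
    have h1 : jt m φ = jt m fun t => α t • χ.σ (p t) := by
      funext j
      exact Filter.EventuallyEq.iteratedDeriv_eq (j : ℕ) hφα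
    rw [h1, P.scale _ hψdir α hαan hα0, h, mul_zero] at hne
    exact hne rfl
  -- the base coordinates
  have hms : ∀ᶠ t in 𝓝 (0 : ℂ), ms c ρ (p t) = ms c ρ (p 0) + t • ν := by
    obtain ⟨δ, hδ, hdisc⟩ := hΛ.disc
    have hcont : ContinuousAt (fun t : ℂ => ms c ρ (p t) - (ms c ρ (p 0) + t • ν)) 0 := by
      have h1 : Continuous (fun p : Vd (k + 2) => ms c ρ p) := by
        unfold ms tl
        fun_prop
      exact (ContinuousAt.comp (g := fun p : Vd (k + 2) => ms c ρ p) (f := p) h1.continuousAt hpan.continuousAt).sub (by fun_prop)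
    have hz : (fun t : ℂ => ms c ρ (p t) - (ms c ρ (p 0) + t • ν)) 0 ∈ ball (0 : Vd (k + 1)) δ := by
      simp [hδ]
    filter_upwards [hcont.eventually (isOpen_ball.mem_nhds hz), hψdir.2, hpball] with t h1 h2 h3
    have h4 : ms c ρ (p t) - (ms c ρ (p 0) + t • ν) ∈ Λ := by
      have h5 : ms c ρ (p t) - (ms c ρ (p 0) + t • ν) =
          (u (χ.σ (p t)) - (u (χ.σ (p 0)) + t • ν)) - (u (χ.σ (p t)) - ms c ρ (p t)) + (u (χ.σ (p 0)) - ms c ρ (p 0)) := by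
        abel
      rw [h5]
      exact Λ.add_mem (Λ.sub_mem h2.2 (hs.lift _ h3)) (hs.lift _ hp0)
    exact sub_eq_zero.1 (hdisc _ h4 (mem_ball_zero_iff.1 h1))
  obtain ⟨s₀, hs₀⟩ : ∃ s₀ : ℂ, s₀ = s₁ := ⟨_, rfl⟩
  obtain ⟨z₀, hz₀⟩ : ∃ z₀ : ℂ, z₀ = z₁ := ⟨_, rfl⟩
  have hsz' : ms c ρ (p 0) = b + s₀ • ν + z₀ • a := by
    rw [hs₀, hz₀, ← hms1]
    refine sub_eq_zero.1 (hdisc₀ _ ?_ hφδ)
    have h1 := hs.lift (p 0) hp0
    have h2 := hψΛ.self_of_nhds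
    have h3 : ms c ρ (p 0) - ms c ρ p₁ = (u (φ 0) - (b + s₁ • ν + z₁ • a)) - (u (φ 0) - u (χ.σ (p 0))) - (u (χ.σ (p 0)) - ms c ρ (p 0)) := by
      rw [hms1]
      abel
    rw [h3]
    exact Λ.sub_mem (Λ.sub_mem hφu h2) h1
  have hpcz : ∀ᶠ t in 𝓝 (0 : ℂ), p t = cz b ν a c ρ (p t 0) (s₀ + t) z₀ := by
    filter_upwards [hms] with t h1
    refine eq_cz hs.pos ?_
    rw [h1, hsz', add_smul]
    abel
  -- the jet
  have hgan : AnalyticAt ℂ (fun t => p t 0) 0 := analyticAt_pi_iff.1 hpan 0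
  obtain ⟨C, δ, hδ, hC⟩ := hol_taylor hgan m
  set v : Fin (m + 1) → ℂ := fun j => iteratedDeriv j (fun t => p t 0) 0 with hv
  have hv0 : v 0 = p 0 0 := by
    simp only [hv, Fin.val_zero, iteratedDeriv_zero]
  have hcz0 : cz b ν a c ρ (v 0) s₀ z₀ = p 0 := by
    have h1 := hpcz.self_of_nhds
    rw [add_zero] at h1
    rw [hv0]
    exact h1.symm
  have hqOD : (s₀, z₀, v) ∈ OD b ν a c ρ m := by
    change cz b ν a c ρ (v 0) s₀ z₀ ∈ ball (0 : Vd (k + 2)) 2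
    rw [hcz0]
    exact hp0
  refine ⟨(s₀, z₀, v), hqOD, ?_⟩
  have hjt : jt m (crv b ν a χ c ρ (s₀, z₀, v)) = jt m fun t => χ.σ (p t) := by
    obtain ⟨K, S, hS, hK⟩ := (χ.σ_an _ hp0).hasStrictFDerivAt.exists_lipschitzOnWith
    have hczan : AnalyticAt ℂ (fun t : ℂ => cz b ν a c ρ (pol v t) (s₀ + t) z₀) 0 :=
      cz_analytic (pol_analytic analyticAt_const analyticAt_id) (analyticAt_const.add analyticAt_id) analyticAt_const
    have hS1 : ∀ᶠ t in 𝓝 (0 : ℂ), cz b ν a c ρ (pol v t) (s₀ + t) z₀ ∈ S := by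
      refine hczan.continuousAt.eventually ?_
      have h1 : cz b ν a c ρ (pol v 0) (s₀ + 0) z₀ = p 0 := by rw [pol_zero, add_zero, hcz0]
      change S ∈ 𝓝 (cz b ν a c ρ (pol v 0) (s₀ + 0) z₀)
      rw [h1]
      exact hS
    have hS2 : ∀ᶠ t in 𝓝 (0 : ℂ), p t ∈ S := hpan.continuousAt.eventually hS
    obtain ⟨r, hr, hall⟩ := Metric.eventually_nhds_iff_ball.mp ((hS1.and hS2).and hpcz)
    refine jt_eq_of_bound (crv_dir hs hqOD).1 hψan (C := K * C) (δ := min δ r) (lt_min hδ hr) fun t ht => ?_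
    have htb : (t : ℂ) ∈ ball (0 : ℂ) r := by
      rw [mem_ball_zero_iff, Complex.norm_real, Real.norm_of_nonneg ht.1.le]
      exact ht.2.trans_le (min_le_right _ _)
    obtain ⟨⟨h1, h2⟩, h3⟩ := hall _ htb
    have h4 := hK.norm_sub_le h1 h2
    have h5 : ‖cz b ν a c ρ (pol v t) (s₀ + t) z₀ - p t‖ ≤ ‖pol v t - p t 0‖ := by
      conv_lhs => rw [h3]
      exact cz_sub_le _ _ _ _
    have h6 := hC t ⟨ht.1, ht.2.trans_le (min_le_left _ _)⟩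
    rw [norm_sub_rev] at h6
    calc ‖crv b ν a χ c ρ (s₀, z₀, v) t - χ.σ (p t)‖ ≤ K * ‖cz b ν a c ρ (pol v t) (s₀ + t) z₀ - p t‖ := h4
      _ ≤ K * (C * t ^ (m + 1)) := mul_le_mul_of_nonneg_left (h5.trans h6) K.2
      _ = K * C * t ^ (m + 1) := by ring
  unfold QF
  rw [hjt]
  exact hPψ

end Pool.Agent.G4.C
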