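import Pool.Agent.G4.C.Defs
import Pool.Agent.G3.C.Mero

/-!
# G4 C Slc: the slices of the sheets

`BoxT.box`: a box on `T` gives boxes on the slices.  `TDat.iso`: `D` is discrete on the lines.  `TDat.sdat`: the data of the slice at `y ∈ T`.
-/

set_option autoImplicit false

open Topology Filter Metric

namespace Pool.Agent.G4.C

open Pool.Agent.H36.BP (EN fs wd)
open Pool.Agent.H14.PP (IsCone)
open Pool.Agent.H62.EF (MN pr)
open Pool.Agent.AD (Vd Chart Charts)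
open Pool.Agent.TG (TMap Lat Str ms tl Gd)
open Pool.Agent.G3.A (Tb)
open Pool.Agent.G3.C

variable {N k : ℕ} {X : Set (EN N)} {Λ : AddSubgroup (Vd (k + 1))} {u : EN N → Vd (k + 1)} {ν a b c : Vd (k + 1)} {m : ℕ} {ρ : ℝ} {E : Submodule ℝ (Vd (k + 1))}
  {D Bad T : Set (Vd (k + 1))} {SS : Set (Vd (k + 1) → MN N)} {φ : Vd (k + 1) → MN N} {χ : Chart (k + 2) X} {w : ℕ → Vd (k + 1) → ℂ} {y₀ : Vd (k + 1)} {r : ℝ}

theorem sl_add (y : Vd (k + 1)) (s s' : ℝ) (z z' : ℂ) : sl φ a ν y (s + s') (z + z') = sl φ a ν (y + (s : ℂ) • ν + z • a) s' z' := by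
  unfold sl
  congr 1
  push_cast
  rw [add_smul, add_smul]
  abel

/-- the jets on the slice at `y` -/
def wsl (w : ℕ → Vd (k + 1) → ℂ) (a ν y : Vd (k + 1)) (j : ℕ) (s : ℝ) (z : ℂ) : ℂ := w j (y + (s : ℂ) • ν + z • a)

theorem slc_cont (a ν y : Vd (k + 1)) : Continuous fun q : ℝ × ℂ => y + (q.1 : ℂ) • ν + q.2 • a := by fun_prop

theorem BoxT.box (B : BoxT X Λ u a ν T φ χ c ρ w y₀ r) {y : Vd (k + 1)} (hT : ∀ (s : ℝ) (z : ℂ), y + (s : ℂ) • ν + z • a ∈ T) {s₀ : ℝ} {z₀ : ℂ}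
    (h : y + (s₀ : ℂ) • ν + z₀ • a ∈ ball y₀ r) : ∃ r' : ℝ, Box X Λ u a ν y (sl φ a ν y) χ c ρ (wsl w a ν y) s₀ z₀ r' := by
  obtain ⟨r', hr', hb⟩ := Metric.isOpen_iff.1 (isOpen_ball.preimage (slc_cont a ν y)) (s₀, z₀) h
  have hm : ∀ s ∈ Set.Ioo (s₀ - r') (s₀ + r'), ∀ z ∈ ball z₀ r', y + (s : ℂ) • ν + z • a ∈ T ∩ ball y₀ r := by
    intro s hs z hz
    refine ⟨hT s z, hb (a := (s, z)) ?_⟩
    rw [mem_ball, Prod.dist_eq]
    refine max_lt ?_ hz
    rw [Real.dist_eq, abs_lt]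
    constructor <;> linarith [hs.1, hs.2]
  refine ⟨r', hr', B.str, ⟨fun j s hs z hz => ?_, fun j => ?_, fun j s hs z hz => ?_⟩, fun s hs z hz => B.mem _ (hm s hs z hz), fun s hs z hz => B.eq _ (hm s hs z hz)⟩
  · have h1 := B.der j _ (hm s hs z hz)
    have h2 : HasDerivAt (fun t : ℝ => w j (y + (s : ℂ) • ν + z • a + (t : ℂ) • ν)) (w (j + 1) (y + (s : ℂ) • ν + z • a)) (s - s) := by
      rw [sub_self]
      exact h1
    have h3 := h2.comp_sub_const s s
    refine h3.congr_of_eventuallyEq (Eventually.of_forall fun t => ?_)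
    show w j (y + (t : ℂ) • ν + z • a) = w j (y + (s : ℂ) • ν + z • a + ((t - s : ℝ) : ℂ) • ν)
    congr 1
    push_cast
    rw [sub_smul]
    abel
  · refine (B.cont j).comp (slc_cont a ν y).continuousOn fun q hq => hm q.1 hq.1 q.2 hq.2
  · have h1 := B.hol j _ (hm s hs z hz)
    have h2 : DifferentiableAt ℂ (fun z' : ℂ => w j (y + (s : ℂ) • ν + z • a + z' • a)) (z - z) := by
      rw [sub_self]
      exact h1
    have h3 : DifferentiableAt ℂ (fun z' : ℂ => w j (y + (s : ℂ) • ν + z • a + (z' - z) • a)) z :=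
      DifferentiableAt.comp (g := fun z' : ℂ => w j (y + (s : ℂ) • ν + z • a + z' • a)) (f := fun z' : ℂ => z' - z) z h2 (by fun_prop)
    refine (h3.congr_of_eventuallyEq (Eventually.of_forall fun z' => ?_)).differentiableWithinAt
    show w j (y + (s : ℂ) • ν + z' • a) = w j (y + (s : ℂ) • ν + z • a + (z' - z) • a)
    congr 1
    rw [sub_smul]
    abel

theorem TDat.tb (S : TDat X Λ u a ν b E D Bad SS) {y : Vd (k + 1)} (hy : y ∈ Tb b E) (s : ℝ) (z : ℂ) : y + (s : ℂ) • ν + z • a ∈ Tb b E := by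
  show y + (s : ℂ) • ν + z • a - b ∈ E
  have e : y + (s : ℂ) • ν + z • a - b = (y - b) + s • ν + z • a := by
    rw [Complex.coe_smul]
    abel
  rw [e]
  exact E.add_mem (E.add_mem hy (E.smul_mem s S.ν_mem)) (S.a_mem z)

theorem TDat.iso (S : TDat X Λ u a ν b E D Bad SS) (y : Vd (k + 1)) (z₀ : ℂ) : ∀ᶠ z in 𝓝[≠] z₀, y + z • a ∉ D := by
  obtain ⟨h, hh, hD, hne⟩ := S.thin (y + z₀ • a)
  have hl : AnalyticAt ℂ (fun z : ℂ => y + z • a) z₀ := by
    have : AnalyticAt ℂ (fun z : ℂ => z • a) z₀ := analyticAt_id.smul analyticAt_const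
    exact analyticAt_const.add this
  have hg : AnalyticAt ℂ (fun z : ℂ => h (y + z • a)) z₀ := AnalyticAt.fun_comp (g := h) (f := fun z : ℂ => y + z • a) hh hl
  have hev : ∀ᶠ z in 𝓝 z₀, y + z • a ∈ D → h (y + z • a) = 0 := hl.continuousAt.eventually hD
  rcases hg.eventually_eq_zero_or_eventually_ne_zero with h0 | h0
  · exfalso
    apply hne
    have h1 : Tendsto (fun z : ℂ => z₀ + z) (𝓝 0) (𝓝 z₀) := by
      have : Continuous fun z : ℂ => z₀ + z := by fun_prop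
      have h2 := this.tendsto 0
      rwa [add_zero] at h2
    filter_upwards [h1.eventually h0] with z hz
    rw [← hz]
    congr 1
    rw [add_smul]
    abel
  · filter_upwards [h0, hev.filter_mono nhdsWithin_le_nhds] with z h1 h2 h3
    exact h1 (h2 h3)

theorem dz_closed (hD : IsClosed D) (a ν y : Vd (k + 1)) : IsClosed (Dz D a ν y) := by
  have h : Continuous fun q : ℂ × ℂ => y + q.1 • ν + q.2 • a := by fun_prop
  exact hD.preimage h

theorem TDat.sdat (S : TDat X Λ u a ν b E D Bad SS) (hφ : φ ∈ SS) {y : Vd (k + 1)} (hy : y ∈ Tb b E) :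
    SDat X Λ u a ν y (Dz D a ν y) (Dz Bad a ν y) (sl φ a ν y) where
  cone := S.cone
  tor := S.tor
  lat := S.lat
  bd_closed := dz_closed S.bad_closed a ν y
  bd_sub := fun _ hq => S.bad_sub hq
  dt_closed := dz_closed S.D_closed a ν y
  dt_iso := fun s z => S.iso (y + (s : ℂ) • ν) z
  lift := fun s => by
    have h1 := S.tb hy s 0
    rw [zero_smul, add_zero] at h1
    exact S.line φ hφ _ h1
  smo := fun s z hsz => by
    obtain ⟨χ, c, ρ, w, r, B⟩ := S.smo φ hφ _ (S.tb hy s z) hsz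
    obtain ⟨r', B'⟩ := B.box (y := y) (fun s z => S.tb hy s z) (mem_ball_self B.pos)
    exact ⟨χ, c, ρ, _, r', B'⟩
  str := fun s z hsz => by
    obtain ⟨χ, c, ρ, x, h1, h2, h3⟩ := S.str φ hφ _ (S.tb hy s z) hsz
    exact ⟨χ, c, ρ, x, h1, h2, h3⟩

/-- the number of the points of `D` on a line in a disc is finite -/
theorem TDat.hits (S : TDat X Λ u a ν b E D Bad SS) (y : Vd (k + 1)) (z₀ : ℂ) (R : ℝ) : ({z : ℂ | y + z • a ∈ D} ∩ closedBall z₀ R).Finite := by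
  have h1 := finite_of_isolated (isCompact_closedBall z₀ R) (P := fun z => y + z • a ∈ D) fun z _ => S.iso y z
  refine h1.subset fun z hz => ⟨hz.2, hz.1⟩

end Pool.Agent.G4.C
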